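import Pool.Agent.Lib.MP_15511a_al.Two.Span
import Pool.Agent.Lib.MP_15511a_al.Stab.Main

/-!
Stable transitivity in the free metabelian group.
-/

open scoped commutatorElement

namespace MP15511a

variable {n : ℕ}

theorem smul_mem_HS {S : Set (Fin n)} {e : EE 1 n} (he : e ∈ ES S) :
    ∀ w : VV 1 n, vl w ∈ HS S → vl (e • w) ∈ HS S := by
  refine ES_ind (P := fun e => ∀ w : VV 1 n, vl w ∈ HS S →
    vl (e • w) ∈ HS S) ?_ ?_ ?_ ?_ he
  · intro x hx w hw
    rw [vl_smul_Te]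
    exact Subgroup.mul_mem _ (Subgroup.mul_mem _ hx hw) (Subgroup.inv_mem _ hx)
  · intro w _
    rw [zero_smul, vl_zero]
    exact Subgroup.one_mem _
  · intro a b ha hb w hw
    rw [add_smul, vl_add]
    exact Subgroup.mul_mem _ (ha w hw) (hb w hw)
  · intro a ha w hw
    rw [neg_smul, vl_neg]
    exact Subgroup.inv_mem _ (ha w hw)

/-- equivalence of elements of the free metabelian group under tame automorphisms -/
def MEq (v w : FreeAN 1 n) : Prop := ∃ φ, IsTame φ ∧ φ v = w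

theorem MEq.refl (v : FreeAN 1 n) : MEq v v := ⟨_, isTame_id, rfl⟩

theorem MEq.trans {u v w : FreeAN 1 n} (h : MEq u v) (h' : MEq v w) : MEq u w := by
  obtain ⟨φ, h1, rfl⟩ := h
  obtain ⟨ψ, h2, rfl⟩ := h'
  exact ⟨ψ.comp φ, h2.comp h1, rfl⟩

theorem MEq.symm {v w : FreeAN 1 n} (h : MEq v w) : MEq w v := by
  obtain ⟨φ, ⟨Φ, h1⟩, rfl⟩ := h
  set ψ : FreeAN 1 n →* FreeAN 1 n := liftAN (inAN_free 1 n)
    (fun i => QuotientGroup.mk (Φ.symm (FreeGroup.of i))) with hψ
  have h2 : ∀ g : FreeGroup (Fin n), ψ (QuotientGroup.mk g) = QuotientGroup.mk (Φ.symm g) := by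
    have h3 : ψ.comp (QuotientGroup.mk' _) = (QuotientGroup.mk' _).comp Φ.symm.toMonoidHom := by
      apply FreeGroup.ext_hom
      intro i
      change ψ (gen 1 i) = _
      rw [hψ, liftAN_gen]
      rfl
    exact fun g => DFunLike.congr_fun h3 g
  refine ⟨ψ, ⟨Φ.symm, fun g => (h2 g).symm⟩, ?_⟩
  obtain ⟨v, rfl⟩ := QuotientGroup.mk_surjective v
  rw [← h1, h2, Φ.symm_apply_apply]

/-- the term given by a triple and a coefficient -/
def tm (e : (Fin n × Fin n × Fin n) × EE 1 n) : VV 1 n := e.2 • u3 e.1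

theorem step_term {C : Set (Fin n)} {s p u : Fin n} (hs : s ∉ C) (hp : p ∉ C) (hsp : s ≠ p)
    (hu : u ∉ C) (hus : u ≠ s) (hup : u ≠ p) (e : (Fin n × Fin n × Fin n) × EE 1 n)
    (h1 : e.1.1 ∈ C) (h2 : e.1.2.1 ∈ C) (h3 : e.1.2.2 ∈ C) (hg : e.2 ∈ ES C) :
    ∃ θ : VV 1 n, vl θ ∈ HS (insert u C) ∧ vl (tm e + θ) ∈ HS (insert u C) ∧
      (∀ v ∈ HS C, UMC C v → MEq v (vl (tm e + θ) * v) ∧ UMC (insert u C) (vl (tm e + θ) * v)) ∧
      (∀ v ∈ HS C, UMC C v → MEq v (vl θ * v) ∧ UMC (insert u C) (vl θ * v)) := by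
  obtain ⟨⟨z, j, k⟩, g⟩ := e
  change z ∈ C at h1
  change j ∈ C at h2
  change k ∈ C at h3
  change g ∈ ES C at hg
  have hCu : C ⊆ insert u C := Set.subset_insert u C
  have hum : u ∈ insert u C := Set.mem_insert u C
  have hgen : ∀ {e : EE 1 n}, e ∈ ES (insert u C) → ∀ w : VV 1 n, vl w ∈ HS (insert u C) →
      vl (e • w) ∈ HS (insert u C) := fun he => smul_mem_HS he
  have gj : gen 1 j ∈ HS (insert u C) := gen_mem_HS (hCu h2)
  have gk : gen 1 k ∈ HS (insert u C) := gen_mem_HS (hCu h3)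
  have gz : gen 1 z ∈ HS (insert u C) := gen_mem_HS (hCu h1)
  have gu : gen 1 u ∈ HS (insert u C) := gen_mem_HS hum
  have gg : g ∈ ES (insert u C) := ES_mono hCu hg
  have htm : vl (tm ((z, j, k), g)) ∈ HS (insert u C) :=
    hgen gg _ (hgen (dl_mem gz) _ (cm_mem_HS gj gk))
  have fin : ∀ θ : VV 1 n, vl θ ∈ HS (insert u C) →
      vl (tm ((z, j, k), g) + θ) ∈ HS (insert u C) := by
    intro θ hθ
    rw [vl_add]
    exact Subgroup.mul_mem _ htm hθ
  by_cases hjk : j = k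
  · have h0 : tm ((z, j, k), g) = 0 := by
      change g • ((1 - Te 1 n (gen 1 z)) • cm (gen 1 j) (gen 1 k)) = 0
      rw [hjk, cm_self, smul_zero, smul_zero]
    have h00 : vl (0 : VV 1 n) ∈ HS (insert u C) := by rw [vl_zero]; exact Subgroup.one_mem _
    refine ⟨0, h00, fin 0 h00, ?_, ?_⟩
    · intro v _ hv
      rw [h0, zero_add, vl_zero, one_mul]
      exact ⟨MEq.refl v, hv.mono hCu⟩
    · intro v _ hv
      rw [vl_zero, one_mul]
      exact ⟨MEq.refl v, hv.mono hCu⟩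
  -- the common part of two cases
  have two : ∀ (x y : Fin n) (g' : EE 1 n), x ∈ C → y ∈ C → g' ∈ ES C →
      tm ((z, j, k), g) = (g' * (1 - Te 1 n (gen 1 y))) • cm (gen 1 x) (gen 1 y) →
      ∃ θ : VV 1 n, vl θ ∈ HS (insert u C) ∧ vl (tm ((z, j, k), g) + θ) ∈ HS (insert u C) ∧
      (∀ v ∈ HS C, UMC C v → MEq v (vl (tm ((z, j, k), g) + θ) * v)
        ∧ UMC (insert u C) (vl (tm ((z, j, k), g) + θ) * v)) ∧
      (∀ v ∈ HS C, UMC C v → MEq v (vl θ * v) ∧ UMC (insert u C) (vl θ * v)) := by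
    intro x y g' hx hy hg' ht
    set θ : VV 1 n := (g' * Te 1 n (gen 1 x) * (1 - Te 1 n (gen 1 y))) • cm (gen 1 u) (gen 1 y)
      with hθ
    have gx : gen 1 x ∈ HS C := gen_mem_HS hx
    have gy : gen 1 y ∈ HS C := gen_mem_HS hy
    have hθm : vl θ ∈ HS (insert u C) := hgen (ES_mono hCu (Subring.mul_mem _
      (Subring.mul_mem _ hg' (Te_mem_ES gx)) (dl_mem gy))) _ (cm_mem_HS gu (HS_mono hCu gy))
    refine ⟨θ, hθm, fin θ hθm, ?_, ?_⟩
    · intro v hvC hv
      have h4 := move_two hs hp hsp hx hy hu hus hup hvC hv hg'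
      have h5 : tm ((z, j, k), g) + θ = (g' * (1 - Te 1 n (gen 1 y))) • (cm (gen 1 x) (gen 1 y)
          + Te 1 n (gen 1 x) • cm (gen 1 u) (gen 1 y)) := by
        rw [ht, hθ]
        module
      rw [h5]
      exact h4
    · intro v hvC hv
      exact move_one hs hp hsp hy hu hus hup hvC hv (Subring.mul_mem _ hg' (Te_mem_ES gx))
  by_cases hzk : z = k
  · subst hzk
    apply two j z g h2 h1 hg
    change g • ((1 - Te 1 n (gen 1 z)) • cm (gen 1 j) (gen 1 z)) = _
    rw [smul_smul]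
  by_cases hzj : z = j
  · subst hzj
    apply two k z (-g) h3 h1 (Subring.neg_mem _ hg)
    change g • ((1 - Te 1 n (gen 1 z)) • cm (gen 1 z) (gen 1 k)) = _
    rw [cm_symm (gen 1 z) (gen 1 k)]
    module
  · set θ : VV 1 n := (1 * (1 - Te 1 n (gen 1 z))) • cm (gen 1 u) (gen 1 z) with hθ
    have hθm : vl θ ∈ HS (insert u C) := hgen (ES_mono hCu (Subring.mul_mem _
      (Subring.one_mem _) (dl_mem (gen_mem_HS h1)))) _ (cm_mem_HS gu gz)
    refine ⟨θ, hθm, fin θ hθm, ?_, ?_⟩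
    · intro v hvC hv
      have h4 := move_three hs hp hsp h1 h2 h3 hzj hzk hjk hu hus hup hvC hv hg
      have h5 : tm ((z, j, k), g) + θ = (1 - Te 1 n (gen 1 z)) • (cm (gen 1 u) (gen 1 z)
          + g • cm (gen 1 j) (gen 1 k)) := by
        change g • ((1 - Te 1 n (gen 1 z)) • cm (gen 1 j) (gen 1 k)) + θ = _
        rw [hθ]
        module
      rw [h5]
      exact h4
    · intro v hvC hv
      exact move_one hs hp hsp h1 hu hus hup hvC hv (Subring.one_mem _)

theorem chainM {s p : Fin n} (hsp : s ≠ p) (C0 : Set (Fin n)) :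
    ∀ (L : List ((Fin n × Fin n × Fin n) × EE 1 n)) (us : List (Fin n)) (C : Set (Fin n))
      (v : FreeAN 1 n), C0 ⊆ C → s ∉ C → p ∉ C → v ∈ HS C →
    (∀ e ∈ L, e.1.1 ∈ C0 ∧ e.1.2.1 ∈ C0 ∧ e.1.2.2 ∈ C0 ∧ e.2 ∈ ES C0) →
    us.Nodup → (∀ u ∈ us, u ∉ C ∧ u ≠ s ∧ u ≠ p) → L.length ≤ us.length →
    UMC C v → UMC C (vl (L.map tm).sum * v) → MEq v (vl (L.map tm).sum * v) := by
  intro L
  induction L with
  | nil =>
    intro us C v _ _ _ _ _ _ _ _ _ _
    rw [List.map_nil, List.sum_nil, vl_zero, one_mul]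
    exact MEq.refl v
  | cons e L ih =>
    intro us C v hC0 hs hp hv hL hnd hus hlen hu hw
    obtain ⟨e1, e2, e3, e4⟩ := hL e List.mem_cons_self
    rcases us with _ | ⟨u, us⟩
    · simp at hlen
    obtain ⟨huC, hus', hup'⟩ := hus u List.mem_cons_self
    obtain ⟨θ, hθ1, hθ2, hθ3, hθ4⟩ := step_term hs hp hsp huC hus' hup' e (hC0 e1) (hC0 e2)
      (hC0 e3) (ES_mono hC0 e4)
    set R : VV 1 n := (L.map tm).sum with hR
    have hsum : ((e :: L).map tm).sum = tm e + R := by rw [List.map_cons, List.sum_cons]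
    rw [hsum] at hw ⊢
    -- the sum lies in the subgroup
    have hRC : vl R ∈ HS C := by
      have hl : ∀ L' : List ((Fin n × Fin n × Fin n) × EE 1 n), (∀ e ∈ L', e.1.1 ∈ C0 ∧
          e.1.2.1 ∈ C0 ∧ e.1.2.2 ∈ C0 ∧ e.2 ∈ ES C0) → vl (L'.map tm).sum ∈ HS C := by
        intro L'
        induction L' with
        | nil =>
          intro _
          rw [List.map_nil, List.sum_nil, vl_zero]
          exact Subgroup.one_mem _
        | cons a L' ih' =>
          intro h
          obtain ⟨a1, a2, a3, a4⟩ := h a List.mem_cons_self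
          rw [List.map_cons, List.sum_cons, vl_add]
          refine Subgroup.mul_mem _ ?_ (ih' (fun e he => h e (List.mem_cons_of_mem _ he)))
          exact smul_mem_HS (ES_mono hC0 a4) _ (smul_mem_HS (dl_mem (gen_mem_HS (hC0 a1))) _
            (cm_mem_HS (gen_mem_HS (hC0 a2)) (gen_mem_HS (hC0 a3))))
      exact hl L (fun e he => hL e (List.mem_cons_of_mem _ he))
    have heC : vl (tm e + R) * v ∈ HS C := by
      have h5 : vl (tm e) ∈ HS C := by
        exact smul_mem_HS (ES_mono hC0 e4) _ (smul_mem_HS (dl_mem (gen_mem_HS (hC0 e1))) _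
          (cm_mem_HS (gen_mem_HS (hC0 e2)) (gen_mem_HS (hC0 e3))))
      rw [vl_add]
      exact Subgroup.mul_mem _ (Subgroup.mul_mem _ h5 hRC) hv
    obtain ⟨m1, u1⟩ := hθ3 v hv hu
    obtain ⟨m2, u2⟩ := hθ4 _ heC hw
    have hCu : C ⊆ insert u C := Set.subset_insert u C
    have key : vl θ * (vl (tm e + R) * v) = vl R * (vl (tm e + θ) * v) := by
      rw [← mul_assoc, ← mul_assoc, ← vl_add, ← vl_add]
      congr 2
      abel
    have m3 : MEq (vl (tm e + θ) * v) (vl R * (vl (tm e + θ) * v)) := by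
      apply ih us (insert u C) _ (hC0.trans hCu)
      · intro h
        rcases Set.mem_insert_iff.1 h with h | h
        · exact hus' h.symm
        · exact hs h
      · intro h
        rcases Set.mem_insert_iff.1 h with h | h
        · exact hup' h.symm
        · exact hp h
      · exact Subgroup.mul_mem _ hθ2 (HS_mono hCu hv)
      · exact fun e he => hL e (List.mem_cons_of_mem _ he)
      · exact (List.nodup_cons.1 hnd).2
      · intro u' hu'
        obtain ⟨a1, a2, a3⟩ := hus u' (List.mem_cons_of_mem _ hu')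
        refine ⟨?_, a2, a3⟩
        intro h
        rcases Set.mem_insert_iff.1 h with h | h
        · exact (List.nodup_cons.1 hnd).1 (h ▸ hu')
        · exact a1 h
      · simp only [List.length_cons] at hlen
        omega
      · exact u1
      · rw [← key]
        exact u2
    rw [← key] at m3
    exact (m1.trans m3).trans m2.symm

end MP15511a
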