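import Pool.Agent.Lib.MP_15511a_al.Two.Mod

/-!
Transvections with disjoint supports are tame.
-/

open scoped commutatorElement

namespace MP15511a

variable {n : ℕ}

/-- subgroup generated by some of the generators -/
abbrev HS (S : Set (Fin n)) : Subgroup (FreeAN 1 n) := Subgroup.closure (gen 1 '' S)

theorem HS_mono {S T : Set (Fin n)} (h : S ⊆ T) : HS S ≤ HS T :=
  Subgroup.closure_mono (Set.image_mono h)

theorem gen_mem_HS {S : Set (Fin n)} {i : Fin n} (h : i ∈ S) : gen 1 i ∈ HS S :=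
  Subgroup.subset_closure ⟨i, h, rfl⟩

/-- the ring of operators with coefficients in some of the generators -/
def ES (S : Set (Fin n)) : Subring (EE 1 n) := Subring.closure (Te 1 n '' (HS S : Set _))

theorem Te_mem_ES {S : Set (Fin n)} {g : FreeAN 1 n} (h : g ∈ HS S) : Te 1 n g ∈ ES S :=
  Subring.subset_closure ⟨g, h, rfl⟩

theorem ES_mono {S T : Set (Fin n)} (h : S ⊆ T) : ES S ≤ ES T :=
  Subring.closure_mono (Set.image_mono (HS_mono h))

theorem ES_ind {S : Set (Fin n)} {P : EE 1 n → Prop} (hT : ∀ g ∈ HS S, P (Te 1 n g))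
    (h0 : P 0) (ha : ∀ a b, P a → P b → P (a + b)) (hn : ∀ a, P a → P (-a)) {e : EE 1 n}
    (he : e ∈ ES S) : P e := by
  rw [ES, Subring.mem_closure_iff] at he
  have h1 : (Submonoid.closure (Te 1 n '' (HS S : Set _)) : Submonoid (EE 1 n))
      = (HS S).toSubmonoid.map (Te 1 n) := by
    have h2 : (Te 1 n '' (HS S : Set _)) = (((HS S).toSubmonoid.map (Te 1 n) : Submonoid _)
      : Set (EE 1 n)) := rfl
    rw [h2, Submonoid.closure_eq]
  rw [h1] at he
  induction he using AddSubgroup.closure_induction with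
  | mem x hx =>
    obtain ⟨g, hg, rfl⟩ := hx
    exact hT g hg
  | zero => exact h0
  | add x y _ _ hx hy => exact ha x y hx hy
  | neg x _ hx => exact hn x hx

/-- crossed homomorphisms vanish on subgroups generated by generators on which they vanish -/
theorem Dc_zero {b : Fin n → EE 1 n} {S : Set (Fin n)} (hb : ∀ k ∈ S, b k = 0)
    {g : FreeAN 1 n} (hg : g ∈ HS S) : Dc b g = 0 := by
  have h0 : Crossed (fun _ : FreeAN 1 n => (0 : EE 1 n)) := by
    intro g h
    rw [mul_zero, add_zero]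
  refine (Dc_crossed b).eqOn h0 (gen 1 '' S) ?_ g hg
  rintro _ ⟨k, hk, rfl⟩
  rw [Dc_gen]
  exact hb k hk

theorem alpha_comp_add {c : ℕ} {f f' : FreeAN c n → EE c n} (hf : Crossed f) (hf' : Crossed f')
    (hff : Crossed (fun g => f g + f' g)) (σ : VV c n) (h0 : f (vl σ) = 0) :
    (alpha f hf σ).comp (alpha f' hf' σ) = alpha (fun g => f g + f' g) hff σ := by
  refine MonoidHom.ext fun g => ?_
  rw [MonoidHom.comp_apply, alpha_app f' hf', map_mul, alpha_vl, hf.smul, h0, mul_zero, zero_smul,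
    add_zero, alpha_app, alpha_app, add_smul, vl_add, ← mul_assoc, ← vl_add, ← vl_add, add_comm]

theorem alpha_comp_vec {c : ℕ} {f : FreeAN c n → EE c n} (hf : Crossed f) (σ σ' : VV c n)
    (h0 : f (vl σ') = 0) :
    (alpha f hf σ).comp (alpha f hf σ') = alpha f hf (σ + σ') := by
  refine MonoidHom.ext fun g => ?_
  rw [MonoidHom.comp_apply, alpha_app f hf σ', map_mul, alpha_vl, hf.smul, h0, mul_zero, zero_smul,
    add_zero, alpha_app, alpha_app, smul_add, ← mul_assoc, ← vl_add, add_comm]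

theorem alpha_congr {c : ℕ} {f f' : FreeAN c n → EE c n} (hf : Crossed f) (hf' : Crossed f')
    (σ : VV c n) (h : f = f') : alpha f hf σ = alpha f' hf' σ := by
  subst h; rfl

theorem Dc_add (b b' : Fin n → EE 1 n) :
    (fun g : FreeAN 1 n => Dc b g + Dc b' g) = Dc (b + b') := by
  funext g
  have h1 : g ∈ Subgroup.closure (Set.range (gen 1)) := by rw [closure_gen]; exact Subgroup.mem_top g
  refine ((Dc_crossed b).add (Dc_crossed b')).eqOn (Dc_crossed (b + b')) _ ?_ g h1
  rintro _ ⟨k, rfl⟩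
  rw [Dc_gen, Dc_gen, Dc_gen]
  rfl

theorem Dc_mul (b : Fin n → EE 1 n) (e : EE 1 n) :
    (fun g : FreeAN 1 n => Dc b g * e) = Dc (fun k => b k * e) := by
  funext g
  have h1 : g ∈ Subgroup.closure (Set.range (gen 1)) := by rw [closure_gen]; exact Subgroup.mem_top g
  refine ((Dc_crossed b).mul_right e).eqOn (Dc_crossed _) _ ?_ g h1
  rintro _ ⟨k, rfl⟩
  rw [Dc_gen, Dc_gen]

/-- transvections with additive coefficients -/
theorem tv_add (b b' : Fin n → EE 1 n) (σ : VV 1 n) (h0 : Dc b (vl σ) = 0) :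
    (alpha (Dc b) (Dc_crossed b) σ).comp (alpha (Dc b') (Dc_crossed b') σ)
      = alpha (Dc (b + b')) (Dc_crossed _) σ := by
  rw [alpha_comp_add (Dc_crossed b) (Dc_crossed b') ((Dc_crossed b).add (Dc_crossed b')) σ h0]
  exact alpha_congr _ _ σ (Dc_add b b')

theorem tv_smul (b : Fin n → EE 1 n) (e : EE 1 n) (σ : VV 1 n) :
    alpha (Dc b) (Dc_crossed b) (e • σ) = alpha (Dc (fun k => b k * e)) (Dc_crossed _) σ := by
  refine MonoidHom.ext fun g => ?_
  rw [alpha_app, alpha_app, smul_smul, ← Dc_mul]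

theorem tv_zero (σ : VV 1 n) : alpha (Dc (0 : Fin n → EE 1 n)) (Dc_crossed _) σ
    = MonoidHom.id _ := by
  refine MonoidHom.ext fun g => ?_
  have h1 : g ∈ HS (Set.univ : Set (Fin n)) := by
    rw [HS, Set.image_univ, closure_gen]; exact Subgroup.mem_top g
  rw [alpha_app, Dc_zero (b := 0) (S := Set.univ) (fun _ _ => rfl) h1, zero_smul, vl_zero,
    one_mul]
  rfl

theorem tv_neg (b : Fin n → EE 1 n) (σ : VV 1 n) (h0 : Dc b (vl σ) = 0)
    (ht : IsTame (alpha (Dc b) (Dc_crossed b) σ)) :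
    IsTame (alpha (Dc (-b)) (Dc_crossed _) σ) := by
  apply ht.cancel_left
  rw [tv_add b (-b) σ h0, add_neg_cancel, tv_zero]
  exact isTame_id

/-- the two-variable trick -/
theorem tame_pq (k s : Fin n) (hks : k ≠ s) (g : FreeAN 1 n) (hg : g ∈ HS {j | j ≠ s})
    (σ : VV 1 n) (hσ : vl σ ∈ HS {j | j ≠ k ∧ j ≠ s}) :
    IsTame (alpha (Dc (Pi.single k ((1 - Te 1 n (gen 1 k)) * Te 1 n g))) (Dc_crossed _) σ) := by
  classical
  set e : EE 1 n := (1 - Te 1 n (gen 1 k)) * Te 1 n g with he
  set h : FreeAN 1 n := vl (Te 1 n g • σ) with hh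
  have hσk : vl σ ∈ HS {j | j ≠ k} := HS_mono (fun j hj => hj.1) hσ
  have hσs : vl σ ∈ HS {j | j ≠ s} := HS_mono (fun j hj => hj.2) hσ
  have hhs : h ∈ HS {j | j ≠ s} := by
    rw [hh, vl_smul_Te]
    exact Subgroup.mul_mem _ (Subgroup.mul_mem _ hg hσs) (Subgroup.inv_mem _ hg)
  have h0 : Dc (Pi.single k e) (vl σ) = 0 := by
    apply Dc_zero _ hσk
    intro j hj
    exact Pi.single_eq_of_ne hj _
  set β := alpha (Dc (Pi.single k e)) (Dc_crossed _) σ with hβ
  -- P and Q
  set P : FreeAN 1 n →* FreeAN 1 n := liftAN (inAN_free 1 n)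
    (fun j => if j = k then gen 1 s * gen 1 k * (gen 1 s)⁻¹ else gen 1 j) with hP
  set Q : FreeAN 1 n →* FreeAN 1 n := liftAN (inAN_free 1 n)
    (fun j => if j = s then 1 * gen 1 s * h else gen 1 j) with hQ
  have Pk : P (gen 1 k) = gen 1 s * gen 1 k * (gen 1 s)⁻¹ := by
    rw [hP, liftAN_gen, if_pos rfl]
  have Pj : ∀ j, j ≠ k → P (gen 1 j) = gen 1 j := by
    intro j hj
    rw [hP, liftAN_gen, if_neg hj]
  have Qs : Q (gen 1 s) = 1 * gen 1 s * h := by
    rw [hQ, liftAN_gen, if_pos rfl]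
  have Qj : ∀ j, j ≠ s → Q (gen 1 j) = gen 1 j := by
    intro j hj
    rw [hQ, liftAN_gen, if_neg hj]
  have tP : IsTame P := tame_tr k P (gen 1 s) (gen 1 s)⁻¹ (gen_mem_HS hks.symm)
    (Subgroup.inv_mem _ (gen_mem_HS hks.symm)) Pj Pk
  have tQ : IsTame Q := tame_tr s Q 1 h (Subgroup.one_mem _) hhs Qj Qs
  have Pσ : P (vl σ) = vl σ := by
    have h1 : ∀ x ∈ HS {j : Fin n | j ≠ k}, P x = x := by
      intro x hx
      induction hx using Subgroup.closure_induction with
      | mem x hx =>
        obtain ⟨j, hj, rfl⟩ := hx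
        exact Pj j hj
      | one => exact map_one _
      | mul x y _ _ hx hy => rw [map_mul, hx, hy]
      | inv x _ hx => rw [map_inv, hx]
    exact h1 _ hσk
  have Pg : Te 1 n (P g) = Te 1 n g := by
    apply Te_eq_of_triv
    intro i
    by_cases hi : i = k
    · subst hi
      rw [Pk]
      exact comm_mem_one _ _
    · rw [Pj i hi, mul_inv_cancel]
      exact Subgroup.one_mem _
  have Ph : P h = h := by
    have h1 : P h = vl (Te 1 n (P g) • σ) := by
      rw [hh, vl_smul_Te, vl_smul_Te, map_mul, map_mul, map_inv, Pσ]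
    rw [h1, Pg]
  have βh : β h = h := by
    rw [hh, hβ, alpha_vl, (Dc_crossed _).smul, h0, mul_zero, zero_smul, add_zero]
  have βk : β (gen 1 k) = h * gen 1 k * h⁻¹ := by
    rw [hβ, alpha_app, Dc_gen, Pi.single_eq_same, he, mul_smul, sub_smul, one_smul, vl_sub,
      vl_smul_Te (gen 1 k), ← hh]
    group
  have βj : ∀ j, j ≠ k → β (gen 1 j) = gen 1 j := by
    intro j hj
    rw [hβ, alpha_app, Dc_gen, Pi.single_eq_of_ne hj, zero_smul, vl_zero, one_mul]
  have key : (β.comp P).comp Q = Q.comp P := by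
    apply hom_ext
    intro j
    rw [MonoidHom.comp_apply, MonoidHom.comp_apply, MonoidHom.comp_apply]
    by_cases hjs : j = s
    · subst hjs
      rw [Qs, map_mul, map_mul, map_mul, map_mul, Pj j hks.symm, βj j hks.symm, Ph, βh, Qs,
        map_one, map_one]
    · by_cases hjk : j = k
      · subst hjk
        rw [Qj j hjs, Pk, map_mul, map_mul, map_inv, βj s (Ne.symm hks), βk, map_mul, map_mul, map_inv,
          Qs, Qj j hjs]
        group
      · rw [Qj j hjs, Pj j hjk, βj j hjk, Qj j hjs]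
  have t1 : IsTame ((β.comp P).comp Q) := by rw [key]; exact tQ.comp tP
  exact tP.cancel_right (tQ.cancel_right t1)

theorem tame_single (k s : Fin n) (hks : k ≠ s) (σ : VV 1 n)
    (hσ : vl σ ∈ HS {j | j ≠ k ∧ j ≠ s}) {e : EE 1 n} (he : e ∈ ES {j | j ≠ s}) :
    IsTame (alpha (Dc (Pi.single k e)) (Dc_crossed _) σ) := by
  classical
  have h00 : ∀ (e : EE 1 n) (σ : VV 1 n), vl σ ∈ HS {j | j ≠ k ∧ j ≠ s} →
      Dc (Pi.single k e) (vl σ) = 0 := by
    intro e σ hσ
    apply Dc_zero _ (HS_mono (fun j hj => hj.1) hσ : vl σ ∈ HS {j | j ≠ k})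
    intro j hj
    exact Pi.single_eq_of_ne hj _
  -- monomials
  have base : ∀ σ : VV 1 n, vl σ ∈ HS {j | j ≠ k ∧ j ≠ s} →
      IsTame (alpha (Dc (Pi.single k (1 : EE 1 n))) (Dc_crossed _) σ) := by
    intro σ hσ
    refine tame_tr k _ (vl σ) 1 (HS_mono (fun j hj => hj.1) hσ) (Subgroup.one_mem _) ?_ ?_
    · intro j hj
      rw [alpha_app, Dc_gen, Pi.single_eq_of_ne hj, zero_smul, vl_zero, one_mul]
    · rw [alpha_app, Dc_gen, Pi.single_eq_same, one_smul, mul_one]
  have step : ∀ g ∈ HS {j : Fin n | j ≠ s}, ∀ g0 ∈ HS {j : Fin n | j ≠ s},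
      ((∀ σ : VV 1 n, vl σ ∈ HS {j | j ≠ k ∧ j ≠ s} →
        IsTame (alpha (Dc (Pi.single k (Te 1 n g0))) (Dc_crossed _) σ)) ↔
      (∀ σ : VV 1 n, vl σ ∈ HS {j | j ≠ k ∧ j ≠ s} →
        IsTame (alpha (Dc (Pi.single k (Te 1 n (g0 * g)))) (Dc_crossed _) σ))) := by
    intro g hg
    induction hg using Subgroup.closure_induction with
    | mem x hx =>
      obtain ⟨l, hl, rfl⟩ := hx
      intro g0 hg0
      by_cases hlk : l = k
      · subst hlk
        have e1 : ∀ σ : VV 1 n, vl σ ∈ HS {j | j ≠ l ∧ j ≠ s} →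
            (alpha (Dc (Pi.single l ((1 - Te 1 n (gen 1 l)) * Te 1 n g0))) (Dc_crossed _) σ).comp
              (alpha (Dc (Pi.single l (Te 1 n (g0 * gen 1 l)))) (Dc_crossed _) σ)
            = alpha (Dc (Pi.single l (Te 1 n g0))) (Dc_crossed _) σ := by
          intro σ hσ
          rw [tv_add _ _ σ (h00 _ σ hσ)]
          apply alpha_congr
          congr 1
          rw [← Pi.single_add]
          congr 1
          rw [map_mul]
          ring
        constructor
        · intro h σ hσ
          have h1 := h σ hσ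
          rw [← e1 σ hσ] at h1
          exact (tame_pq l s hl g0 hg0 σ hσ).cancel_left h1
        · intro h σ hσ
          rw [← e1 σ hσ]
          exact (tame_pq l s hl g0 hg0 σ hσ).comp (h σ hσ)
      · have hlm : gen 1 l ∈ HS {j : Fin n | j ≠ k ∧ j ≠ s} := gen_mem_HS ⟨hlk, hl⟩
        have e1 : ∀ σ : VV 1 n, alpha (Dc (Pi.single k (Te 1 n g0))) (Dc_crossed _)
            (Te 1 n (gen 1 l) • σ)
            = alpha (Dc (Pi.single k (Te 1 n (g0 * gen 1 l)))) (Dc_crossed _) σ := by
          intro σ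
          rw [tv_smul]
          apply alpha_congr
          congr 1
          funext j
          by_cases hj : j = k
          · subst hj
            rw [Pi.single_eq_same, Pi.single_eq_same, map_mul]
          · rw [Pi.single_eq_of_ne hj, Pi.single_eq_of_ne hj, zero_mul]
        constructor
        · intro h σ hσ
          rw [← e1 σ]
          apply h
          rw [vl_smul_Te]
          exact Subgroup.mul_mem _ (Subgroup.mul_mem _ hlm hσ) (Subgroup.inv_mem _ hlm)
        · intro h σ hσ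
          have h1 := h (Te 1 n (gen 1 l)⁻¹ • σ) (by
            rw [vl_smul_Te]
            exact Subgroup.mul_mem _ (Subgroup.mul_mem _ (Subgroup.inv_mem _ hlm) hσ)
              (Subgroup.inv_mem _ (Subgroup.inv_mem _ hlm)))
          rw [← e1, smul_smul, ← map_mul, mul_inv_cancel, map_one, one_smul] at h1
          exact h1
    | one =>
      intro g0 _
      rw [mul_one]
    | mul x y hx _ ihx ihy =>
      intro g0 hg0
      rw [← mul_assoc]
      exact (ihx g0 hg0).trans (ihy (g0 * x) (Subgroup.mul_mem _ hg0 hx))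
    | inv x hx ihx =>
      intro g0 hg0
      have h1 := ihx (g0 * x⁻¹) (Subgroup.mul_mem _ hg0 (Subgroup.inv_mem _ hx))
      rw [inv_mul_cancel_right] at h1
      exact h1.symm
  have mono : ∀ g ∈ HS {j : Fin n | j ≠ s},
      IsTame (alpha (Dc (Pi.single k (Te 1 n g))) (Dc_crossed _) σ) := by
    intro g hg
    have h1 := (step g hg 1 (Subgroup.one_mem _)).1 (by
      intro σ hσ
      have h2 := base σ hσ
      rw [map_one]
      exact h2) σ hσ
    rwa [one_mul] at h1
  refine ES_ind (P := fun e => IsTame (alpha (Dc (Pi.single k e)) (Dc_crossed _) σ)) mono ?_ ?_ ?_ he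
  · change IsTame (alpha (Dc (Pi.single k (0 : EE 1 n))) (Dc_crossed _) σ)
    have h1 : alpha (Dc (Pi.single k (0 : EE 1 n))) (Dc_crossed _) σ = MonoidHom.id _ := by
      rw [← tv_zero σ]
      apply alpha_congr
      congr 1
      exact Pi.single_zero k
    rw [h1]
    exact isTame_id
  · intro a b ha hb
    change IsTame (alpha (Dc (Pi.single k (a + b))) (Dc_crossed _) σ)
    have h1 : (alpha (Dc (Pi.single k a)) (Dc_crossed _) σ).comp
        (alpha (Dc (Pi.single k b)) (Dc_crossed _) σ)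
        = alpha (Dc (Pi.single k (a + b))) (Dc_crossed _) σ := by
      rw [tv_add _ _ σ (h00 a σ hσ)]
      apply alpha_congr
      congr 1
      exact (Pi.single_add (f := fun _ => EE 1 n) k a b).symm
    rw [← h1]
    exact ha.comp hb
  · intro a ha
    change IsTame (alpha (Dc (Pi.single k (-a))) (Dc_crossed _) σ)
    have h1 := tv_neg (Pi.single k a) σ (h00 a σ hσ) ha
    have h2 : alpha (Dc (-(Pi.single k a))) (Dc_crossed _) σ
        = alpha (Dc (Pi.single k (-a))) (Dc_crossed _) σ := by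
      apply alpha_congr
      congr 1
      exact (Pi.single_neg (f := fun _ => EE 1 n) k a).symm
    rwa [h2] at h1

/-- transvections with disjoint supports are tame -/
theorem tame_dis (J : Set (Fin n)) (σ : VV 1 n) (hσ : vl σ ∈ HS J) (b : Fin n → EE 1 n)
    (hb : ∀ k ∈ J, b k = 0)
    (hs : ∀ k, k ∉ J → ∃ s, s ∉ J ∧ k ≠ s ∧ b k ∈ ES {j | j ≠ s}) :
    IsTame (alpha (Dc b) (Dc_crossed _) σ) := by
  classical
  have key : ∀ T : Finset (Fin n), (∀ k ∈ T, k ∉ J) →
      IsTame (alpha (Dc (∑ k ∈ T, Pi.single k (b k))) (Dc_crossed _) σ) := by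
    intro T
    induction T using Finset.induction_on with
    | empty =>
      intro _
      have h1 : alpha (Dc (∑ k ∈ (∅ : Finset (Fin n)), Pi.single k (b k))) (Dc_crossed _) σ
          = MonoidHom.id _ := by
        rw [← tv_zero σ]
        apply alpha_congr
        congr 1
      rw [h1]
      exact isTame_id
    | insert a T ha ih =>
      intro hT
      have haJ : a ∉ J := hT a (Finset.mem_insert_self _ _)
      have h1 : (alpha (Dc (Pi.single a (b a))) (Dc_crossed _) σ).comp
          (alpha (Dc (∑ k ∈ T, Pi.single k (b k))) (Dc_crossed _) σ)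
          = alpha (Dc (∑ k ∈ insert a T, Pi.single k (b k))) (Dc_crossed _) σ := by
        rw [tv_add]
        · apply alpha_congr
          congr 1
          rw [Finset.sum_insert ha]
        · apply Dc_zero _ hσ
          intro j hj
          exact Pi.single_eq_of_ne (fun h : j = a => haJ (h ▸ hj)) _
      rw [← h1]
      obtain ⟨s, hsJ, hks, hbs⟩ := hs a haJ
      refine (tame_single a s hks σ (HS_mono ?_ hσ) hbs).comp
        (ih (fun k hk => hT k (Finset.mem_insert_of_mem hk)))
      intro j hj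
      exact ⟨fun h => haJ (h ▸ hj), fun h => hsJ (h ▸ hj)⟩
  have h1 : alpha (Dc (∑ k ∈ Finset.univ.filter (fun k => k ∉ J), Pi.single k (b k)))
      (Dc_crossed _) σ = alpha (Dc b) (Dc_crossed _) σ := by
    apply alpha_congr
    congr 1
    funext j
    rw [Finset.sum_apply]
    by_cases hj : j ∈ J
    · rw [hb j hj]
      apply Finset.sum_eq_zero
      intro k hk
      have hkJ := (Finset.mem_filter.1 hk).2
      exact Pi.single_eq_of_ne (fun h : j = k => hkJ (h ▸ hj)) _
    · rw [Finset.sum_eq_single j]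
      · exact Pi.single_eq_same _ _
      · intro k _ hk
        exact Pi.single_eq_of_ne hk.symm _
      · intro h
        exact absurd (Finset.mem_filter.2 ⟨Finset.mem_univ j, hj⟩) h
  rw [← h1]
  exact key _ (fun k hk => (Finset.mem_filter.1 hk).2)

end MP15511a
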