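import Pool.Agent.Lib.MP_15511a_al.Two.Mod

/-!
Automorphisms of free groups and the lower central series.
-/

open scoped commutatorElement

namespace MP15511a

section general

variable {G : Type*} [Group G]

/-- the lower central series -/
abbrev gm (G : Type*) [Group G] (k : ℕ) : Subgroup G := (⊤ : Subgroup G).lowerCentralSeries k

theorem comm_gm {k : ℕ} {a : G} (ha : a ∈ gm G k) (b : G) : ⁅a, b⁆ ∈ gm G (k + 1) :=
  Subgroup.commutator_mem_commutator ha (Subgroup.mem_top b)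

theorem comm_gm' {k : ℕ} {a : G} (ha : a ∈ gm G k) (b : G) : ⁅b, a⁆ ∈ gm G (k + 1) := by
  have h := Subgroup.inv_mem _ (comm_gm ha b)
  rwa [commutatorElement_inv] at h

/-- the set of elements b with `⁅a, b⁆ ∈ U` is a subgroup if U is normal -/
theorem comm_closure_right (U : Subgroup G) [hU : U.Normal] (a : G) (S : Set G)
    (h : ∀ b ∈ S, ⁅a, b⁆ ∈ U) : ∀ b ∈ Subgroup.closure S, ⁅a, b⁆ ∈ U := by
  intro b hb
  induction hb using Subgroup.closure_induction with
  | mem x hx => exact h x hx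
  | one => rw [commutatorElement_one_right]; exact U.one_mem
  | mul x y _ _ hx hy =>
    have h2 : ⁅a, x * y⁆ = ⁅a, x⁆ * (x * ⁅a, y⁆ * x⁻¹) := by
      simp only [commutatorElement_def]; group
    rw [h2]
    exact U.mul_mem hx (hU.conj_mem _ hy x)
  | inv x _ hx =>
    have h2 : ⁅a, x⁻¹⁆ = x⁻¹ * (⁅a, x⁆)⁻¹ * (x⁻¹)⁻¹ := by
      simp only [commutatorElement_def]; group
    rw [h2]
    exact hU.conj_mem _ (U.inv_mem hx) _

theorem comm_closure_left (U : Subgroup G) [hU : U.Normal] (b : G) (S : Set G)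
    (h : ∀ a ∈ S, ⁅a, b⁆ ∈ U) : ∀ a ∈ Subgroup.closure S, ⁅a, b⁆ ∈ U := by
  intro a ha
  have h1 : ∀ a ∈ S, ⁅b, a⁆ ∈ U := by
    intro a ha
    have h2 := U.inv_mem (h a ha)
    rwa [commutatorElement_inv] at h2
  have h3 := U.inv_mem (comm_closure_right U b S h1 a ha)
  rwa [commutatorElement_inv] at h3

/-- elements of `γ_{k+2}` are central modulo `γ_{k+3}` -/
theorem normal_of_between (U : Subgroup G) {k : ℕ} (h1 : gm G (k + 1) ≤ U) (h2 : U ≤ gm G k) :
    U.Normal := by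
  refine ⟨fun a ha g => ?_⟩
  have h3 : g * a * g⁻¹ = ⁅g, a⁆ * a := by rw [commutatorElement_def]; group
  rw [h3]
  exact U.mul_mem (h1 (comm_gm' (h2 ha) g)) ha

theorem comm_gm_one {k : ℕ} {a b : G} (ha : a ∈ gm G k) (hb : b ∈ gm G 1) :
    ⁅a, b⁆ ∈ gm G (k + 2) := by
  -- `b ↦ ⁅a, b⁆` is a homomorphism to a central subgroup of the quotient
  set U := gm G (k + 2) with hU
  have hcent : ∀ (y : G), y ∈ gm G (k + 1) → ∀ z : G ⧸ U,
      z * (QuotientGroup.mk y : G ⧸ U) = (QuotientGroup.mk y : G ⧸ U) * z := by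
    intro y hy z
    obtain ⟨z, rfl⟩ := QuotientGroup.mk_surjective z
    have h1 : (QuotientGroup.mk (⁅z, y⁆) : G ⧸ U) = 1 :=
      (QuotientGroup.eq_one_iff _).2 (comm_gm' hy z)
    have h2 : ⁅(QuotientGroup.mk z : G ⧸ U), (QuotientGroup.mk y : G ⧸ U)⁆ = 1 := h1
    exact commutatorElement_eq_one_iff_mul_comm.1 h2
  let ψ : G →* G ⧸ U :=
    { toFun := fun b => QuotientGroup.mk ⁅a, b⁆
      map_one' := by rw [commutatorElement_one_right]; rfl
      map_mul' := by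
        intro x y
        have h2 : ⁅a, x * y⁆ = ⁅a, x⁆ * (x * ⁅a, y⁆ * x⁻¹) := by
          simp only [commutatorElement_def]; group
        rw [h2]
        have h3 := hcent ⁅a, y⁆ (comm_gm ha y) (QuotientGroup.mk x)
        change (QuotientGroup.mk ⁅a, x⁆ : G ⧸ U) * ((QuotientGroup.mk x : G ⧸ U)
          * (QuotientGroup.mk ⁅a, y⁆ : G ⧸ U) * (QuotientGroup.mk x : G ⧸ U)⁻¹) = _
        rw [h3, mul_inv_cancel_right] }
  have h1 : ∀ b ∈ gm G 1, ψ b = 1 := by
    intro b hb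
    rw [gm, Subgroup.lowerCentralSeries_succ, Subgroup.commutator_def] at hb
    induction hb using Subgroup.closure_induction with
    | mem x hx =>
      obtain ⟨p, _, q, _, rfl⟩ := hx
      rw [map_commutatorElement, commutatorElement_eq_one_iff_mul_comm]
      exact hcent ⁅a, q⁆ (comm_gm ha q) (ψ p)
    | one => exact map_one _
    | mul x y _ _ hx hy => rw [map_mul, hx, hy, mul_one]
    | inv x _ hx => rw [map_inv, hx, inv_one]
  exact (QuotientGroup.eq_one_iff _).1 (h1 b hb)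

/-- trivial on the abelianisation -/
def IA (Φ : G →* G) : Prop := ∀ g, Φ g * g⁻¹ ∈ gm G 1

theorem IA.gm {Φ : G →* G} (h : IA Φ) (k : ℕ) : ∀ a ∈ gm G k, Φ a * a⁻¹ ∈ gm G (k + 1) := by
  induction k with
  | zero => intro a _; exact h a
  | succ k ih =>
    intro a ha
    rw [MP15511a.gm, Subgroup.lowerCentralSeries_succ, Subgroup.commutator_def] at ha
    have hN : (MP15511a.gm G (k + 1 + 1)).Normal := inferInstance
    induction ha using Subgroup.closure_induction with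
    | mem x hx =>
      obtain ⟨g, hg, y, _, rfl⟩ := hx
      set U := MP15511a.gm G (k + 1 + 1) with hU
      set g1 := Φ g * g⁻¹ with hg1
      set y1 := Φ y * y⁻¹ with hy1
      have e1 : Φ g = g1 * g := by rw [hg1]; group
      have e2 : Φ y = y1 * y := by rw [hy1]; group
      have m1 : g1 ∈ MP15511a.gm G (k + 1) := ih g hg
      have m2 : y1 ∈ MP15511a.gm G 1 := h y
      have hgy : ⁅g, y⁆ ∈ MP15511a.gm G (k + 1) := comm_gm hg y
      have e3 : Φ ⁅g, y⁆ * ⁅g, y⁆⁻¹ = (⁅g1, ⁅g, y1 * y⁆⁆ * (⁅g, y1⁆ * ⁅y1, ⁅g, y⁆⁆)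
          * (⁅g, y⁆ * ⁅g1, y1 * y⁆ * ⁅g, y⁆⁻¹)) := by
        rw [map_commutatorElement, e1, e2]
        simp only [commutatorElement_def]
        group
      rw [e3]
      refine U.mul_mem (U.mul_mem (comm_gm m1 _) (U.mul_mem (comm_gm_one hg m2)
        (comm_gm' hgy _))) (hN.conj_mem _ (comm_gm m1 _) _)
    | one => rw [map_one, inv_one, mul_one]; exact Subgroup.one_mem _
    | mul x y _ _ hx hy =>
      have e1 : Φ (x * y) * (x * y)⁻¹ = (Φ x * (Φ y * y⁻¹) * (Φ x)⁻¹) * (Φ x * x⁻¹) := by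
        rw [map_mul]; group
      rw [e1]
      exact Subgroup.mul_mem _ (hN.conj_mem _ hy _) hx
    | inv x _ hx =>
      have e1 : Φ x⁻¹ * x⁻¹⁻¹ = (Φ x)⁻¹ * (Φ x * x⁻¹)⁻¹ * ((Φ x)⁻¹)⁻¹ := by
        rw [map_inv]; group
      rw [e1]
      exact hN.conj_mem _ (Subgroup.inv_mem _ hx) _

end general

section autos

variable {n : ℕ}

/-- subgroups generated by some of the generators -/
abbrev FB (S : Set (Fin n)) : Subgroup (FreeGroup (Fin n)) := Subgroup.closure (FreeGroup.of '' S)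

theorem FB_mono {S T : Set (Fin n)} (h : S ⊆ T) : FB S ≤ FB T :=
  Subgroup.closure_mono (Set.image_mono h)

theorem of_mem_FB {S : Set (Fin n)} {i : Fin n} (h : i ∈ S) : FreeGroup.of i ∈ FB S :=
  Subgroup.subset_closure ⟨i, h, rfl⟩

theorem fix_FB (φ : FreeGroup (Fin n) →* FreeGroup (Fin n)) {S : Set (Fin n)}
    (h : ∀ j ∈ S, φ (FreeGroup.of j) = FreeGroup.of j) {g : FreeGroup (Fin n)} (hg : g ∈ FB S) :
    φ g = g := by
  induction hg using Subgroup.closure_induction with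
  | mem x hx =>
    obtain ⟨j, hj, rfl⟩ := hx
    exact h j hj
  | one => exact map_one _
  | mul x y _ _ hx hy => rw [map_mul, hx, hy]
  | inv x _ hx => rw [map_inv, hx]

/-- `x_j ↦ x_j a_j` -/
def mulHom (a : Fin n → FreeGroup (Fin n)) : FreeGroup (Fin n) →* FreeGroup (Fin n) :=
  FreeGroup.lift (fun j => FreeGroup.of j * a j)

theorem mulHom_of (a : Fin n → FreeGroup (Fin n)) (j : Fin n) :
    mulHom a (FreeGroup.of j) = FreeGroup.of j * a j := by simp [mulHom]

theorem mulHom_inv (a b : Fin n → FreeGroup (Fin n)) (R : Set (Fin n)) (h1 : ∀ j ∈ R, a j = 1)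
    (h2 : ∀ j, b j ∈ FB R) (hab : ∀ j, a j * b j = 1) (g : FreeGroup (Fin n)) :
    mulHom a (mulHom b g) = g := by
  have h : (mulHom a).comp (mulHom b) = MonoidHom.id _ := by
    apply FreeGroup.ext_hom
    intro j
    rw [MonoidHom.comp_apply, mulHom_of, map_mul, mulHom_of, fix_FB (mulHom a) (S := R) _ (h2 j),
      mul_assoc, hab, mul_one]
    · rfl
    · intro i hi
      rw [mulHom_of, h1 i hi, mul_one]
  exact DFunLike.congr_fun h g

/-- the automorphism `x_j ↦ x_j a_j` -/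
def mulAut (a : Fin n → FreeGroup (Fin n)) (R : Set (Fin n)) (h1 : ∀ j ∈ R, a j = 1)
    (h2 : ∀ j, a j ∈ FB R) : FreeGroup (Fin n) ≃* FreeGroup (Fin n) where
  toFun := mulHom a
  invFun := mulHom (fun j => (a j)⁻¹)
  left_inv := mulHom_inv _ _ R (fun j hj => by rw [h1 j hj, inv_one]) h2
    (fun j => inv_mul_cancel _)
  right_inv := mulHom_inv _ _ R h1 (fun j => Subgroup.inv_mem _ (h2 j))
    (fun j => mul_inv_cancel _)
  map_mul' := map_mul _

theorem mulAut_of (a : Fin n → FreeGroup (Fin n)) (R : Set (Fin n)) (h1 : ∀ j ∈ R, a j = 1)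
    (h2 : ∀ j, a j ∈ FB R) (j : Fin n) :
    mulAut a R h1 h2 (FreeGroup.of j) = FreeGroup.of j * a j := mulHom_of a j

theorem aut_fix (Φ : FreeGroup (Fin n) ≃* FreeGroup (Fin n)) {S : Set (Fin n)}
    (h : ∀ j ∈ S, Φ (FreeGroup.of j) = FreeGroup.of j) {g : FreeGroup (Fin n)} (hg : g ∈ FB S) :
    Φ g = g := fix_FB Φ.toMonoidHom h hg

/-- trivial on the abelianisation -/
def IAu (Φ : FreeGroup (Fin n) ≃* FreeGroup (Fin n)) : Prop :=
  ∀ g, Φ g * g⁻¹ ∈ gm (FreeGroup (Fin n)) 1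

theorem IAu.trans {Φ Ψ : FreeGroup (Fin n) ≃* FreeGroup (Fin n)} (h : IAu Φ) (h' : IAu Ψ) :
    IAu (Φ.trans Ψ) := by
  intro g
  have e : Ψ (Φ g) * g⁻¹ = (Ψ (Φ g) * (Φ g)⁻¹) * (Φ g * g⁻¹) := by group
  change Ψ (Φ g) * g⁻¹ ∈ _
  rw [e]
  exact Subgroup.mul_mem _ (h' _) (h g)

theorem IAu.symm {Φ : FreeGroup (Fin n) ≃* FreeGroup (Fin n)} (h : IAu Φ) : IAu Φ.symm := by
  intro g
  have h1 := Subgroup.inv_mem _ (h (Φ.symm g))
  rw [Φ.apply_symm_apply, mul_inv_rev, inv_inv] at h1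
  exact h1

theorem IAu.conj {Φ : FreeGroup (Fin n) ≃* FreeGroup (Fin n)} (h : IAu Φ)
    (Θ : FreeGroup (Fin n) ≃* FreeGroup (Fin n)) : IAu ((Θ.symm.trans Φ).trans Θ) := by
  intro g
  have h1 := lcs_map Θ.toMonoidHom 1 (h (Θ.symm g))
  change Θ (Φ (Θ.symm g) * (Θ.symm g)⁻¹) ∈ _ at h1
  rw [map_mul, map_inv, Θ.apply_symm_apply] at h1
  exact h1

theorem iau_trAut (t : Fin n) (u v : FreeGroup (Fin n)) (hu : u ∈ FB {j : Fin n | j ≠ t})
    (hv : v ∈ FB {j : Fin n | j ≠ t}) (h : u ∈ gm (FreeGroup (Fin n)) 1) (h' : v = 1) :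
    IAu (trAut t u v hu hv) := by
  intro g
  have hN : (gm (FreeGroup (Fin n)) 1).Normal := inferInstance
  have h0 : g ∈ Subgroup.closure (Set.range (FreeGroup.of : Fin n → FreeGroup (Fin n))) := by
    rw [FreeGroup.closure_range_of]; exact Subgroup.mem_top g
  change trHom t u v g * g⁻¹ ∈ _
  induction h0 using Subgroup.closure_induction with
  | mem x hx =>
    obtain ⟨j, rfl⟩ := hx
    by_cases hj : j = t
    · subst hj
      rw [trHom_self, h', mul_one, mul_inv_cancel_right]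
      exact h
    · rw [trHom_of _ _ _ hj, mul_inv_cancel]
      exact Subgroup.one_mem _
  | one => rw [map_one, inv_one, mul_one]; exact Subgroup.one_mem _
  | mul x y _ _ hx hy =>
    have e1 : trHom t u v (x * y) * (x * y)⁻¹
        = (trHom t u v x * (trHom t u v y * y⁻¹) * (trHom t u v x)⁻¹)
          * (trHom t u v x * x⁻¹) := by
      rw [map_mul]; group
    rw [e1]
    exact Subgroup.mul_mem _ (hN.conj_mem _ hy _) hx
  | inv x _ hx =>
    have e1 : trHom t u v x⁻¹ * x⁻¹⁻¹ = (trHom t u v x)⁻¹ * (trHom t u v x * x⁻¹)⁻¹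
        * ((trHom t u v x)⁻¹)⁻¹ := by
      rw [map_inv]; group
    rw [e1]
    exact hN.conj_mem _ (Subgroup.inv_mem _ hx) _

end autos

end MP15511a
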