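import Pool.Agent.Lib.MP_15511a_al.Two.T1
import Pool.Agent.Lib.MP_15511a_al.Stab.Uniform

/-!
Stable primitivity: the induction step, and the class 2 theorem.
-/

open scoped commutatorElement

namespace MP15511a

/-- the coset of a generator modulo `[γ_{k+1}, γ_{k+1}]` -/
theorem primitive_of_coset {k m n : ℕ} (i : Fin m) (b : FreeGroup (Fin m))
    (hb : b ∈ KK (FreeGroup (Fin m)) k) (h : m ≤ n)
    (hn : (m + k + 2) + (m + k + 2) ^ (k + 1) ≤ n)
    (hr : UnimodularRow (k + 1) (b * FreeGroup.of i)) :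
    Primitive (emb (k + 1) h (b * FreeGroup.of i)) := by
  have h1 : m ≤ m + k + 2 := by omega
  have h2 : m + k + 2 ≤ n := le_trans (Nat.le_add_right _ _) hn
  obtain ⟨Φ, u, hu, e⟩ := second_step k h1 (le_refl _) i b hb
  have h3 : UnimodularRow (k + 1) (u * FreeGroup.of (Fin.castLE h1 i)) := by
    rw [← e]
    exact row_aut Φ (row_fe h1 hr)
  have h4 := primitive_of_row (Fin.castLE h1 i) u hu h2 hn h3
  rw [← e] at h4
  have h5 := primitive_aut h2 Φ _ h4
  rwa [emb_fe] at h5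

/-- elements congruent modulo `[γ_{k+1}, γ_{k+1}]` to primitive elements of a free group -/
theorem primitive_of_tame {k r m n : ℕ} (hrm : r ≤ m) (h : m ≤ n) (w : FreeGroup (Fin r))
    (Φ : FreeGroup (Fin m) ≃* FreeGroup (Fin m)) (i : Fin m) (b : FreeGroup (Fin m))
    (hb : b ∈ KK (FreeGroup (Fin m)) k) (e : Φ (fe hrm w) = b * FreeGroup.of i)
    (hn : (m + k + 2) + (m + k + 2) ^ (k + 1) ≤ n)
    (hr : UnimodularRow (k + 1) w) :
    Primitive (emb (k + 1) (hrm.trans h) w) := by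
  have h1 : UnimodularRow (k + 1) (b * FreeGroup.of i) := by
    rw [← e]
    exact row_aut Φ (row_fe hrm hr)
  have h2 := primitive_of_coset i b hb h hn h1
  rw [← e] at h2
  have h3 := primitive_aut h Φ _ h2
  rwa [emb_fe] at h3

/-- unimodularity over the group ring of `F / F'` implies stable primitivity modulo the second
derived group, by automorphisms of free groups -/
theorem tame_of_row {r : ℕ} (w : FreeGroup (Fin r)) (hw : UnimodularRow 1 w) {m : ℕ}
    (hm : (r + 3) + (r + 3) ^ 3 + 2 ≤ m) (h : r ≤ m) :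
    ∃ (Φ : FreeGroup (Fin m) ≃* FreeGroup (Fin m)) (i : Fin m),
      ∃ b ∈ KK (FreeGroup (Fin m)) 1, Φ (fe h w) = b * FreeGroup.of i := by
  -- first step
  obtain ⟨Φ1, u1, hu1, e1⟩ := first_step w hw
  have r1 : UnimodularRow 1 (u1 * FreeGroup.of (Fin.last r)) := by
    rw [← e1]
    exact row_aut Φ1 (row_fe _ hw)
  -- second step
  have h12 : r + 1 ≤ r + 3 := by omega
  obtain ⟨Φ2, u2, hu2, e2⟩ := second_step 0 h12 (le_refl _) (Fin.last r) u1 hu1
  have r2 : UnimodularRow 1 (u2 * FreeGroup.of (Fin.castLE h12 (Fin.last r))) := by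
    rw [← e2]
    exact row_aut Φ2 (row_fe h12 r1)
  -- third step
  have h23 : r + 3 ≤ m := by
    refine le_trans ?_ hm
    rw [add_assoc]
    exact Nat.le_add_right _ _
  obtain ⟨Φ3, b3, hb3, e3⟩ := t_one h23 hm (Fin.castLE h12 (Fin.last r)) u2 hu2 r2
  -- extend the automorphisms to the largest rank
  have ext : ∀ {m m' : ℕ} (h : m ≤ m') (Φ : FreeGroup (Fin m) ≃* FreeGroup (Fin m)),
      ∃ Φ' : FreeGroup (Fin m') ≃* FreeGroup (Fin m'), ∀ g, Φ' (fe h g) = fe h (Φ g) := by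
    intro m m' h Φ
    set F : (FreeGroup (Fin m) ≃* FreeGroup (Fin m)) → FreeGroup (Fin m') →* FreeGroup (Fin m') :=
      fun Φ => FreeGroup.lift (fun j => if hj : j.val < m then
        fe h (Φ (FreeGroup.of ⟨j.val, hj⟩)) else FreeGroup.of j) with hF
    have f1 : ∀ Φ g, F Φ (fe h g) = fe h (Φ g) := by
      intro Φ g
      have h1 : (F Φ).comp (fe h) = (fe h).comp Φ.toMonoidHom := by
        apply FreeGroup.ext_hom
        intro i
        rw [MonoidHom.comp_apply, fe_of, hF]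
        dsimp only
        rw [FreeGroup.lift_apply_of]
        have h2 : (Fin.castLE h i).val < m := i.2
        exact dif_pos h2
      exact DFunLike.congr_fun h1 g
    have f2 : ∀ Φ (j : Fin m'), ¬ j.val < m → F Φ (FreeGroup.of j) = FreeGroup.of j := by
      intro Φ j hj
      rw [hF]
      dsimp only
      rw [FreeGroup.lift_apply_of, dif_neg hj]
    have f3 : ∀ (j : Fin m') (hj : j.val < m), FreeGroup.of j = fe h (FreeGroup.of ⟨j.val, hj⟩) := by
      intro j hj
      rw [fe_of]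
      rfl
    have f4 : ∀ Φ Ψ : FreeGroup (Fin m) ≃* FreeGroup (Fin m), (∀ g, Φ (Ψ g) = g) →
        ∀ g, F Φ (F Ψ g) = g := by
      intro Φ Ψ hΦ g
      have h1 : (F Φ).comp (F Ψ) = MonoidHom.id _ := by
        apply FreeGroup.ext_hom
        intro j
        rw [MonoidHom.comp_apply, MonoidHom.id_apply]
        by_cases hj : j.val < m
        · rw [f3 j hj, f1, f1, hΦ]
        · rw [f2 Ψ j hj, f2 Φ j hj]
      exact DFunLike.congr_fun h1 g
    exact ⟨{ F Φ with
      invFun := F Φ.symm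
      left_inv := f4 Φ.symm Φ (fun g => Φ.symm_apply_apply g)
      right_inv := f4 Φ Φ.symm (fun g => Φ.apply_symm_apply g) }, f1 Φ⟩
  have fefe : ∀ {a b c : ℕ} (h : a ≤ b) (h' : b ≤ c) (g : FreeGroup (Fin a)),
      fe h' (fe h g) = fe (h.trans h') g := by
    intro a b c h h' g
    have h1 : (fe h').comp (fe h) = fe (h.trans h') := by
      apply FreeGroup.ext_hom
      intro i
      rw [MonoidHom.comp_apply, fe_of, fe_of, fe_of]
      rfl
    exact DFunLike.congr_fun h1 g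
  obtain ⟨Ψ2, hΨ2⟩ := ext h23 Φ2
  obtain ⟨Ψ1, hΨ1⟩ := ext (h12.trans h23) Φ1
  refine ⟨(Ψ1.trans Ψ2).trans Φ3, Fin.castLE h23 (Fin.castLE h12 (Fin.last r)), b3, hb3, ?_⟩
  change Φ3 (Ψ2 (Ψ1 (fe h w))) = _
  rw [← e3, ← e2, ← hΨ2, ← e1, fefe h12 h23, ← hΨ1, fefe]

/-- the class 2 theorem -/
theorem class_two {r n : ℕ} (w : FreeGroup (Fin r)) (h : r ≤ n) (hn : (r + 4) ^ 6 ≤ n)
    (hw : UnimodularRow 2 w) : Primitive (emb 2 h w) := by
  set m := (r + 3) + (r + 3) ^ 3 + 2 with hm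
  have h1 : (m + 1 + 2) + (m + 1 + 2) ^ (1 + 1) ≤ n := by
    have h2 : (m + 1 + 2) + 1 ≤ (r + 4) ^ 3 := by
      rw [hm]
      nlinarith
    have h3 : (m + 1 + 2 + 1) ^ 2 = (m + 1 + 2) ^ (1 + 1) + 2 * (m + 1 + 2) + 1 := by ring
    calc (m + 1 + 2) + (m + 1 + 2) ^ (1 + 1) ≤ (m + 1 + 2 + 1) ^ 2 := by omega
      _ ≤ ((r + 4) ^ 3) ^ 2 := Nat.pow_le_pow_left h2 2
      _ = (r + 4) ^ 6 := by ring
      _ ≤ n := hn
  have hrm : r ≤ m := by
    rw [hm, add_assoc, add_assoc]
    exact Nat.le_add_right _ _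
  obtain ⟨Φ, i, b, hb, e⟩ := tame_of_row w (row_class hw) (le_refl m) hrm
  have hmn : m ≤ n := by
    refine le_trans ?_ h1
    rw [add_assoc, add_assoc]
    exact Nat.le_add_right _ _
  exact primitive_of_tame hrm hmn w Φ i b hb e h1 hw

end MP15511a
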