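import Pool.Agent.Lib.MP_15511a_al.Stab.Core

/-!
The free metabelian group: operators form a commutative ring; tame endomorphisms.
-/

open scoped commutatorElement

namespace MP15511a

variable {n : ℕ}

theorem comm_mem_one (g h : FreeAN 1 n) : ⁅g, h⁆ ∈ AA 1 n :=
  Subgroup.commutator_mem_commutator (Subgroup.mem_top g) (Subgroup.mem_top h)

theorem EE1_comm (a b : EE 1 n) : a * b = b * a := by
  induction a using EE_ind with
  | hT g => exact Te_comm g (fun h => comm_mem_one h g) b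
  | h1 => rw [mul_one, one_mul]
  | h0 => rw [mul_zero, zero_mul]
  | ha a a' h h' => rw [mul_add, add_mul, h, h']
  | hm a a' h h' => rw [mul_assoc, h', ← mul_assoc, h, mul_assoc]
  | hn a h => rw [mul_neg, neg_mul, h]

instance : CommRing (EE 1 n) :=
  { (inferInstance : Ring (EE 1 n)) with mul_comm := EE1_comm }

theorem smul_val {c : ℕ} (e : EE c n) (v : VV c n) : e • v = e.1 v := rfl

theorem vl_smul_Te {c : ℕ} (g : FreeAN c n) (v : VV c n) : vl (Te c n g • v) = g * vl v * g⁻¹ := rfl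

theorem vl_sub {c : ℕ} (v w : VV c n) : vl (v - w) = vl v * (vl w)⁻¹ := by
  rw [sub_eq_add_neg, vl_add, vl_neg]

theorem alpha_app {c : ℕ} (f : FreeAN c n → EE c n) (hf : Crossed f) (ρ : VV c n)
    (g : FreeAN c n) : alpha f hf ρ g = vl (f g • ρ) * g := rfl

theorem alpha_vl {c : ℕ} (f : FreeAN c n → EE c n) (hf : Crossed f) (ρ v : VV c n) :
    alpha f hf ρ (vl v) = vl (v + f (vl v) • ρ) := by
  rw [alpha_app, ← vl_add, add_comm]

theorem Crossed.smul {c : ℕ} {f : FreeAN c n → EE c n} (hf : Crossed f) (e : EE c n)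
    (v : VV c n) : f (vl (e • v)) = e * f (vl v) := hf.vlE e v

/-- induced by an automorphism of the free group -/
def IsTame (φ : FreeAN 1 n →* FreeAN 1 n) : Prop :=
  ∃ Φ : FreeGroup (Fin n) ≃* FreeGroup (Fin n), ∀ g : FreeGroup (Fin n),
    (QuotientGroup.mk (Φ g) : FreeAN 1 n) = φ (QuotientGroup.mk g)

theorem IsTame.comp {φ ψ : FreeAN 1 n →* FreeAN 1 n} (h : IsTame φ) (h' : IsTame ψ) :
    IsTame (φ.comp ψ) := by
  obtain ⟨Φ, h⟩ := h
  obtain ⟨Ψ, h'⟩ := h'
  refine ⟨Ψ.trans Φ, fun g => ?_⟩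
  change (QuotientGroup.mk (Φ (Ψ g)) : FreeAN 1 n) = _
  rw [h, h']
  rfl

theorem isTame_id : IsTame (MonoidHom.id (FreeAN 1 n)) := ⟨MulEquiv.refl _, fun _ => rfl⟩

theorem lcs_map {G : Type*} [Group G] (Φ : G →* G) (k : ℕ) {g : G}
    (hg : g ∈ (⊤ : Subgroup G).lowerCentralSeries k) :
    Φ g ∈ (⊤ : Subgroup G).lowerCentralSeries k := by
  have h1 : Φ g ∈ ((⊤ : Subgroup G).lowerCentralSeries k).map Φ := ⟨g, hg, rfl⟩
  rw [Subgroup.map_lowerCentralSeries] at h1
  exact Subgroup.lowerCentralSeries_mono k le_top h1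

theorem comm_lcs_map {G : Type*} [Group G] (Φ : G →* G) (k l : ℕ) {g : G}
    (hg : g ∈ ⁅(⊤ : Subgroup G).lowerCentralSeries k, (⊤ : Subgroup G).lowerCentralSeries l⁆) :
    Φ g ∈ ⁅(⊤ : Subgroup G).lowerCentralSeries k, (⊤ : Subgroup G).lowerCentralSeries l⁆ := by
  have h1 : Φ g ∈ (⁅(⊤ : Subgroup G).lowerCentralSeries k,
      (⊤ : Subgroup G).lowerCentralSeries l⁆).map Φ := ⟨g, hg, rfl⟩
  rw [Subgroup.map_commutator] at h1
  refine Subgroup.commutator_mono ?_ ?_ h1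
  · rintro _ ⟨x, hx, rfl⟩
    exact lcs_map Φ k hx
  · rintro _ ⟨x, hx, rfl⟩
    exact lcs_map Φ l hx

theorem IsTame.injective {φ : FreeAN 1 n →* FreeAN 1 n} (h : IsTame φ) :
    Function.Injective φ := by
  obtain ⟨Φ, h⟩ := h
  rw [injective_iff_map_eq_one]
  intro g hg
  obtain ⟨g, rfl⟩ := QuotientGroup.mk_surjective g
  rw [← h, QuotientGroup.eq_one_iff] at hg
  rw [QuotientGroup.eq_one_iff]
  have h1 := comm_lcs_map Φ.symm.toMonoidHom 1 1 hg
  change Φ.symm (Φ g) ∈ _ at h1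
  rwa [Φ.symm_apply_apply] at h1

theorem IsTame.cancel_left {φ ψ : FreeAN 1 n →* FreeAN 1 n} (h : IsTame φ)
    (h' : IsTame (φ.comp ψ)) : IsTame ψ := by
  have hi := h.injective
  obtain ⟨Φ, h⟩ := h
  obtain ⟨Ψ, h'⟩ := h'
  refine ⟨Ψ.trans Φ.symm, fun g => hi ?_⟩
  change φ (QuotientGroup.mk (Φ.symm (Ψ g))) = _
  rw [← h, Φ.apply_symm_apply, h']
  rfl

theorem IsTame.cancel_right {φ ψ : FreeAN 1 n →* FreeAN 1 n} (h : IsTame ψ)
    (h' : IsTame (φ.comp ψ)) : IsTame φ := by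
  obtain ⟨Φ, h⟩ := h
  obtain ⟨Ψ, h'⟩ := h'
  refine ⟨Φ.symm.trans Ψ, fun g => ?_⟩
  change (QuotientGroup.mk (Ψ (Φ.symm g)) : FreeAN 1 n) = _
  rw [h', MonoidHom.comp_apply, ← h, Φ.apply_symm_apply]

/-- `x_t ↦ u x_t v` -/
def trHom (t : Fin n) (u v : FreeGroup (Fin n)) : FreeGroup (Fin n) →* FreeGroup (Fin n) :=
  FreeGroup.lift (fun j => if j = t then u * FreeGroup.of t * v else FreeGroup.of j)

theorem trHom_self (t : Fin n) (u v : FreeGroup (Fin n)) :
    trHom t u v (FreeGroup.of t) = u * FreeGroup.of t * v := by simp [trHom]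

theorem trHom_of (t : Fin n) (u v : FreeGroup (Fin n)) {j : Fin n} (h : j ≠ t) :
    trHom t u v (FreeGroup.of j) = FreeGroup.of j := by simp [trHom, h]

theorem trHom_fix (t : Fin n) (u v : FreeGroup (Fin n)) {g : FreeGroup (Fin n)}
    (hg : g ∈ Subgroup.closure (FreeGroup.of '' {j : Fin n | j ≠ t})) : trHom t u v g = g := by
  induction hg using Subgroup.closure_induction with
  | mem x hx =>
    obtain ⟨j, hj, rfl⟩ := hx
    exact trHom_of t u v hj
  | one => exact map_one _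
  | mul x y _ _ hx hy => rw [map_mul, hx, hy]
  | inv x _ hx => rw [map_inv, hx]

theorem trHom_trHom (t : Fin n) (u v : FreeGroup (Fin n))
    (hu : u ∈ Subgroup.closure (FreeGroup.of '' {j : Fin n | j ≠ t}))
    (hv : v ∈ Subgroup.closure (FreeGroup.of '' {j : Fin n | j ≠ t})) (g : FreeGroup (Fin n)) :
    trHom t u v (trHom t u⁻¹ v⁻¹ g) = g := by
  have h : (trHom t u v).comp (trHom t u⁻¹ v⁻¹) = MonoidHom.id _ := by
    apply FreeGroup.ext_hom
    intro j
    rw [MonoidHom.comp_apply, MonoidHom.id_apply]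
    by_cases hj : j = t
    · subst hj
      rw [trHom_self, map_mul, map_mul, trHom_self, map_inv, map_inv, trHom_fix _ _ _ hu,
        trHom_fix _ _ _ hv]
      group
    · rw [trHom_of _ _ _ hj, trHom_of _ _ _ hj]
  exact DFunLike.congr_fun h g

/-- the automorphism `x_t ↦ u x_t v` -/
def trAut (t : Fin n) (u v : FreeGroup (Fin n))
    (hu : u ∈ Subgroup.closure (FreeGroup.of '' {j : Fin n | j ≠ t}))
    (hv : v ∈ Subgroup.closure (FreeGroup.of '' {j : Fin n | j ≠ t})) :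
    FreeGroup (Fin n) ≃* FreeGroup (Fin n) where
  toFun := trHom t u v
  invFun := trHom t u⁻¹ v⁻¹
  left_inv := fun g => by
    have h := trHom_trHom t u⁻¹ v⁻¹ (Subgroup.inv_mem _ hu) (Subgroup.inv_mem _ hv) g
    rwa [inv_inv, inv_inv] at h
  right_inv := trHom_trHom t u v hu hv
  map_mul' := map_mul _

theorem trAut_apply (t : Fin n) (u v : FreeGroup (Fin n))
    (hu : u ∈ Subgroup.closure (FreeGroup.of '' {j : Fin n | j ≠ t}))
    (hv : v ∈ Subgroup.closure (FreeGroup.of '' {j : Fin n | j ≠ t})) (g : FreeGroup (Fin n)) :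
    trAut t u v hu hv g = trHom t u v g := rfl

/-- subgroups generated by some of the generators -/
theorem exists_lift {c : ℕ} (S : Set (Fin n)) {a : FreeAN c n}
    (ha : a ∈ Subgroup.closure (gen c '' S)) :
    ∃ u ∈ Subgroup.closure (FreeGroup.of '' S), (QuotientGroup.mk u : FreeAN c n) = a := by
  have h1 : Subgroup.closure (gen c '' S)
      = (Subgroup.closure (FreeGroup.of '' S)).map (QuotientGroup.mk' _) := by
    rw [MonoidHom.map_closure, ← Set.image_comp]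
    rfl
  rw [h1] at ha
  obtain ⟨u, hu, rfl⟩ := ha
  exact ⟨u, hu, rfl⟩

theorem tame_tr (t : Fin n) (φ : FreeAN 1 n →* FreeAN 1 n) (a b : FreeAN 1 n)
    (ha : a ∈ Subgroup.closure (gen 1 '' {j : Fin n | j ≠ t}))
    (hb : b ∈ Subgroup.closure (gen 1 '' {j : Fin n | j ≠ t}))
    (h1 : ∀ j, j ≠ t → φ (gen 1 j) = gen 1 j) (h2 : φ (gen 1 t) = a * gen 1 t * b) :
    IsTame φ := by
  obtain ⟨u, hu, rfl⟩ := exists_lift _ ha
  obtain ⟨v, hv, rfl⟩ := exists_lift _ hb
  refine ⟨trAut t u v hu hv, fun g => ?_⟩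
  have h : (QuotientGroup.mk' _).comp (trHom t u v) = φ.comp (QuotientGroup.mk' _) := by
    apply FreeGroup.ext_hom
    intro j
    rw [MonoidHom.comp_apply, MonoidHom.comp_apply]
    by_cases hj : j = t
    · subst hj
      rw [trHom_self]
      exact h2.symm
    · rw [trHom_of _ _ _ hj]
      exact (h1 j hj).symm
  exact DFunLike.congr_fun h g

/-- conjugation is tame -/
theorem tame_conj (φ : FreeAN 1 n →* FreeAN 1 n) (a : FreeAN 1 n)
    (h : ∀ g, φ g = a * g * a⁻¹) : IsTame φ := by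
  obtain ⟨a, rfl⟩ := QuotientGroup.mk_surjective a
  refine ⟨MulAut.conj a, fun g => ?_⟩
  rw [h, MulAut.conj_apply]
  rfl

/-- endomorphisms that are trivial modulo the commutator subgroup do not change the action -/
theorem Te_eq_of_triv (φ : FreeAN 1 n →* FreeAN 1 n)
    (h : ∀ i, φ (gen 1 i) * (gen 1 i)⁻¹ ∈ AA 1 n) (g : FreeAN 1 n) :
    Te 1 n (φ g) = Te 1 n g := by
  have h1 : (QuotientGroup.mk' (AA 1 n)).comp φ = QuotientGroup.mk' (AA 1 n) := by
    apply hom_ext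
    intro i
    rw [MonoidHom.comp_apply]
    change (QuotientGroup.mk (φ (gen 1 i)) : _ ⧸ AA 1 n) = QuotientGroup.mk (gen 1 i)
    rw [eq_comm, QuotientGroup.eq_iff_div_mem]
    have h3 := Subgroup.inv_mem _ (h i)
    rw [mul_inv_rev, inv_inv] at h3
    rwa [div_eq_mul_inv]
  have h2 : (QuotientGroup.mk g : _ ⧸ AA 1 n) = QuotientGroup.mk (φ g) :=
    (DFunLike.congr_fun h1 g).symm
  rw [QuotientGroup.eq] at h2
  have h3 : φ g = g * (g⁻¹ * φ g) := by group
  rw [h3, map_mul, Te_triv 1 n _ h2, mul_one]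

end MP15511a
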