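import Pool.Agent.Lib.MP_15511a_al.Two.Dis

/-!
The transvections needed in the free metabelian group are tame.
-/

open scoped commutatorElement

namespace MP15511a

variable {n : ℕ}

/-- commutators as elements of the module -/
def cm (g h : FreeAN 1 n) : VV 1 n := mkV ⁅g, h⁆ (comm_mem_one g h)

theorem vl_cm (g h : FreeAN 1 n) : vl (cm g h) = ⁅g, h⁆ := rfl

theorem crossed_cm {f : FreeAN 1 n → EE 1 n} (hf : Crossed f) (g h : FreeAN 1 n) :
    f (vl (cm g h)) = (1 - Te 1 n h) * f g + (Te 1 n g - 1) * f h :=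
  comm_zeta h (fun g => comm_mem_one g h) hf g

theorem cm_mul (x t y : FreeAN 1 n) : cm (x * t) y = cm x y + Te 1 n x • cm t y := by
  apply vl_inj
  rw [add_comm, vl_add, vl_smul_Te, vl_cm, vl_cm, vl_cm]
  simp only [commutatorElement_def]
  group

theorem cm_mul_right (x t y : FreeAN 1 n) : cm x (t * y) = cm x t + Te 1 n t • cm x y := by
  apply vl_inj
  rw [vl_add, vl_smul_Te, vl_cm, vl_cm, vl_cm]
  simp only [commutatorElement_def]
  group

theorem cm_self (x : FreeAN 1 n) : cm x x = 0 := by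
  apply vl_inj
  rw [vl_cm, vl_zero, commutatorElement_self]

theorem cm_symm (x y : FreeAN 1 n) : cm x y = - cm y x := by
  apply vl_inj
  rw [vl_neg, vl_cm, vl_cm, commutatorElement_inv]

theorem cm_vl (p : FreeAN 1 n) (v : VV 1 n) : cm p (vl v) = (Te 1 n p - 1) • v := by
  apply vl_inj
  rw [sub_smul, one_smul, vl_sub, vl_smul_Te, vl_cm, commutatorElement_def]

theorem jacobi (p z k : FreeAN 1 n) :
    (1 - Te 1 n k) • cm p z - (1 - Te 1 n z) • cm p k = -((1 - Te 1 n p) • cm z k) := by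
  have h1 : z * k = vl (cm z k) * (k * z) := by rw [vl_cm, commutatorElement_def]; group
  have h2 : cm p (z * k) = cm p (vl (cm z k)) + cm p (k * z) := by
    rw [h1, cm_mul_right, Te_triv 1 n _ (vl_mem _), one_smul]
  rw [cm_mul_right, cm_mul_right, cm_vl] at h2
  have h3 : cm p z + Te 1 n z • cm p k - (cm p k + Te 1 n k • cm p z)
      = (Te 1 n p - 1) • cm z k := by
    rw [h2]; abel
  rw [← neg_sub (Te 1 n p) 1, neg_smul, neg_neg, ← h3]
  module

theorem cm_mem_HS {S : Set (Fin n)} {g h : FreeAN 1 n} (hg : g ∈ HS S) (hh : h ∈ HS S) :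
    vl (cm g h) ∈ HS S := by
  rw [vl_cm, commutatorElement_def]
  exact Subgroup.mul_mem _ (Subgroup.mul_mem _ (Subgroup.mul_mem _ hg hh)
    (Subgroup.inv_mem _ hg)) (Subgroup.inv_mem _ hh)

theorem dl_mem {S : Set (Fin n)} {g : FreeAN 1 n} (hg : g ∈ HS S) : 1 - Te 1 n g ∈ ES S :=
  Subring.sub_mem _ (Subring.one_mem _) (Te_mem_ES hg)

theorem Dc_mem {S : Set (Fin n)} {b : Fin n → EE 1 n} (hb : ∀ k, b k ∈ ES S) {g : FreeAN 1 n}
    (hg : g ∈ HS S) : Dc b g ∈ ES S := by
  induction hg using Subgroup.closure_induction with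
  | mem x hx =>
    obtain ⟨k, _, rfl⟩ := hx
    rw [Dc_gen]
    exact hb k
  | one => rw [(Dc_crossed b).one]; exact Subring.zero_mem _
  | mul x y hx _ ihx ihy =>
    rw [Dc_crossed b x y]
    exact Subring.add_mem _ ihx (Subring.mul_mem _ (Te_mem_ES hx) ihy)
  | inv x hx ihx =>
    rw [(Dc_crossed b).inv]
    exact Subring.neg_mem _ (Subring.mul_mem _ (Te_mem_ES (Subgroup.inv_mem _ hx)) ihx)

theorem Dc_eqOn {S : Set (Fin n)} {b b' : Fin n → EE 1 n} (h : ∀ k ∈ S, b k = b' k)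
    {g : FreeAN 1 n} (hg : g ∈ HS S) : Dc b g = Dc b' g := by
  refine (Dc_crossed b).eqOn (Dc_crossed b') (gen 1 '' S) ?_ g hg
  rintro _ ⟨k, hk, rfl⟩
  rw [Dc_gen, Dc_gen]
  exact h k hk

/-- the inner crossed homomorphism -/
def inn (G : EE 1 n) : Fin n → EE 1 n := fun k => (1 - Te 1 n (gen 1 k)) * G

theorem Dc_inn (G : EE 1 n) (g : FreeAN 1 n) : Dc (inn G) g = (1 - Te 1 n g) * G := by
  have hc : Crossed (fun g : FreeAN 1 n => (1 - Te 1 n g) * G) := by
    intro g h
    dsimp only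
    rw [map_mul]
    ring
  have h1 : g ∈ Subgroup.closure (Set.range (gen 1)) := by rw [closure_gen]; exact Subgroup.mem_top g
  refine (Dc_crossed _).eqOn hc _ ?_ g h1
  rintro _ ⟨k, rfl⟩
  rw [Dc_gen]
  rfl

theorem Dc_inn_vl (G : EE 1 n) (v : VV 1 n) : Dc (inn G) (vl v) = 0 := by
  rw [Dc_inn, Te_triv 1 n _ (vl_mem v), sub_self, zero_mul]

theorem tame_inn (G : EE 1 n) (σ : VV 1 n) : IsTame (alpha (Dc (inn G)) (Dc_crossed _) σ) := by
  apply tame_conj _ (vl (G • σ))
  intro g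
  rw [alpha_app, Dc_inn, mul_smul, sub_smul, one_smul, vl_sub, vl_smul_Te]
  group

/-- unimodular elements with support in C -/
def UMC (C : Set (Fin n)) (v : FreeAN 1 n) : Prop :=
  ∃ b : Fin n → EE 1 n, (∀ k, b k ∈ ES C) ∧ (∀ k, k ∉ C → b k = 0) ∧ Dc b v = 1

theorem um_move {C : Set (Fin n)} {v : FreeAN 1 n} (b b' : Fin n → EE 1 n) (σ : VV 1 n)
    (hb : ∀ k, b k ∈ ES C) (hb' : ∀ k, b' k ∈ ES C) (hc : ∀ k, k ∉ C → b k = 0)
    (hc' : ∀ k, k ∉ C → b' k = 0) (hσ : vl σ ∈ HS C) (h1 : Dc b v = 1) (h0 : Dc b' (vl σ) = 0) :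
    UMC C (vl (Dc b' v • σ) * v) := by
  set e := Dc b (vl σ) with he
  refine ⟨b + fun k => b' k * -e, ?_, ?_, ?_⟩
  · intro k
    exact Subring.add_mem _ (hb k) (Subring.mul_mem _ (hb' k) (Subring.neg_mem _ (Dc_mem hb hσ)))
  · intro k hk
    change b k + b' k * -e = 0
    rw [hc k hk, hc' k hk, zero_mul, zero_add]
  · rw [← Dc_add, ← Dc_mul]
    dsimp only
    rw [(Dc_crossed b).triv_mul (vl_mem _), (Dc_crossed b').triv_mul (vl_mem _),
      (Dc_crossed b).smul, (Dc_crossed b').smul, h1, h0, ← he]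
    ring

theorem UMC.mono {C C' : Set (Fin n)} (h : C ⊆ C') {v : FreeAN 1 n} (hu : UMC C v) :
    UMC C' v := by
  obtain ⟨b, h1, h2, h3⟩ := hu
  exact ⟨b, fun k => ES_mono h (h1 k), fun k hk => h2 k (fun hk' => hk (h hk')), h3⟩

/-- choice of an auxiliary variable -/
theorem aux_var {C J : Set (Fin n)} {s p : Fin n} (hs : s ∉ C) (hp : p ∉ C) (hsp : s ≠ p)
    (hsJ : s ∉ J) (hpJ : p ∉ J) (b : Fin n → EE 1 n)
    (hb : ∀ k, b k ∈ ES (insert k C)) :
    ∀ k, k ∉ J → ∃ s', s' ∉ J ∧ k ≠ s' ∧ b k ∈ ES {j | j ≠ s'} := by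
  intro k _
  by_cases hk : k = s
  · refine ⟨p, hpJ, hk ▸ hsp, ES_mono ?_ (hb k)⟩
    intro j hj
    rcases Set.mem_insert_iff.1 hj with h | h
    · rw [h, hk]; exact hsp
    · exact fun h' => hp (h' ▸ h)
  · refine ⟨s, hsJ, hk, ES_mono ?_ (hb k)⟩
    intro j hj
    rcases Set.mem_insert_iff.1 hj with h | h
    · rw [h]; exact hk
    · exact fun h' => hs (h' ▸ h)

/-- first move -/
theorem move_one {C : Set (Fin n)} {s p y t : Fin n} (hs : s ∉ C) (hp : p ∉ C) (hsp : s ≠ p)
    (hy : y ∈ C) (ht : t ∉ C) (hts : t ≠ s) (htp : t ≠ p) {v : FreeAN 1 n} (hv : v ∈ HS C)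
    (hu : UMC C v) {g : EE 1 n} (hg : g ∈ ES C) :
    (∃ φ, IsTame φ ∧ φ v = vl ((g * (1 - Te 1 n (gen 1 y))) • cm (gen 1 t) (gen 1 y)) * v) ∧
    UMC (insert t C) (vl ((g * (1 - Te 1 n (gen 1 y))) • cm (gen 1 t) (gen 1 y)) * v) := by
  classical
  obtain ⟨b, hb, hbc, hbv⟩ := hu
  set dy : EE 1 n := 1 - Te 1 n (gen 1 y) with hdy
  set dt : EE 1 n := 1 - Te 1 n (gen 1 t) with hdt
  set σ : VV 1 n := cm (gen 1 t) (gen 1 y) with hσ
  have hyt : y ≠ t := fun h => ht (h ▸ hy)
  have hys : y ≠ s := fun h => hs (h ▸ hy)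
  have hyp : y ≠ p := fun h => hp (h ▸ hy)
  set b' : Fin n → EE 1 n := fun k => if k = t then dt * b y * g else b k * (dy * g) with hb'
  have b't : b' t = dt * b y * g := if_pos rfl
  have b'k : ∀ k, k ≠ t → b' k = b k * (dy * g) := fun k hk => if_neg hk
  have hCt : C ⊆ insert t C := Set.subset_insert t C
  have hgy : gen 1 y ∈ HS C := gen_mem_HS hy
  have hdyC : dy ∈ ES C := dl_mem hgy
  have h0 : Dc b' (vl σ) = 0 := by
    rw [hσ, crossed_cm (Dc_crossed b'), Dc_gen, Dc_gen, b't, b'k y hyt, ← hdy]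
    rw [hdt]
    ring
  have h1 : Dc b' v = g * dy := by
    rw [Dc_eqOn (b' := fun k => b k * (dy * g)) (fun k hk => b'k k (fun h => ht (h ▸ hk))) hv,
      ← Dc_mul]
    dsimp only
    rw [hbv]
    ring
  have hσm : vl σ ∈ HS {y, t} :=
    cm_mem_HS (gen_mem_HS (by simp)) (gen_mem_HS (by simp))
  constructor
  · refine ⟨alpha (Dc b') (Dc_crossed _) σ, ?_, ?_⟩
    · set b'' : Fin n → EE 1 n := b' + inn (-(b y * g)) with hb''
      have e1 : b' = inn (b y * g) + b'' := by
        rw [hb'']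
        funext k
        change b' k = (1 - Te 1 n (gen 1 k)) * (b y * g)
          + (b' k + (1 - Te 1 n (gen 1 k)) * (-(b y * g)))
        ring
      have e2 : alpha (Dc b') (Dc_crossed _) σ
          = (alpha (Dc (inn (b y * g))) (Dc_crossed _) σ).comp (alpha (Dc b'') (Dc_crossed _) σ) := by
        rw [tv_add _ _ σ (Dc_inn_vl _ σ)]
        apply alpha_congr
        rw [← e1]
      rw [e2]
      apply (tame_inn _ σ).comp
      apply tame_dis {y, t} σ hσm
      · intro k hk
        rcases hk with hk | hk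
        · rw [hk]
          change b' y + (1 - Te 1 n (gen 1 y)) * (-(b y * g)) = 0
          rw [b'k y hyt, ← hdy]
          ring
        · rw [Set.mem_singleton_iff.1 hk]
          change b' t + (1 - Te 1 n (gen 1 t)) * (-(b y * g)) = 0
          rw [b't, ← hdt]
          ring
      · apply aux_var (C := C) hs hp hsp
        · rintro (h | h)
          · exact hys h.symm
          · exact hts (Set.mem_singleton_iff.1 h).symm
        · rintro (h | h)
          · exact hyp h.symm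
          · exact htp (Set.mem_singleton_iff.1 h).symm
        · intro k
          have hkC : C ⊆ insert k C := Set.subset_insert k C
          change b' k + (1 - Te 1 n (gen 1 k)) * (-(b y * g)) ∈ _
          refine Subring.add_mem _ ?_ (Subring.mul_mem _ (dl_mem (gen_mem_HS
            (Set.mem_insert k C))) (Subring.neg_mem _ (ES_mono hkC (Subring.mul_mem _ (hb y) hg))))
          by_cases hk : k = t
          · subst hk
            rw [b't]
            exact Subring.mul_mem _ (Subring.mul_mem _ (dl_mem (gen_mem_HS (Set.mem_insert k C)))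
              (ES_mono hkC (hb y))) (ES_mono hkC hg)
          · rw [b'k k hk]
            exact ES_mono hkC (Subring.mul_mem _ (hb k) (Subring.mul_mem _ hdyC hg))
    · rw [alpha_app, h1]
  · rw [← h1]
    apply um_move b b' σ (fun k => ES_mono hCt (hb k)) _ (fun k hk => hbc k (fun h => hk (hCt h))) _
      (HS_mono _ hσm) hbv h0
    · intro k
      by_cases hk : k = t
      · subst hk
        rw [b't]
        exact Subring.mul_mem _ (Subring.mul_mem _ (dl_mem (gen_mem_HS (Set.mem_insert k C)))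
          (ES_mono hCt (hb y))) (ES_mono hCt hg)
      · rw [b'k k hk]
        exact ES_mono hCt (Subring.mul_mem _ (hb k) (Subring.mul_mem _ hdyC hg))
    · intro k hk
      rw [b'k k (fun h => hk (h ▸ Set.mem_insert k C)), hbc k (fun h => hk (hCt h)), zero_mul]
    · intro k hk
      rcases hk with hk | hk
      · rw [hk]; exact hCt hy
      · rw [Set.mem_singleton_iff.1 hk]; exact Set.mem_insert t C

end MP15511a
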