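import Pool.Agent.Lib.MP_15511a_al.Two.Moves

/-!
Further moves in the free metabelian group.
-/

open scoped commutatorElement

namespace MP15511a

variable {n : ℕ}

theorem fix_HS (ν : FreeAN 1 n →* FreeAN 1 n) {C : Set (Fin n)}
    (h : ∀ j ∈ C, ν (gen 1 j) = gen 1 j) {x : FreeAN 1 n} (hx : x ∈ HS C) : ν x = x := by
  induction hx using Subgroup.closure_induction with
  | mem x hx =>
    obtain ⟨j, hj, rfl⟩ := hx
    exact h j hj
  | one => exact map_one _
  | mul x y _ _ hx hy => rw [map_mul, hx, hy]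
  | inv x _ hx => rw [map_inv, hx]

theorem fix_smul (ν : FreeAN 1 n →* FreeAN 1 n) {C : Set (Fin n)}
    (h : ∀ j ∈ C, ν (gen 1 j) = gen 1 j) {e : EE 1 n} (he : e ∈ ES C) :
    ∀ w w' : VV 1 n, vl w' = ν (vl w) → ν (vl (e • w)) = vl (e • w') := by
  refine ES_ind (P := fun e => ∀ w w' : VV 1 n, vl w' = ν (vl w) →
    ν (vl (e • w)) = vl (e • w')) ?_ ?_ ?_ ?_ he
  · intro g hg w w' hw
    rw [vl_smul_Te, vl_smul_Te, map_mul, map_mul, map_inv, fix_HS ν h hg, hw]
  · intro w w' _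
    rw [zero_smul, zero_smul, vl_zero, map_one]
  · intro a b ha hb w w' hw
    rw [add_smul, add_smul, vl_add, vl_add, map_mul, ha w w' hw, hb w w' hw]
  · intro a ha w w' hw
    rw [neg_smul, neg_smul, vl_neg, vl_neg, map_inv, ha w w' hw]

/-- second move: `g δ_y [x t, y]` -/
theorem move_two {C : Set (Fin n)} {s p x y t : Fin n} (hs : s ∉ C) (hp : p ∉ C) (hsp : s ≠ p)
    (hx : x ∈ C) (hy : y ∈ C) (ht : t ∉ C) (hts : t ≠ s) (htp : t ≠ p) {v : FreeAN 1 n}
    (hv : v ∈ HS C) (hu : UMC C v) {g : EE 1 n} (hg : g ∈ ES C) :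
    (∃ φ, IsTame φ ∧ φ v = vl ((g * (1 - Te 1 n (gen 1 y))) • (cm (gen 1 x) (gen 1 y)
      + Te 1 n (gen 1 x) • cm (gen 1 t) (gen 1 y))) * v) ∧
    UMC (insert t C) (vl ((g * (1 - Te 1 n (gen 1 y))) • (cm (gen 1 x) (gen 1 y)
      + Te 1 n (gen 1 x) • cm (gen 1 t) (gen 1 y))) * v) := by
  classical
  have hyt : y ≠ t := fun h => ht (h ▸ hy)
  have hxt : x ≠ t := fun h => ht (h ▸ hx)
  have hCt : C ⊆ insert t C := Set.subset_insert t C
  have htm : t ∈ insert t C := Set.mem_insert t C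
  constructor
  · obtain ⟨⟨φ, hφ, hφv⟩, -⟩ := move_one hs hp hsp hy ht hts htp hv hu hg
    set ν : FreeAN 1 n →* FreeAN 1 n := liftAN (inAN_free 1 n)
      (fun j => if j = t then gen 1 x * gen 1 t * 1 else gen 1 j) with hν
    have νt : ν (gen 1 t) = gen 1 x * gen 1 t * 1 := by rw [hν, liftAN_gen, if_pos rfl]
    have νj : ∀ j, j ≠ t → ν (gen 1 j) = gen 1 j := by
      intro j hj
      rw [hν, liftAN_gen, if_neg hj]
    have tν : IsTame ν := tame_tr t ν (gen 1 x) 1 (gen_mem_HS hxt) (Subgroup.one_mem _) νj νt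
    have νC : ∀ j ∈ C, ν (gen 1 j) = gen 1 j := fun j hj => νj j (fun h => ht (h ▸ hj))
    refine ⟨ν.comp φ, tν.comp hφ, ?_⟩
    rw [MonoidHom.comp_apply, hφv, map_mul, fix_HS ν νC hv, ← cm_mul]
    congr 1
    apply fix_smul ν νC (Subring.mul_mem _ hg (dl_mem (gen_mem_HS hy)))
    rw [vl_cm, vl_cm, map_commutatorElement, νt, νj y hyt, mul_one]
  · obtain ⟨b, hb, hbc, hbv⟩ := hu
    set dy : EE 1 n := 1 - Te 1 n (gen 1 y) with hdy
    set dx : EE 1 n := 1 - Te 1 n (gen 1 x) with hdx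
    set dt : EE 1 n := 1 - Te 1 n (gen 1 t) with hdt
    set σ : VV 1 n := cm (gen 1 x) (gen 1 y) + Te 1 n (gen 1 x) • cm (gen 1 t) (gen 1 y) with hσ
    set bt : EE 1 n := dt * b y * g - Te 1 n (gen 1 x)⁻¹ * g * (dy * b x - dx * b y) with hbt
    set b' : Fin n → EE 1 n := fun k => if k = t then bt else b k * (g * dy) with hb'
    have b't : b' t = bt := if_pos rfl
    have b'k : ∀ k, k ≠ t → b' k = b k * (g * dy) := fun k hk => if_neg hk
    have hxx : Te 1 n (gen 1 x) * Te 1 n (gen 1 x)⁻¹ = 1 := by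
      rw [← map_mul, mul_inv_cancel, map_one]
    have h0 : Dc b' (vl σ) = 0 := by
      rw [hσ, (Dc_crossed b').vladd, (Dc_crossed b').smul, crossed_cm (Dc_crossed b'),
        crossed_cm (Dc_crossed b'), Dc_gen, Dc_gen, Dc_gen, b't, b'k y hyt, b'k x hxt, ← hdy]
      have e1 : Te 1 n (gen 1 x) = 1 - dx := by rw [hdx]; ring
      have e2 : Te 1 n (gen 1 t) = 1 - dt := by rw [hdt]; ring
      rw [hbt, e2]
      rw [e1] at hxx ⊢
      linear_combination (-(dy * g * (dy * b x - dx * b y))) * hxx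
    have h1 : Dc b' v = g * dy := by
      rw [Dc_eqOn (b' := fun k => b k * (g * dy)) (fun k hk => b'k k (fun h => ht (h ▸ hk))) hv,
        ← Dc_mul]
      dsimp only
      rw [hbv]
      ring
    have hyC := ES_mono hCt (dl_mem (gen_mem_HS hy) : 1 - Te 1 n (gen 1 y) ∈ ES C)
    have hxC := ES_mono hCt (dl_mem (gen_mem_HS hx) : 1 - Te 1 n (gen 1 x) ∈ ES C)
    have hgC := ES_mono hCt hg
    have hσm : vl σ ∈ HS (insert t C) := by
      rw [hσ, vl_add, vl_smul_Te]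
      have h2 : gen 1 x ∈ HS (insert t C) := gen_mem_HS (hCt hx)
      have h3 : gen 1 y ∈ HS (insert t C) := gen_mem_HS (hCt hy)
      have h4 : gen 1 t ∈ HS (insert t C) := gen_mem_HS htm
      exact Subgroup.mul_mem _ (cm_mem_HS h2 h3) (Subgroup.mul_mem _ (Subgroup.mul_mem _ h2
        (cm_mem_HS h4 h3)) (Subgroup.inv_mem _ h2))
    rw [← h1]
    apply um_move b b' σ (fun k => ES_mono hCt (hb k)) _ (fun k hk => hbc k (fun h => hk (hCt h))) _
      hσm hbv h0
    · intro k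
      by_cases hk : k = t
      · subst hk
        rw [b't, hbt]
        refine Subring.sub_mem _ (Subring.mul_mem _ (Subring.mul_mem _ (dl_mem (gen_mem_HS htm))
          (ES_mono hCt (hb y))) hgC) (Subring.mul_mem _ (Subring.mul_mem _ ?_ hgC)
          (Subring.sub_mem _ (Subring.mul_mem _ hyC (ES_mono hCt (hb x)))
          (Subring.mul_mem _ hxC (ES_mono hCt (hb y)))))
        exact Te_mem_ES (Subgroup.inv_mem _ (gen_mem_HS (hCt hx)))
      · rw [b'k k hk]
        exact Subring.mul_mem _ (ES_mono hCt (hb k)) (Subring.mul_mem _ hgC hyC)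
    · intro k hk
      rw [b'k k (fun h => hk (h ▸ htm)), hbc k (fun h => hk (hCt h)), zero_mul]

/-- values of single crossed homomorphisms on commutators of generators -/
theorem single_cm (i : Fin n) (e : EE 1 n) (a b : Fin n) :
    Dc (Pi.single i e) (vl (cm (gen 1 a) (gen 1 b)))
      = (1 - Te 1 n (gen 1 b)) * (if a = i then e else 0)
        - (1 - Te 1 n (gen 1 a)) * (if b = i then e else 0) := by
  rw [crossed_cm (Dc_crossed _), Dc_gen, Dc_gen, Pi.single_apply, Pi.single_apply]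
  ring

/-- the key transvection is tame -/
theorem tame_key {C : Set (Fin n)} {s p q z j k : Fin n} (hs : s ∉ C) (hp : p ∉ C) (hsp : s ≠ p)
    (hz : z ∈ C) (hj : j ∈ C) (hk : k ∈ C) (hzj : z ≠ j) (hzk : z ≠ k) (hjk : j ≠ k)
    (hq : q ∉ C) (hqs : q ≠ s) (hqp : q ≠ p) {e g : EE 1 n} (he : e ∈ ES C) (hg : g ∈ ES C) :
    IsTame (alpha (Dc (Pi.single j (e * (1 - Te 1 n (gen 1 z)))
        + Pi.single q (-(g * e * (1 - Te 1 n (gen 1 k)))))) (Dc_crossed _)
      (cm (gen 1 q) (gen 1 z) + g • cm (gen 1 j) (gen 1 k))) := by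
  classical
  have ne : ∀ {a b : Fin n}, a ∈ C → b ∉ C → a ≠ b := fun ha hb h => hb (h ▸ ha)
  have hjq := ne hj hq
  have hjp := ne hj hp
  have hjs := ne hj hs
  have hzq := ne hz hq
  have hzp := ne hz hp
  have hzs := ne hz hs
  have hkq := ne hk hq
  have hkp := ne hk hp
  have hks := ne hk hs
  have hCs : C ⊆ {i | i ≠ s} := fun i hi h => hs (h ▸ hi)
  set dz : EE 1 n := 1 - Te 1 n (gen 1 z) with hdz
  set dk : EE 1 n := 1 - Te 1 n (gen 1 k) with hdk
  set dp : EE 1 n := 1 - Te 1 n (gen 1 p) with hdp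
  set σ1 : VV 1 n := cm (gen 1 q) (gen 1 z) with hσ1
  set σ2 : VV 1 n := cm (gen 1 j) (gen 1 k) with hσ2
  set σ : VV 1 n := σ1 + g • σ2 with hσ
  set θ1 : VV 1 n := cm (gen 1 p) (gen 1 z) with hθ1
  set θ2 : VV 1 n := cm (gen 1 p) (gen 1 k) with hθ2
  set φ1 : FreeAN 1 n → EE 1 n := Dc (Pi.single j e) with hφ1
  set φ2 : FreeAN 1 n → EE 1 n := Dc (Pi.single q (-(g * e))) with hφ2
  set π : FreeAN 1 n → EE 1 n := Dc (Pi.single p 1) with hπ
  set f : FreeAN 1 n → EE 1 n := Dc (Pi.single j (e * dz) + Pi.single q (-(g * e * dk))) with hf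
  have cφ1 : Crossed φ1 := Dc_crossed _
  have cφ2 : Crossed φ2 := Dc_crossed _
  have cπ : Crossed π := Dc_crossed _
  have cf : Crossed f := Dc_crossed _
  -- values
  have a1 : π (vl θ1) = dz := by
    rw [hπ, hθ1, single_cm, if_pos rfl, if_neg hzp]; rw [← hdz]; ring
  have a2 : π (vl θ2) = dk := by
    rw [hπ, hθ2, single_cm, if_pos rfl, if_neg hkp]; rw [← hdk]; ring
  have a3 : π (vl σ) = 0 := by
    rw [hσ, cπ.vladd, cπ.smul, hπ, hσ1, hσ2, single_cm, single_cm, if_neg hqp, if_neg hzp,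
      if_neg hjp, if_neg hkp]
    ring
  have c1 : φ1 (vl σ) = g * (dk * e) := by
    rw [hσ, cφ1.vladd, cφ1.smul, hφ1, hσ1, hσ2, single_cm, single_cm, if_neg (Ne.symm hjq),
      if_neg hzj, if_pos rfl, if_neg (Ne.symm hjk)]
    rw [← hdk]; ring
  have c2 : φ2 (vl σ) = -(g * (dz * e)) := by
    rw [hσ, cφ2.vladd, cφ2.smul, hφ2, hσ1, hσ2, single_cm, single_cm, if_pos rfl,
      if_neg hzq, if_neg hjq, if_neg hkq]
    rw [← hdz]; ring
  have c11 : φ1 (vl θ1) = 0 := by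
    rw [hφ1, hθ1, single_cm, if_neg (Ne.symm hjp), if_neg hzj]; ring
  have c12 : φ1 (vl θ2) = 0 := by
    rw [hφ1, hθ2, single_cm, if_neg (Ne.symm hjp), if_neg (Ne.symm hjk)]; ring
  have c21 : φ2 (vl θ1) = 0 := by
    rw [hφ2, hθ1, single_cm, if_neg (Ne.symm hqp), if_neg hzq]; ring
  have c22 : φ2 (vl θ2) = 0 := by
    rw [hφ2, hθ2, single_cm, if_neg (Ne.symm hqp), if_neg hkq]; ring
  have cfx : ∀ x, f x = φ1 x * dz + φ2 x * dk := by
    intro x
    have h1 := congrFun (Dc_mul (Pi.single j e) dz) x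
    have h2 := congrFun (Dc_mul (Pi.single q (-(g * e))) dk) x
    have h3 := congrFun (Dc_add (fun i => (Pi.single j e : Fin n → EE 1 n) i * dz)
      (fun i => (Pi.single q (-(g * e)) : Fin n → EE 1 n) i * dk)) x
    rw [hφ1, hφ2, h1, h2, h3, hf]
    refine congrArg (fun b : Fin n → EE 1 n => Dc b x) ?_
    funext i
    change (Pi.single j (e * dz) : Fin n → EE 1 n) i + (Pi.single q (-(g * e * dk)) : Fin n → EE 1 n) i
      = (Pi.single j e : Fin n → EE 1 n) i * dz + (Pi.single q (-(g * e)) : Fin n → EE 1 n) i * dk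
    rw [Pi.single_apply, Pi.single_apply, Pi.single_apply, Pi.single_apply]
    split_ifs <;> ring
  have c3 : f (vl σ) = 0 := by
    rw [cfx, c1, c2]; ring
  -- the automorphisms
  set D1 := alpha φ1 cφ1 θ1 with hD1
  set D2 := alpha φ2 cφ2 θ2 with hD2
  set C0 := alpha π cπ σ with hC0
  set T := alpha f cf σ with hT
  set ε : VV 1 n := φ1 (vl σ) • θ1 + φ2 (vl σ) • θ2 with hε
  set L := alpha π cπ (-ε) with hL
  have tD1 : IsTame D1 := by
    apply tame_single j s hjs θ1 _ (ES_mono hCs he)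
    exact cm_mem_HS (gen_mem_HS ⟨Ne.symm hjp, Ne.symm hsp⟩) (gen_mem_HS ⟨hzj, hzs⟩)
  have tD2 : IsTame D2 := by
    apply tame_single q s hqs θ2 _
      (ES_mono hCs (Subring.neg_mem _ (Subring.mul_mem _ hg he)))
    exact cm_mem_HS (gen_mem_HS ⟨Ne.symm hqp, Ne.symm hsp⟩) (gen_mem_HS ⟨hkq, hks⟩)
  have tC0 : IsTame C0 := by
    have h1 : (alpha π cπ σ1).comp (alpha π cπ (g • σ2)) = C0 := by
      rw [hC0, hσ]
      apply alpha_comp_vec
      rw [cπ.smul, hπ, hσ2, single_cm, if_neg hjp, if_neg hkp]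
      ring
    rw [← h1]
    have h2 : alpha π cπ (g • σ2) = alpha (Dc (Pi.single p g)) (Dc_crossed _) σ2 := by
      refine (tv_smul (Pi.single p 1) g σ2).trans ?_
      apply alpha_congr
      congr 1
      funext i
      rw [Pi.single_apply, Pi.single_apply]
      split_ifs <;> ring
    rw [h2]
    refine IsTame.comp (tame_single p s (Ne.symm hsp) σ1 ?_ (Subring.one_mem _))
      (tame_single p s (Ne.symm hsp) σ2 ?_ (ES_mono hCs hg))
    · exact cm_mem_HS (gen_mem_HS ⟨hqp, hqs⟩) (gen_mem_HS ⟨hzp, hzs⟩)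
    · exact cm_mem_HS (gen_mem_HS ⟨hjp, hjs⟩) (gen_mem_HS ⟨hkp, hks⟩)
  have tL : IsTame L := by
    have hε2 : -ε = (g * e * dp) • cm (gen 1 z) (gen 1 k) := by
      have hj := jacobi (gen 1 p) (gen 1 z) (gen 1 k)
      have h1 : ε = (g * e) • ((1 - Te 1 n (gen 1 k)) • cm (gen 1 p) (gen 1 z)
          - (1 - Te 1 n (gen 1 z)) • cm (gen 1 p) (gen 1 k)) := by
        rw [hε, c1, c2, hθ1, hθ2, ← hdk, ← hdz]
        module
      rw [h1, hj, ← hdp]
      module
    have h2 : L = alpha (Dc (Pi.single p (g * e * dp))) (Dc_crossed _)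
        (cm (gen 1 z) (gen 1 k)) := by
      refine (congrArg (alpha π cπ) hε2).trans
        ((tv_smul (Pi.single p 1) (g * e * dp) _).trans ?_)
      apply alpha_congr
      congr 1
      funext i
      rw [Pi.single_apply, Pi.single_apply]
      split_ifs <;> ring
    rw [h2]
    apply tame_single p s (Ne.symm hsp)
    · exact cm_mem_HS (gen_mem_HS ⟨hzp, hzs⟩) (gen_mem_HS ⟨hkp, hks⟩)
    · exact Subring.mul_mem _ (ES_mono hCs (Subring.mul_mem _ hg he))
        (dl_mem (gen_mem_HS (Ne.symm hsp)))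
  have tD : IsTame (D1.comp D2) := tD1.comp tD2
  have tLD : IsTame (L.comp (D1.comp D2)) := tL.comp tD
  -- formulas
  have D1v : ∀ v, D1 (vl v) = vl (v + φ1 (vl v) • θ1) := alpha_vl φ1 cφ1 θ1
  have D1x : ∀ x, D1 x = vl (φ1 x • θ1) * x := fun x => rfl
  have D2x : ∀ x, D2 x = vl (φ2 x • θ2) * x := fun x => rfl
  have C0v : ∀ v, C0 (vl v) = vl (v + π (vl v) • σ) := alpha_vl π cπ σ
  have C0x : ∀ x, C0 x = vl (π x • σ) * x := fun x => rfl
  have Tv : ∀ v, T (vl v) = vl (v + f (vl v) • σ) := alpha_vl f cf σ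
  have Tx : ∀ x, T x = vl (f x • σ) * x := fun x => rfl
  have Lv : ∀ v, L (vl v) = vl (v + π (vl v) • (-ε)) := alpha_vl π cπ (-ε)
  have Lx : ∀ x, L x = vl (π x • (-ε)) * x := fun x => rfl
  have fD : ∀ x, (D1.comp D2) x = vl (φ1 x • θ1 + φ2 x • θ2) * x := by
    intro x
    rw [MonoidHom.comp_apply, D2x, map_mul, D1v, cφ1.smul, c12, mul_zero,
      zero_smul, add_zero, D1x, ← mul_assoc, ← vl_add, add_comm]
  have fDv : ∀ v : VV 1 n, (D1.comp D2) (vl v) = vl (v + (φ1 (vl v) • θ1 + φ2 (vl v) • θ2)) := by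
    intro v
    rw [fD, ← vl_add, add_comm]
  have key : C0.comp (D1.comp D2) = (L.comp (D1.comp D2)).comp (T.comp C0) := by
    refine MonoidHom.ext fun x => ?_
    have lhs : (C0.comp (D1.comp D2)) x
        = vl (φ1 x • θ1 + φ2 x • θ2 + (φ1 x * dz + φ2 x * dk) • σ + π x • σ) * x := by
      rw [MonoidHom.comp_apply, fD, map_mul, C0v, cπ.vladd, cπ.smul, cπ.smul, a1, a2,
        C0x, ← mul_assoc, ← vl_add]
    have r1 : T (C0 x) = vl ((π x + f x) • σ) * x := by
      rw [C0x, map_mul, Tv, cf.smul, c3, mul_zero, zero_smul, add_zero,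
        Tx, ← mul_assoc, ← vl_add, ← add_smul]
    have r2 : (D1.comp D2) (T (C0 x))
        = vl ((π x + f x) • (σ + ε) + (φ1 x • θ1 + φ2 x • θ2)) * x := by
      rw [r1, map_mul, fDv, fD, cφ1.smul, cφ2.smul, ← mul_assoc, ← vl_add]
      congr 2
      rw [hε]
      module
    have πε : π (vl ε) = 0 := by
      rw [hε, cπ.vladd, cπ.smul, cπ.smul, a1, a2, c1, c2]
      ring
    have r3 : L ((D1.comp D2) (T (C0 x)))
        = vl ((π x + f x) • (σ + ε) + (φ1 x • θ1 + φ2 x • θ2)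
          + (φ1 x * dz + φ2 x * dk) • (-ε) + π x • (-ε)) * x := by
      have πA : π (vl ((π x + f x) • (σ + ε) + (φ1 x • θ1 + φ2 x • θ2)))
          = φ1 x * dz + φ2 x * dk := by
        rw [cπ.vladd ((π x + f x) • (σ + ε)) (φ1 x • θ1 + φ2 x • θ2), cπ.smul, cπ.vladd σ ε,
          a3, πε, cπ.vladd (φ1 x • θ1) (φ2 x • θ2), cπ.smul, cπ.smul, a1, a2]
        ring
      rw [r2, map_mul, Lv, πA, Lx, ← mul_assoc, ← vl_add]
    rw [lhs]
    change _ = L ((D1.comp D2) (T (C0 x)))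
    rw [r3, cfx]
    congr 2
    module
  have t1 : IsTame ((L.comp (D1.comp D2)).comp (T.comp C0)) := by
    rw [← key]
    exact tC0.comp tD
  exact tC0.cancel_right (tLD.cancel_left t1)

end MP15511a
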