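import Pool.Agent.Lib.MP_15511a_al.Two.Moves2

/-!
The third move in the free metabelian group.
-/

open scoped commutatorElement

namespace MP15511a

variable {n : ℕ}

theorem tv_congr {b b' : Fin n → EE 1 n} (σ : VV 1 n) (h : b = b') :
    alpha (Dc b) (Dc_crossed _) σ = alpha (Dc b') (Dc_crossed _) σ := by
  subst h; rfl

theorem Dc_cm (b : Fin n → EE 1 n) (i k : Fin n) :
    Dc b (vl (cm (gen 1 i) (gen 1 k))) = (1 - Te 1 n (gen 1 k)) * b i
      + (Te 1 n (gen 1 i) - 1) * b k := by
  rw [crossed_cm (Dc_crossed _), Dc_gen, Dc_gen]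

/-- third move: `δ_z ([q, z] + g [j, k])` -/
theorem move_three {C : Set (Fin n)} {s p q z j k : Fin n} (hs : s ∉ C) (hp : p ∉ C) (hsp : s ≠ p)
    (hz : z ∈ C) (hj : j ∈ C) (hk : k ∈ C) (hzj : z ≠ j) (hzk : z ≠ k) (hjk : j ≠ k)
    (hq : q ∉ C) (hqs : q ≠ s) (hqp : q ≠ p) {v : FreeAN 1 n}
    (hv : v ∈ HS C) (hu : UMC C v) {g : EE 1 n} (hg : g ∈ ES C) :
    (∃ φ, IsTame φ ∧ φ v = vl ((1 - Te 1 n (gen 1 z)) • (cm (gen 1 q) (gen 1 z)
      + g • cm (gen 1 j) (gen 1 k))) * v) ∧
    UMC (insert q C) (vl ((1 - Te 1 n (gen 1 z)) • (cm (gen 1 q) (gen 1 z)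
      + g • cm (gen 1 j) (gen 1 k))) * v) := by
  classical
  obtain ⟨b, hb, hbc, hbv⟩ := hu
  have ne : ∀ {a b : Fin n}, a ∈ C → b ∉ C → a ≠ b := fun ha hb h => hb (h ▸ ha)
  have hjq := ne hj hq
  have hjp := ne hj hp
  have hjs := ne hj hs
  have hzq := ne hz hq
  have hzp := ne hz hp
  have hzs := ne hz hs
  have hkq := ne hk hq
  have hkp := ne hk hp
  have hks := ne hk hs
  have hCq : C ⊆ insert q C := Set.subset_insert q C
  have hqm : q ∈ insert q C := Set.mem_insert q C
  set dz : EE 1 n := 1 - Te 1 n (gen 1 z) with hdz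
  set dk : EE 1 n := 1 - Te 1 n (gen 1 k) with hdk
  set dj : EE 1 n := 1 - Te 1 n (gen 1 j) with hdj
  set dq : EE 1 n := 1 - Te 1 n (gen 1 q) with hdq
  have ek : Te 1 n (gen 1 k) = 1 - dk := by rw [hdk]; ring
  have ez : Te 1 n (gen 1 z) = 1 - dz := by rw [hdz]; ring
  have ej : Te 1 n (gen 1 j) = 1 - dj := by rw [hdj]; ring
  have eq : Te 1 n (gen 1 q) = 1 - dq := by rw [hdq]; ring
  set σ1 : VV 1 n := cm (gen 1 q) (gen 1 z) with hσ1
  set σ2 : VV 1 n := cm (gen 1 j) (gen 1 k) with hσ2
  have v1 : ∀ b : Fin n → EE 1 n, Dc b (vl σ1) = dz * b q - dq * b z := by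
    intro b; rw [hσ1, Dc_cm, eq, ez]; ring
  have v2 : ∀ b : Fin n → EE 1 n, Dc b (vl σ2) = dk * b j - dj * b k := by
    intro b; rw [hσ2, Dc_cm, ej, ek]; ring
  have vσ : ∀ b : Fin n → EE 1 n, Dc b (vl (σ1 + g • σ2))
      = dz * b q - dq * b z + g * (dk * b j - dj * b k) := by
    intro b
    rw [(Dc_crossed b).vladd, (Dc_crossed b).smul, v1, v2]
  set bq : EE 1 n := dq * b z - g * (dk * b j - dj * b k) with hbq
  set b' : Fin n → EE 1 n := fun i => if i = q then bq else b i * dz with hb'
  have b'q : b' q = bq := if_pos rfl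
  have b'i : ∀ i, i ≠ q → b' i = b i * dz := fun i hi => if_neg hi
  have h0 : Dc b' (vl (σ1 + g • σ2)) = 0 := by
    rw [vσ, b'q, b'i z hzq, b'i j hjq, b'i k hkq, hbq]
    ring
  have h1 : Dc b' v = dz := by
    rw [Dc_eqOn (b' := fun i => b i * dz) (fun i hi => b'i i (fun h => hq (h ▸ hi))) hv,
      ← Dc_mul]
    dsimp only
    rw [hbv, one_mul]
  have m1 : vl σ1 ∈ HS ({q, z} : Set (Fin n)) :=
    cm_mem_HS (gen_mem_HS (by simp)) (gen_mem_HS (by simp))
  have m2 : vl σ2 ∈ HS ({j, k} : Set (Fin n)) :=
    cm_mem_HS (gen_mem_HS (by simp)) (gen_mem_HS (by simp))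
  have dzC : dz ∈ ES C := dl_mem (gen_mem_HS hz)
  have djC : dj ∈ ES C := dl_mem (gen_mem_HS hj)
  have dkC : dk ∈ ES C := dl_mem (gen_mem_HS hk)
  constructor
  · refine ⟨alpha (Dc b') (Dc_crossed _) (σ1 + g • σ2), ?_, ?_⟩
    · -- the pieces
      set bo : Fin n → EE 1 n := fun i => if i = q ∨ i = z ∨ i = j ∨ i = k then 0 else
        b i * dz - b z * (1 - Te 1 n (gen 1 i)) with hbo
      set bz : Fin n → EE 1 n := Pi.single j (-(b z * dj)) + Pi.single k (-(b z * dk)) with hbz
      set bj : Fin n → EE 1 n := Pi.single j (b j * dz) + Pi.single q (-(g * b j * dk)) with hbj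
      set bk : Fin n → EE 1 n := Pi.single k (b k * dz) + Pi.single q (-(-g * b k * dj)) with hbk
      have bo0 : ∀ i, (i = q ∨ i = z ∨ i = j ∨ i = k) → bo i = 0 := fun i hi => if_pos hi
      have bo1 : ∀ i, ¬(i = q ∨ i = z ∨ i = j ∨ i = k) →
          bo i = b i * dz - b z * (1 - Te 1 n (gen 1 i)) := fun i hi => if_neg hi
      have bzq : bz q = 0 := by
        rw [hbz, Pi.add_apply, Pi.single_eq_of_ne (Ne.symm hjq), Pi.single_eq_of_ne (Ne.symm hkq),
          add_zero]
      have bzz : bz z = 0 := by
        rw [hbz, Pi.add_apply, Pi.single_eq_of_ne hzj, Pi.single_eq_of_ne hzk, add_zero]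
      have bzj : bz j = -(b z * dj) := by
        rw [hbz, Pi.add_apply, Pi.single_eq_same, Pi.single_eq_of_ne hjk, add_zero]
      have bzk : bz k = -(b z * dk) := by
        rw [hbz, Pi.add_apply, Pi.single_eq_same, Pi.single_eq_of_ne (Ne.symm hjk), zero_add]
      have bzi : ∀ i, i ≠ j → i ≠ k → bz i = 0 := by
        intro i h h'
        rw [hbz, Pi.add_apply, Pi.single_eq_of_ne h, Pi.single_eq_of_ne h', add_zero]
      have bjj : bj j = b j * dz := by
        rw [hbj, Pi.add_apply, Pi.single_eq_same, Pi.single_eq_of_ne hjq, add_zero]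
      have bjq : bj q = -(g * b j * dk) := by
        rw [hbj, Pi.add_apply, Pi.single_eq_same, Pi.single_eq_of_ne (Ne.symm hjq), zero_add]
      have bji : ∀ i, i ≠ j → i ≠ q → bj i = 0 := by
        intro i h h'
        rw [hbj, Pi.add_apply, Pi.single_eq_of_ne h, Pi.single_eq_of_ne h', add_zero]
      have bkk : bk k = b k * dz := by
        rw [hbk, Pi.add_apply, Pi.single_eq_same, Pi.single_eq_of_ne hkq, add_zero]
      have bkq : bk q = -(-g * b k * dj) := by
        rw [hbk, Pi.add_apply, Pi.single_eq_same, Pi.single_eq_of_ne (Ne.symm hkq), zero_add]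
      have bki : ∀ i, i ≠ k → i ≠ q → bk i = 0 := by
        intro i h h'
        rw [hbk, Pi.add_apply, Pi.single_eq_of_ne h, Pi.single_eq_of_ne h', add_zero]
      have esum : b' = inn (b z) + (bo + (bz + (bj + bk))) := by
        funext i
        change b' i = (1 - Te 1 n (gen 1 i)) * b z + (bo i + (bz i + (bj i + bk i)))
        by_cases hiq : i = q
        · subst hiq
          rw [b'q, hbq, bo0 i (Or.inl rfl), bzq, bjq, bkq, ← hdq]
          ring
        · rw [b'i i hiq]
          by_cases hiz : i = z
          · subst hiz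
            rw [bo0 i (Or.inr (Or.inl rfl)), bzz, bji i hzj hzq, bki i hzk hzq, ← hdz]
            ring
          · by_cases hij : i = j
            · subst hij
              rw [bo0 i (Or.inr (Or.inr (Or.inl rfl))), bzj, bjj, bki i hjk hjq, ← hdj]
              ring
            · by_cases hik : i = k
              · subst hik
                rw [bo0 i (Or.inr (Or.inr (Or.inr rfl))), bzk, bji i (Ne.symm hjk) hkq, bkk, ← hdk]
                ring
              · rw [bo1 i (by simp [hiq, hiz, hij, hik]), bzi i hij hik, bji i hij hiq,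
                  bki i hik hiq]
                ring
      rw [tv_congr (σ1 + g • σ2) esum, ← tv_add _ _ _ (Dc_inn_vl _ _), ← tv_add bo, ← tv_add bz,
        ← tv_add bj]
      rotate_left
      · -- bj annihilates
        rw [vσ, bjq, bji z hzj hzq, bjj, bji k (Ne.symm hjk) hkq]
        ring
      · rw [vσ, bzq, bzz, bzj, bzk]
        ring
      · rw [vσ, bo0 q (Or.inl rfl), bo0 z (Or.inr (Or.inl rfl)),
          bo0 j (Or.inr (Or.inr (Or.inl rfl))), bo0 k (Or.inr (Or.inr (Or.inr rfl)))]
        ring
      -- split vectors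
      have memC : ∀ i : Fin n, 1 - Te 1 n (gen 1 i) ∈ ES (insert i C) := fun i =>
        dl_mem (gen_mem_HS (Set.mem_insert i C))
      have hiC : ∀ i : Fin n, ES C ≤ ES (insert i C) := fun i => ES_mono (Set.subset_insert i C)
      have boC : ∀ i, bo i ∈ ES (insert i C) := by
        intro i
        by_cases hi : i = q ∨ i = z ∨ i = j ∨ i = k
        · rw [bo0 i hi]; exact Subring.zero_mem _
        · rw [bo1 i hi]
          exact Subring.sub_mem _ (hiC i (Subring.mul_mem _ (hb i) dzC))
            (Subring.mul_mem _ (hiC i (hb z)) (memC i))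
      have bzC : ∀ i, bz i ∈ ES (insert i C) := by
        intro i
        apply hiC i
        by_cases hij : i = j
        · rw [hij, bzj]
          exact Subring.neg_mem _ (Subring.mul_mem _ (hb z) djC)
        · by_cases hik : i = k
          · rw [hik, bzk]
            exact Subring.neg_mem _ (Subring.mul_mem _ (hb z) dkC)
          · rw [bzi i hij hik]
            exact Subring.zero_mem _
      have tbo : IsTame (alpha (Dc bo) (Dc_crossed _) (σ1 + g • σ2)) := by
        rw [← alpha_comp_vec (Dc_crossed bo) σ1 (g • σ2) (by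
          rw [(Dc_crossed bo).smul, v2, bo0 j (Or.inr (Or.inr (Or.inl rfl))),
            bo0 k (Or.inr (Or.inr (Or.inr rfl)))]
          ring), tv_smul]
        apply IsTame.comp
        · apply tame_dis {q, z} σ1 m1
          · rintro i (hi | hi)
            · exact bo0 i (Or.inl hi)
            · exact bo0 i (Or.inr (Or.inl hi))
          · apply aux_var (C := C) hs hp hsp _ _ bo boC
            · rintro (h | h)
              · exact hqs h.symm
              · exact hzs (Set.mem_singleton_iff.1 h).symm
            · rintro (h | h)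
              · exact hqp h.symm
              · exact hzp (Set.mem_singleton_iff.1 h).symm
        · apply tame_dis {j, k} σ2 m2
          · rintro i (hi | hi)
            · rw [bo0 i (Or.inr (Or.inr (Or.inl hi))), zero_mul]
            · rw [bo0 i (Or.inr (Or.inr (Or.inr hi))), zero_mul]
          · apply aux_var (C := C) hs hp hsp _ _ _ (fun i => Subring.mul_mem _ (boC i) (hiC i hg))
            · rintro (h | h)
              · exact hjs h.symm
              · exact hks (Set.mem_singleton_iff.1 h).symm
            · rintro (h | h)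
              · exact hjp h.symm
              · exact hkp (Set.mem_singleton_iff.1 h).symm
      have tbz : IsTame (alpha (Dc bz) (Dc_crossed _) (σ1 + g • σ2)) := by
        rw [← alpha_comp_vec (Dc_crossed bz) σ1 (g • σ2) (by
          rw [(Dc_crossed bz).smul, v2, bzj, bzk]
          ring), tv_smul]
        apply IsTame.comp
        · apply tame_dis {q, z} σ1 m1
          · rintro i (hi | hi)
            · rw [hi]; exact bzq
            · rw [Set.mem_singleton_iff.1 hi]; exact bzz
          · apply aux_var (C := C) hs hp hsp _ _ bz bzC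
            · rintro (h | h)
              · exact hqs h.symm
              · exact hzs (Set.mem_singleton_iff.1 h).symm
            · rintro (h | h)
              · exact hqp h.symm
              · exact hzp (Set.mem_singleton_iff.1 h).symm
        · have e1 : (fun i => bz i * g) = inn (-(b z * g)) + fun i => (bz i * g
              + (1 - Te 1 n (gen 1 i)) * (b z * g)) := by
            funext i
            change bz i * g = (1 - Te 1 n (gen 1 i)) * (-(b z * g)) + (bz i * g
              + (1 - Te 1 n (gen 1 i)) * (b z * g))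
            ring
          rw [tv_congr σ2 e1, ← tv_add _ _ _ (Dc_inn_vl _ _)]
          apply (tame_inn _ σ2).comp
          apply tame_dis {j, k} σ2 m2
          · rintro i (hi | hi)
            · rw [hi, bzj, ← hdj]
              ring
            · rw [Set.mem_singleton_iff.1 hi, bzk, ← hdk]
              ring
          · apply aux_var (C := C) hs hp hsp _ _ _ (fun i => Subring.add_mem _
              (Subring.mul_mem _ (bzC i) (hiC i hg))
              (Subring.mul_mem _ (memC i) (hiC i (Subring.mul_mem _ (hb z) hg))))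
            · rintro (h | h)
              · exact hjs h.symm
              · exact hks (Set.mem_singleton_iff.1 h).symm
            · rintro (h | h)
              · exact hjp h.symm
              · exact hkp (Set.mem_singleton_iff.1 h).symm
      have tbj : IsTame (alpha (Dc bj) (Dc_crossed _) (σ1 + g • σ2)) :=
        tame_key hs hp hsp hz hj hk hzj hzk hjk hq hqs hqp (hb j) hg
      have tbk : IsTame (alpha (Dc bk) (Dc_crossed _) (σ1 + g • σ2)) := by
        have h2 := tame_key hs hp hsp hz hk hj hzk hzj (Ne.symm hjk) hq hqs hqp (hb k)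
          (Subring.neg_mem _ hg)
        have h3 : g • σ2 = (-g) • cm (gen 1 k) (gen 1 j) := by
          rw [hσ2, cm_symm (gen 1 j) (gen 1 k), smul_neg, neg_smul]
        rw [h3]
        exact h2
      exact (tame_inn _ _).comp (tbo.comp (tbz.comp (tbj.comp tbk)))
    · rw [alpha_app, h1]
  · rw [← h1]
    have hgC := ES_mono hCq hg
    have hbqC : bq ∈ ES (insert q C) := by
      rw [hbq]
      exact Subring.sub_mem _ (Subring.mul_mem _ (dl_mem (gen_mem_HS hqm)) (ES_mono hCq (hb z)))
        (Subring.mul_mem _ hgC (ES_mono hCq (Subring.sub_mem _ (Subring.mul_mem _ dkC (hb j))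
          (Subring.mul_mem _ djC (hb k)))))
    have hgen : ∀ e ∈ ES (insert q C), ∀ w : VV 1 n, vl w ∈ HS (insert q C) →
        vl (e • w) ∈ HS (insert q C) := by
      intro e he
      refine ES_ind (P := fun e => ∀ w : VV 1 n, vl w ∈ HS (insert q C) →
        vl (e • w) ∈ HS (insert q C)) ?_ ?_ ?_ ?_ he
      · intro x hx w hw
        rw [vl_smul_Te]
        exact Subgroup.mul_mem _ (Subgroup.mul_mem _ hx hw) (Subgroup.inv_mem _ hx)
      · intro w _
        rw [zero_smul, vl_zero]
        exact Subgroup.one_mem _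
      · intro a b ha hb w hw
        rw [add_smul, vl_add]
        exact Subgroup.mul_mem _ (ha w hw) (hb w hw)
      · intro a ha w hw
        rw [neg_smul, vl_neg]
        exact Subgroup.inv_mem _ (ha w hw)
    apply um_move b b' (σ1 + g • σ2) (fun k => ES_mono hCq (hb k)) _
      (fun k hk => hbc k (fun h => hk (hCq h))) _ _ hbv h0
    · intro i
      by_cases hi : i = q
      · rw [hi, b'q]; exact hbqC
      · rw [b'i i hi]
        exact ES_mono hCq (Subring.mul_mem _ (hb i) dzC)
    · intro i hi
      rw [b'i i (fun h => hi (h ▸ hqm)), hbc i (fun h => hi (hCq h)), zero_mul]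
    · rw [vl_add]
      refine Subgroup.mul_mem _ (HS_mono ?_ m1) (hgen g hgC _ (HS_mono ?_ m2))
      · rintro i (hi | hi)
        · rw [hi]; exact hqm
        · rw [Set.mem_singleton_iff.1 hi]; exact hCq hz
      · rintro i (hi | hi)
        · rw [hi]; exact hCq hj
        · rw [Set.mem_singleton_iff.1 hi]; exact hCq hk

end MP15511a
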