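import Pool.Agent.Lib.MP_15511a_al.Two.Second

/-!
Polarisation: every element of `[γ_{k+1}(F_m), γ_{k+1}(F_m)]` lies in YY.
-/

open scoped commutatorElement

namespace MP15511a

variable {n : ℕ}

open Classical in
/-- `x_j ↦ x_j x` for j in T -/
noncomputable def Th (x : Fin n) (T : Set (Fin n)) (hx : x ∉ T) :
    FreeGroup (Fin n) ≃* FreeGroup (Fin n) :=
  mulAut (fun j => if j ∈ T then FreeGroup.of x else 1) Tᶜ
    (fun _ hj => if_neg hj)
    (fun j => by
      split_ifs
      · exact of_mem_FB hx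
      · exact Subgroup.one_mem _)

theorem Th_mem {x : Fin n} {T : Set (Fin n)} (hx : x ∉ T) {j : Fin n} (hj : j ∈ T) :
    Th x T hx (FreeGroup.of j) = FreeGroup.of j * FreeGroup.of x := by
  rw [Th, mulAut_of, if_pos hj]

theorem Th_not {x : Fin n} {T : Set (Fin n)} (hx : x ∉ T) {j : Fin n} (hj : j ∉ T) :
    Th x T hx (FreeGroup.of j) = FreeGroup.of j := by
  rw [Th, mulAut_of, if_neg hj, mul_one]

/-- the generating set -/
def VG (k : ℕ) (B S : Set (Fin n)) (x : Fin n) : Set (FreeGroup (Fin n)) :=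
  (gm (FreeGroup (Fin n)) (k + 1) : Set _) ∪
    {y | ∃ (T : Set (Fin n)) (hx : x ∉ T), T ⊆ S ∧
      ∃ h ∈ (FB ((B ∪ S) \ {x})).lowerCentralSeries k, y = Th x T hx h}

theorem VG_le (k : ℕ) (B S : Set (Fin n)) (x : Fin n) :
    Subgroup.closure (VG k B S x) ≤ gm (FreeGroup (Fin n)) k := by
  rw [Subgroup.closure_le]
  rintro y (hy | ⟨T, hx, _, h, hh, rfl⟩)
  · exact Subgroup.lowerCentralSeries_antitone _ (Nat.le_succ k) hy
  · exact lcs_map (Th x T hx).toMonoidHom k (Subgroup.lowerCentralSeries_mono k le_top hh)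

theorem polar (B : Set (Fin n)) (x : Fin n) (hxB : x ∈ B) (sv : ℕ → Fin n) :
    ∀ k, (∀ i ≤ k, sv i ∉ B) → (∀ i ≤ k, ∀ j ≤ k, sv i = sv j → i = j) →
      (FB B).lowerCentralSeries k ≤ Subgroup.closure (VG k B (sv '' {i | i ≤ k}) x) := by
  intro k
  induction k with
  | zero =>
    intro h1 _
    rw [Subgroup.lowerCentralSeries_zero, Subgroup.closure_le]
    rintro _ ⟨y, hy, rfl⟩
    have hs0 : sv 0 ∉ B := h1 0 le_rfl
    have hsx : sv 0 ≠ x := fun h => hs0 (h ▸ hxB)
    by_cases hyx : y = x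
    · subst hyx
      have e1 : FreeGroup.of y = (FreeGroup.of (sv 0))⁻¹
          * (FreeGroup.of (sv 0) * FreeGroup.of y) := by group
      rw [e1]
      refine Subgroup.mul_mem _ (Subgroup.inv_mem _ (Subgroup.subset_closure (Or.inr ?_)))
        (Subgroup.subset_closure (Or.inr ?_))
      · refine ⟨∅, by simp, Set.empty_subset _, FreeGroup.of (sv 0), ?_, ?_⟩
        · rw [Subgroup.lowerCentralSeries_zero]
          exact of_mem_FB ⟨Or.inr ⟨0, Nat.le_refl 0, rfl⟩, hsx⟩
        · rw [Th_not _ (by simp)]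
      · refine ⟨{sv 0}, fun h => hsx (Set.mem_singleton_iff.1 h).symm, ?_, FreeGroup.of (sv 0),
          ?_, ?_⟩
        · rintro j hj
          rw [Set.mem_singleton_iff.1 hj]
          exact ⟨0, Nat.le_refl 0, rfl⟩
        · rw [Subgroup.lowerCentralSeries_zero]
          exact of_mem_FB ⟨Or.inr ⟨0, Nat.le_refl 0, rfl⟩, hsx⟩
        · rw [Th_mem _ (Set.mem_singleton _)]
    · refine Subgroup.subset_closure (Or.inr ⟨∅, by simp, Set.empty_subset _,
        FreeGroup.of y, ?_, ?_⟩)
      · rw [Subgroup.lowerCentralSeries_zero]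
        exact of_mem_FB ⟨Or.inl hy, hyx⟩
      · rw [Th_not _ (by simp)]
  | succ k ih =>
    intro h1 h2
    have h3 := ih (fun i hi => h1 i (Nat.le_succ_of_le hi))
      (fun i hi j hj => h2 i (Nat.le_succ_of_le hi) j (Nat.le_succ_of_le hj))
    set S' : Set (Fin n) := sv '' {i | i ≤ k} with hS'
    set S : Set (Fin n) := sv '' {i | i ≤ k + 1} with hS
    set s : Fin n := sv (k + 1) with hs
    have hSS : S' ⊆ S := Set.image_mono (fun i hi => Nat.le_succ_of_le hi)
    have hsS : s ∈ S := ⟨k + 1, Nat.le_refl (k + 1), rfl⟩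
    have hsB : s ∉ B := h1 (k + 1) le_rfl
    have hsx : s ≠ x := fun h => hsB (h ▸ hxB)
    have hsS' : s ∉ S' := by
      rintro ⟨i, hi, h⟩
      have hi' : i ≤ k := hi
      have h4 := h2 i (Nat.le_succ_of_le hi') (k + 1) le_rfl h
      omega
    have hS'B : ∀ y ∈ B, y ∉ S' := by
      rintro y hy ⟨i, hi, h⟩
      exact h1 i (Nat.le_succ_of_le hi) (h ▸ hy)
    set U := Subgroup.closure (VG (k + 1) B S x) with hU
    have hle : gm (FreeGroup (Fin n)) (k + 1 + 1) ≤ U :=
      fun y hy => Subgroup.subset_closure (Or.inl hy)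
    have hUn : U.Normal := normal_of_between U hle (VG_le _ _ _ _)
    rw [Subgroup.lowerCentralSeries_succ, Subgroup.commutator_le]
    intro a ha b hb
    refine comm_closure_left U b (VG k B S' x) ?_ a (h3 ha)
    rintro a (ha | ⟨T, hx, hT, h, hh, rfl⟩)
    · exact hle (comm_gm ha b)
    · have hsT : s ∉ T := fun h => hsS' (hT h)
      have hh' : h ∈ (FB ((B ∪ S) \ {x})).lowerCentralSeries k := by
        refine Subgroup.lowerCentralSeries_mono k (FB_mono ?_) hh
        rintro j ⟨hj | hj, hjx⟩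
        · exact ⟨Or.inl hj, hjx⟩
        · exact ⟨Or.inr (hSS hj), hjx⟩
      have hgen : ∀ y ∈ (B ∪ S) \ {x}, ⁅h, FreeGroup.of y⁆
          ∈ (FB ((B ∪ S) \ {x})).lowerCentralSeries (k + 1) := by
        intro y hy
        exact Subgroup.commutator_mem_commutator hh' (of_mem_FB hy)
      refine comm_closure_right U _ (FreeGroup.of '' B) ?_ b hb
      rintro _ ⟨y, hy, rfl⟩
      by_cases hyx : y = x
      · subst hyx
        have m1 : ⁅Th y T hx h, FreeGroup.of s⁆ ∈ U := by
          refine Subgroup.subset_closure (Or.inr ⟨T, hx, hT.trans hSS, ⁅h, FreeGroup.of s⁆,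
            hgen s ⟨Or.inr hsS, hsx⟩, ?_⟩)
          rw [map_commutatorElement, Th_not hx hsT]
        have hxT' : y ∉ insert s T := by
          intro h
          rcases Set.mem_insert_iff.1 h with h | h
          · exact hsx h.symm
          · exact hx h
        have m2 : ⁅Th y T hx h, FreeGroup.of s * FreeGroup.of y⁆ ∈ U := by
          refine Subgroup.subset_closure (Or.inr ⟨insert s T, hxT', ?_, ⁅h, FreeGroup.of s⁆,
            hgen s ⟨Or.inr hsS, hsx⟩, ?_⟩)
          · intro j hj
            rcases Set.mem_insert_iff.1 hj with hj | hj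
            · rw [hj]; exact hsS
            · exact hSS (hT hj)
          · rw [map_commutatorElement, Th_mem hxT' (Set.mem_insert s T)]
            congr 1
            -- the two automorphisms agree on h
            have hagree : ∀ g ∈ FB ((B ∪ S') \ {y}), Th y T hx g = Th y (insert s T) hxT' g := by
              intro g hg
              induction hg using Subgroup.closure_induction with
              | mem g hg =>
                obtain ⟨j, ⟨hj, hjy⟩, rfl⟩ := hg
                have hjs : j ≠ s := by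
                  intro h
                  rcases hj with hj | hj
                  · exact hsB (h ▸ hj)
                  · exact hsS' (h ▸ hj)
                by_cases hjT : j ∈ T
                · rw [Th_mem hx hjT, Th_mem hxT' (Set.mem_insert_of_mem s hjT)]
                · rw [Th_not hx hjT, Th_not hxT' (by
                    intro h
                    rcases Set.mem_insert_iff.1 h with h | h
                    · exact hjs h
                    · exact hjT h)]
              | one => rw [map_one, map_one]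
              | mul g g' _ _ h4 h5 => rw [map_mul, map_mul, h4, h5]
              | inv g _ h4 => rw [map_inv, map_inv, h4]
            exact hagree h (Subgroup.lowerCentralSeries_le_self _ _ hh)
        have e1 : FreeGroup.of y = (FreeGroup.of s)⁻¹ * (FreeGroup.of s * FreeGroup.of y) := by
          group
        refine comm_closure_right U _ {FreeGroup.of s, FreeGroup.of s * FreeGroup.of y} ?_ _ ?_
        · rintro b (hb | hb)
          · rw [hb]; exact m1
          · rw [Set.mem_singleton_iff.1 hb]; exact m2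
        · rw [e1]
          exact Subgroup.mul_mem _ (Subgroup.inv_mem _ (Subgroup.subset_closure (by simp)))
            (Subgroup.subset_closure (by simp))
      · refine Subgroup.subset_closure (Or.inr ⟨T, hx, hT.trans hSS, ⁅h, FreeGroup.of y⁆,
          hgen y ⟨Or.inl hy, hyx⟩, ?_⟩)
        rw [map_commutatorElement, Th_not hx (fun h => hS'B y hy (hT h))]

theorem KK_le_YY (k : ℕ) (B : Set (Fin n)) (x : Fin n) (hxB : x ∈ B) (sv : ℕ → Fin n) (t : Fin n)
    (h1 : ∀ i ≤ k, sv i ∉ B) (h2 : ∀ i ≤ k, ∀ j ≤ k, sv i = sv j → i = j) (htB : t ∉ B)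
    (hts : ∀ i ≤ k, sv i ≠ t) :
    ⁅(FB B).lowerCentralSeries k, (FB B).lowerCentralSeries k⁆ ≤ YY k x := by
  have hYn : (YY k x).Normal := normal_between_LL _ (LL_le_YY k x) (YY_le k x)
  have hxt : x ≠ t := fun h => htB (h ▸ hxB)
  rw [Subgroup.commutator_le]
  intro g hg h hh
  have hgm : g ∈ gm (FreeGroup (Fin n)) k := Subgroup.lowerCentralSeries_mono k le_top hg
  have hgB : g ∈ FB B := Subgroup.lowerCentralSeries_le_self _ _ hg
  refine comm_closure_right (YY k x) g (VG k B (sv '' {i | i ≤ k}) x) ?_ h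
    (polar B x hxB sv k h1 h2 hh)
  rintro a (ha | ⟨T, hx, hT, h', hh', rfl⟩)
  · exact LL_le_YY k x (LL_mem_symm hgm ha)
  · have hTB : ∀ j ∈ B, j ∉ T := by
      intro j hj hjT
      obtain ⟨i, hi, h⟩ := hT hjT
      exact h1 i hi (h ▸ hj)
    have e1 : Th x T hx g = g := aut_fix _ (S := B) (fun j hj => Th_not hx (hTB j hj)) hgB
    have hBt : B ⊆ {j : Fin n | j ≠ t} := fun j hj h => htB (h ▸ hj)
    have hBS : (B ∪ sv '' {i | i ≤ k}) \ {x} ⊆ {j : Fin n | j ≠ x ∧ j ≠ t} := by
      rintro j ⟨hj | hj, hjx⟩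
      · exact ⟨hjx, hBt hj⟩
      · obtain ⟨i, hi, rfl⟩ := hj
        exact ⟨hjx, hts i hi⟩
    have h3 : ⁅g, h'⁆ ∈ YY k x :=
      YY_basic k x t hxt hgm (Subgroup.lowerCentralSeries_mono k le_top hh')
        (FB_mono hBt hgB) (FB_mono hBS (Subgroup.lowerCentralSeries_le_self _ _ hh'))
    have h4 := YY_inv k x (Th x T hx) (Th_not hx hx) h3
    rwa [map_commutatorElement, e1] at h4

/-- the map `F_m → F_N` -/
def fe {m N : ℕ} (h : m ≤ N) : FreeGroup (Fin m) →* FreeGroup (Fin N) :=
  FreeGroup.lift (fun i => FreeGroup.of (Fin.castLE h i))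

theorem fe_of {m N : ℕ} (h : m ≤ N) (i : Fin m) :
    fe h (FreeGroup.of i) = FreeGroup.of (Fin.castLE h i) := by simp [fe]

theorem fe_top {m N : ℕ} (h : m ≤ N) :
    (⊤ : Subgroup (FreeGroup (Fin m))).map (fe h) ≤ FB {j : Fin N | j.val < m} := by
  rw [← FreeGroup.closure_range_of, MonoidHom.map_closure, Subgroup.closure_le]
  rintro _ ⟨_, ⟨i, rfl⟩, rfl⟩
  rw [fe_of]
  exact of_mem_FB i.2

theorem fe_mem {m N : ℕ} (h : m ≤ N) (g : FreeGroup (Fin m)) : fe h g ∈ FB {j : Fin N | j.val < m} :=
  fe_top h ⟨g, Subgroup.mem_top g, rfl⟩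

/-- the second step -/
theorem second_step {m N : ℕ} (k : ℕ) (h : m ≤ N) (hN : m + k + 2 ≤ N) (i : Fin m)
    (b : FreeGroup (Fin m)) (hb : b ∈ KK (FreeGroup (Fin m)) k) :
    ∃ (Φ : FreeGroup (Fin N) ≃* FreeGroup (Fin N)), ∃ u ∈ LL (FreeGroup (Fin N)) k,
      Φ (fe h (b * FreeGroup.of i)) = u * FreeGroup.of (Fin.castLE h i) := by
  set B : Set (Fin N) := {j : Fin N | j.val < m} with hB
  have hbB : fe h b ∈ ⁅(FB B).lowerCentralSeries k, (FB B).lowerCentralSeries k⁆ := by
    have h1 : fe h b ∈ (KK (FreeGroup (Fin m)) k).map (fe h) := ⟨b, hb, rfl⟩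
    rw [KK, Subgroup.map_commutator, gm, Subgroup.map_lowerCentralSeries] at h1
    exact Subgroup.commutator_mono (Subgroup.lowerCentralSeries_mono k (fe_top h))
      (Subgroup.lowerCentralSeries_mono k (fe_top h)) h1
  set sv : ℕ → Fin N := fun j => if hj : m + j < N then ⟨m + j, hj⟩ else ⟨0, by omega⟩ with hsv
  have svv : ∀ j ≤ k, (sv j).val = m + j := by
    intro j hj
    have h2 : m + j < N := by omega
    simp only [hsv, dif_pos h2]
  have h3 := KK_le_YY k B (Fin.castLE h i) i.2 sv ⟨m + k + 1, by omega⟩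
    (by
      intro j hj h4
      have h5 : (sv j).val < m := h4
      rw [svv j hj] at h5
      omega)
    (by
      intro j hj j' hj' h4
      have h5 := congrArg Fin.val h4
      rw [svv j hj, svv j' hj'] at h5
      omega)
    (by
      intro h4
      have h5 : m + k + 1 < m := h4
      omega)
    (by
      intro j hj h4
      have h5 := congrArg Fin.val h4
      rw [svv j hj] at h5
      simp only at h5
      omega) hbB
  obtain ⟨-, Φ, -, h4⟩ := h3
  rw [QuotientGroup.eq] at h4
  have h6 : fe h (b * FreeGroup.of i) = fe h b * FreeGroup.of (Fin.castLE h i) := by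
    rw [map_mul, fe_of]
  have h5 := comm_lcs_map Φ.symm.toMonoidHom (k + 1) k h4
  change Φ.symm _ ∈ LL (FreeGroup (Fin N)) k at h5
  rw [map_mul, map_inv, Φ.symm_apply_apply] at h5
  set w := Φ.symm (fe h b * FreeGroup.of (Fin.castLE h i)) with hw
  refine ⟨Φ.symm, w * (FreeGroup.of (Fin.castLE h i))⁻¹, ?_, ?_⟩
  · have e1 : w * (FreeGroup.of (Fin.castLE h i))⁻¹ = FreeGroup.of (Fin.castLE h i)
        * ((FreeGroup.of (Fin.castLE h i))⁻¹ * w) * (FreeGroup.of (Fin.castLE h i))⁻¹ := by group
    rw [e1]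
    exact (inferInstance : (LL (FreeGroup (Fin N)) k).Normal).conj_mem _ h5 _
  · rw [h6, ← hw, inv_mul_cancel_right]

end MP15511a
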