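import Pool.Agent.Lib.MP_15511a_al.Two.FAut

/-!
Elements of `[γ_{k+1}, γ_{k+1}] x` can be moved to `[γ_{k+2}, γ_{k+1}] x` by automorphisms of
free groups of larger rank.
-/

open scoped commutatorElement

namespace MP15511a

section general

variable (G : Type*) [Group G] (k : ℕ)

/-- `[γ_{k+2}, γ_{k+1}]` -/
abbrev LL : Subgroup G := ⁅gm G (k + 1), gm G k⁆

/-- `[γ_{k+1}, γ_{k+1}]` -/
abbrev KK : Subgroup G := ⁅gm G k, gm G k⁆

variable {G k}

theorem LL_le_KK : LL G k ≤ KK G k :=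
  Subgroup.commutator_mono (Subgroup.lowerCentralSeries_antitone _ (Nat.le_succ k)) le_rfl

/-- elements of `γ_{k+2}` and `γ_{k+1}` commute modulo LL -/
theorem LL_comm {a b : G} (ha : a ∈ gm G (k + 1)) (hb : b ∈ gm G k) :
    (QuotientGroup.mk a : G ⧸ LL G k) * QuotientGroup.mk b
      = QuotientGroup.mk b * QuotientGroup.mk a := by
  have h1 : ⁅a, b⁆ ∈ LL G k := Subgroup.commutator_mem_commutator ha hb
  have h2 : ⁅(QuotientGroup.mk a : G ⧸ LL G k), (QuotientGroup.mk b : G ⧸ LL G k)⁆ = 1 :=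
    (QuotientGroup.eq_one_iff _).2 h1
  exact commutatorElement_eq_one_iff_mul_comm.1 h2

theorem LL_mem_symm {a b : G} (ha : a ∈ gm G k) (hb : b ∈ gm G (k + 1)) : ⁅a, b⁆ ∈ LL G k := by
  have h := Subgroup.inv_mem _ (Subgroup.commutator_mem_commutator hb ha : ⁅b, a⁆ ∈ LL G k)
  rwa [commutatorElement_inv] at h

/-- commutators of elements of `γ_{k+1}` modulo LL depend on the classes modulo `γ_{k+2}` -/
theorem LL_class {g h g1 h1 : G} (hg : g ∈ gm G k) (hh : h ∈ gm G k) (hg1 : g1 ∈ gm G (k + 1))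
    (hh1 : h1 ∈ gm G (k + 1)) :
    (QuotientGroup.mk ⁅g1 * g, h1 * h⁆ : G ⧸ LL G k) = QuotientGroup.mk ⁅g, h⁆ := by
  have c1 : ∀ x ∈ gm G (k + 1), ∀ y ∈ gm G k, Commute (QuotientGroup.mk x : G ⧸ LL G k)
      (QuotientGroup.mk y) := fun x hx y hy => LL_comm hx hy
  have hk1 : gm G (k + 1) ≤ gm G k := Subgroup.lowerCentralSeries_antitone _ (Nat.le_succ k)
  have a1 := c1 g1 hg1 g hg
  have a2 := c1 g1 hg1 h hh
  have a3 := c1 g1 hg1 h1 (hk1 hh1)
  have a4 := c1 h1 hh1 g hg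
  have a5 := c1 h1 hh1 h hh
  change (⁅((QuotientGroup.mk g1 : G ⧸ LL G k) * (QuotientGroup.mk g : G ⧸ LL G k)),
    ((QuotientGroup.mk h1 : G ⧸ LL G k) * (QuotientGroup.mk h : G ⧸ LL G k))⁆ : G ⧸ LL G k)
    = ⁅(QuotientGroup.mk g : G ⧸ LL G k), (QuotientGroup.mk h : G ⧸ LL G k)⁆
  generalize (QuotientGroup.mk g : G ⧸ LL G k) = G0 at *
  generalize (QuotientGroup.mk g1 : G ⧸ LL G k) = G1 at *
  generalize (QuotientGroup.mk h : G ⧸ LL G k) = H0 at *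
  generalize (QuotientGroup.mk h1 : G ⧸ LL G k) = H1 at *
  have b1 : Commute G1 (H1 * H0) := a3.mul_right a2
  have b2 : Commute H1 G0 := a4
  have e1 : ⁅G1 * G0, H1 * H0⁆ = ⁅G0, H1 * H0⁆ := by
    have h2 : ⁅G1 * G0, H1 * H0⁆ = G1 * ⁅G0, H1 * H0⁆ * G1⁻¹ * ⁅G1, H1 * H0⁆ := by
      simp only [commutatorElement_def]; group
    have h3 : ⁅G1, H1 * H0⁆ = 1 := commutatorElement_eq_one_iff_commute.2 b1
    have h4 : Commute G1 ⁅G0, H1 * H0⁆ := by
      rw [commutatorElement_def]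
      exact ((a1.mul_right b1).mul_right a1.inv_right).mul_right b1.inv_right
    rw [h2, h3, mul_one, h4.eq, mul_inv_cancel_right]
  have e2 : ⁅G0, H1 * H0⁆ = ⁅G0, H0⁆ := by
    have h2 : ⁅G0, H1 * H0⁆ = ⁅G0, H1⁆ * (H1 * ⁅G0, H0⁆ * H1⁻¹) := by
      simp only [commutatorElement_def]; group
    have h3 : ⁅G0, H1⁆ = 1 := commutatorElement_eq_one_iff_commute.2 b2.symm
    have h4 : Commute H1 ⁅G0, H0⁆ := by
      rw [commutatorElement_def]
      exact ((a4.mul_right a5).mul_right a4.inv_right).mul_right a5.inv_right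
    rw [h2, h3, one_mul, h4.eq, mul_inv_cancel_right]
  rw [e1, e2]

/-- elements of `[γ_{k+1}, γ_{k+1}]` are fixed modulo LL by maps which are trivial on the
abelianisation -/
theorem LL_fix {Φ : G →* G} (hΦ : IA Φ) {b : G} (hb : b ∈ KK G k) :
    (QuotientGroup.mk (Φ b) : G ⧸ LL G k) = QuotientGroup.mk b := by
  rw [KK, Subgroup.commutator_def] at hb
  induction hb using Subgroup.closure_induction with
  | mem x hx =>
    obtain ⟨g, hg, h, hh, rfl⟩ := hx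
    have e1 : Φ g = (Φ g * g⁻¹) * g := by group
    have e2 : Φ h = (Φ h * h⁻¹) * h := by group
    rw [map_commutatorElement, e1, e2]
    exact LL_class hg hh (hΦ.gm k g hg) (hΦ.gm k h hh)
  | one => rw [map_one]
  | mul x y _ _ hx hy =>
    rw [map_mul, QuotientGroup.mk_mul, hx, hy, QuotientGroup.mk_mul]
  | inv x _ hx => rw [map_inv, QuotientGroup.mk_inv, hx, QuotientGroup.mk_inv]

theorem ia_conj (g : G) : IA (MulAut.conj g).toMonoidHom := by
  intro x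
  change g * x * g⁻¹ * x⁻¹ ∈ gm G 1
  exact comm_gm (k := 0) (Subgroup.mem_top g) x

/-- LL ≤ U ≤ KK implies that U is normal -/
theorem normal_between_LL (U : Subgroup G) (h1 : LL G k ≤ U) (h2 : U ≤ KK G k) : U.Normal := by
  refine ⟨fun a ha g => ?_⟩
  have h3 := LL_fix (k := k) (ia_conj g) (h2 ha)
  change (QuotientGroup.mk (g * a * g⁻¹) : G ⧸ LL G k) = QuotientGroup.mk a at h3
  rw [eq_comm, QuotientGroup.eq] at h3
  have h4 : g * a * g⁻¹ = a * (a⁻¹ * (g * a * g⁻¹)) := by group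
  rw [h4]
  exact U.mul_mem ha (h1 h3)

end general

variable {n : ℕ}

/-- the elements b of KK such that x can be mapped to b x modulo LL -/
def YY (k : ℕ) (x : Fin n) : Subgroup (FreeGroup (Fin n)) where
  carrier := {b | b ∈ KK (FreeGroup (Fin n)) k ∧
    ∃ Φ : FreeGroup (Fin n) ≃* FreeGroup (Fin n), IAu Φ ∧
      (QuotientGroup.mk (Φ (FreeGroup.of x)) : FreeGroup (Fin n) ⧸ LL (FreeGroup (Fin n)) k)
        = QuotientGroup.mk (b * FreeGroup.of x)}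
  mul_mem' := by
    rintro b b' ⟨hb, Φ, hΦ, h1⟩ ⟨hb', Φ', hΦ', h1'⟩
    refine ⟨Subgroup.mul_mem _ hb hb', Φ.trans Φ', hΦ.trans hΦ', ?_⟩
    change (QuotientGroup.mk (Φ' (Φ (FreeGroup.of x))) : _ ⧸ LL (FreeGroup (Fin n)) k) = _
    have h2 : (QuotientGroup.mk (Φ' (Φ (FreeGroup.of x))) : _ ⧸ LL (FreeGroup (Fin n)) k)
        = QuotientGroup.mk (Φ' (b * FreeGroup.of x)) := by
      rw [QuotientGroup.eq] at h1 ⊢
      have h3 := comm_lcs_map Φ'.toMonoidHom (k + 1) k h1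
      change Φ' _ ∈ _ at h3
      rwa [map_mul, map_inv] at h3
    have h4 : (QuotientGroup.mk (Φ' b) : _ ⧸ LL (FreeGroup (Fin n)) k) = QuotientGroup.mk b :=
      LL_fix (Φ := Φ'.toMonoidHom) hΦ' hb
    rw [h2, map_mul, QuotientGroup.mk_mul, h4, h1', ← QuotientGroup.mk_mul, mul_assoc]
  one_mem' := by
    refine ⟨Subgroup.one_mem _, MulEquiv.refl _, ?_, ?_⟩
    · intro g
      change g * g⁻¹ ∈ _
      rw [mul_inv_cancel]
      exact Subgroup.one_mem _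
    · rw [one_mul]; rfl
  inv_mem' := by
    rintro b ⟨hb, Φ, hΦ, h1⟩
    refine ⟨Subgroup.inv_mem _ hb, Φ.symm, hΦ.symm, ?_⟩
    have h2 : (QuotientGroup.mk (Φ.symm (Φ (FreeGroup.of x))) : _ ⧸ LL (FreeGroup (Fin n)) k)
        = QuotientGroup.mk (Φ.symm (b * FreeGroup.of x)) := by
      rw [QuotientGroup.eq] at h1 ⊢
      have h3 := comm_lcs_map Φ.symm.toMonoidHom (k + 1) k h1
      change Φ.symm _ ∈ _ at h3
      rwa [map_mul, map_inv] at h3
    have h4 : (QuotientGroup.mk (Φ.symm b) : _ ⧸ LL (FreeGroup (Fin n)) k) = QuotientGroup.mk b :=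
      LL_fix (Φ := Φ.symm.toMonoidHom) hΦ.symm hb
    rw [Φ.symm_apply_apply, map_mul, QuotientGroup.mk_mul, h4] at h2
    rw [QuotientGroup.mk_mul, QuotientGroup.mk_inv, h2, inv_mul_cancel_left]

theorem LL_le_YY (k : ℕ) (x : Fin n) : LL (FreeGroup (Fin n)) k ≤ YY k x := by
  intro b hb
  refine ⟨LL_le_KK hb, MulEquiv.refl _, ?_, ?_⟩
  · intro g
    change g * g⁻¹ ∈ _
    rw [mul_inv_cancel]
    exact Subgroup.one_mem _
  · have h1 : (QuotientGroup.mk b : FreeGroup (Fin n) ⧸ LL (FreeGroup (Fin n)) k) = 1 :=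
      (QuotientGroup.eq_one_iff _).2 hb
    rw [QuotientGroup.mk_mul, h1, one_mul]
    rfl

theorem YY_le (k : ℕ) (x : Fin n) : YY k x ≤ KK (FreeGroup (Fin n)) k := fun _ hb => hb.1

/-- YY is invariant under the stabiliser of x -/
theorem YY_inv (k : ℕ) (x : Fin n) (Θ : FreeGroup (Fin n) ≃* FreeGroup (Fin n))
    (hΘ : Θ (FreeGroup.of x) = FreeGroup.of x) {b : FreeGroup (Fin n)} (hb : b ∈ YY k x) :
    Θ b ∈ YY k x := by
  obtain ⟨hb, Φ, hΦ, h1⟩ := hb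
  refine ⟨comm_lcs_map Θ.toMonoidHom k k hb, (Θ.symm.trans Φ).trans Θ, hΦ.conj Θ, ?_⟩
  have h2 : Θ.symm (FreeGroup.of x) = FreeGroup.of x := by
    rw [MulEquiv.symm_apply_eq, hΘ]
  change (QuotientGroup.mk (Θ (Φ (Θ.symm (FreeGroup.of x)))) : _ ⧸ LL (FreeGroup (Fin n)) k) = _
  rw [h2]
  rw [QuotientGroup.eq] at h1 ⊢
  have h3 := comm_lcs_map Θ.toMonoidHom (k + 1) k h1
  change Θ _ ∈ _ at h3
  rwa [map_mul, map_inv, map_mul, hΘ] at h3

/-- the basic case -/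
theorem YY_basic (k : ℕ) (x t : Fin n) (hxt : x ≠ t) {g h : FreeGroup (Fin n)}
    (hg : g ∈ gm (FreeGroup (Fin n)) k) (hh : h ∈ gm (FreeGroup (Fin n)) k)
    (hgt : g ∈ FB {j | j ≠ t}) (hht : h ∈ FB {j | j ≠ x ∧ j ≠ t}) : ⁅g, h⁆ ∈ YY k x := by
  have hk1 : gm (FreeGroup (Fin n)) (k + 1) ≤ gm (FreeGroup (Fin n)) k :=
    Subgroup.lowerCentralSeries_antitone _ (Nat.le_succ k)
  set T : FreeGroup (Fin n) := FreeGroup.of t with hT
  have hhx : h ∈ FB {j : Fin n | j ≠ x} := FB_mono (fun j hj => hj.1) hht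
  have hht' : h ∈ FB {j : Fin n | j ≠ t} := FB_mono (fun j hj => hj.2) hht
  have hth : ⁅T, h⁆ ∈ FB {j : Fin n | j ≠ x} := by
    have h1 : T ∈ FB {j : Fin n | j ≠ x} := of_mem_FB hxt.symm
    rw [commutatorElement_def]
    exact Subgroup.mul_mem _ (Subgroup.mul_mem _ (Subgroup.mul_mem _ h1 hhx)
      (Subgroup.inv_mem _ h1)) (Subgroup.inv_mem _ hhx)
  have hthm : ⁅T, h⁆ ∈ gm (FreeGroup (Fin n)) (k + 1) := comm_gm' hh T
  set E1 := trAut t g 1 hgt (Subgroup.one_mem _) with hE1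
  set E2 := trAut x ⁅T, h⁆ 1 hth (Subgroup.one_mem _) with hE2
  have hE2ia : IAu E2 := by
    apply iau_trAut _ _ _ _ _ _ rfl
    exact Subgroup.lowerCentralSeries_antitone _ (Nat.succ_le_succ (Nat.zero_le k)) hthm
  have E1t : E1 T = g * T := by
    change trHom t g 1 (FreeGroup.of t) = _
    rw [trHom_self, mul_one]
  have E1j : ∀ j, j ≠ t → E1 (FreeGroup.of j) = FreeGroup.of j := fun j hj => trHom_of t g 1 hj
  have E2x : E2 (FreeGroup.of x) = ⁅T, h⁆ * FreeGroup.of x := by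
    change trHom x ⁅T, h⁆ 1 (FreeGroup.of x) = _
    rw [trHom_self, mul_one]
  have E2j : ∀ j, j ≠ x → E2 (FreeGroup.of j) = FreeGroup.of j := fun j hj => trHom_of x _ 1 hj
  have E1g : E1 g = g := aut_fix E1 (S := {j | j ≠ t}) (fun j hj => E1j j hj) hgt
  have E1h : E1 h = h := aut_fix E1 (S := {j | j ≠ t}) (fun j hj => E1j j hj) hht'
  have E2h : E2 h = h := aut_fix E2 (S := {j | j ≠ x}) (fun j hj => E2j j hj) hhx
  have E2T : E2 T = T := E2j t hxt.symm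
  have E1st : E1.symm T = g⁻¹ * T := by
    rw [MulEquiv.symm_apply_eq, map_mul, map_inv, E1g, E1t]
    group
  have E1sh : E1.symm h = h := by rw [MulEquiv.symm_apply_eq, E1h]
  have E1sx : E1.symm (FreeGroup.of x) = FreeGroup.of x := by
    rw [MulEquiv.symm_apply_eq, E1j x hxt]
  have E2sx : E2.symm (FreeGroup.of x) = ⁅T, h⁆⁻¹ * FreeGroup.of x := by
    rw [MulEquiv.symm_apply_eq, map_mul, map_inv, map_commutatorElement, E2T, E2h, E2x]
    group
  refine ⟨Subgroup.commutator_mem_commutator hg hh,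
    E2.symm.trans ((E1.symm.trans E2).trans E1), hE2ia.symm.trans (hE2ia.conj E1), ?_⟩
  set κ : FreeGroup (Fin n) := (E1 (E2 g))⁻¹ * g with hκ
  have hκm : κ ∈ gm (FreeGroup (Fin n)) (k + 1) := by
    have h1 : E2 g * g⁻¹ ∈ gm (FreeGroup (Fin n)) (k + 1) :=
      IA.gm (Φ := E2.toMonoidHom) hE2ia k g hg
    have h2 := lcs_map E1.toMonoidHom (k + 1) h1
    change E1 (E2 g * g⁻¹) ∈ _ at h2
    rw [map_mul, map_inv, E1g] at h2
    have h3 : κ = g⁻¹ * (E1 (E2 g) * g⁻¹)⁻¹ * g⁻¹⁻¹ := by rw [hκ]; group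
    rw [h3]
    exact (inferInstance : (gm (FreeGroup (Fin n)) (k + 1)).Normal).conj_mem _
      (Subgroup.inv_mem _ h2) _
  have e1 : (E2.symm.trans ((E1.symm.trans E2).trans E1)) (FreeGroup.of x)
      = ⁅κ * T, h⁆⁻¹ * (⁅g * T, h⁆ * FreeGroup.of x) := by
    change E1 (E2 (E1.symm (E2.symm (FreeGroup.of x)))) = _
    simp only [E2sx, map_mul, map_inv, map_commutatorElement, E1st, E1sh, E1sx, E2T, E2h, E2x,
      E1t, E1h, E1j x hxt]
    rw [hκ, mul_assoc (E1 (E2 g))⁻¹ g T]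
  rw [e1]
  -- computation modulo LL
  have q1 : (QuotientGroup.mk ⁅κ * T, h⁆ : _ ⧸ LL (FreeGroup (Fin n)) k)
      = QuotientGroup.mk ⁅T, h⁆ := by
    have h1 : ⁅κ * T, h⁆ = κ * ⁅T, h⁆ * κ⁻¹ * ⁅κ, h⁆ := by
      simp only [commutatorElement_def]; group
    have h2 : (QuotientGroup.mk ⁅κ, h⁆ : _ ⧸ LL (FreeGroup (Fin n)) k) = 1 :=
      (QuotientGroup.eq_one_iff _).2 (Subgroup.commutator_mem_commutator hκm hh)
    rw [h1, QuotientGroup.mk_mul, h2, mul_one, QuotientGroup.mk_mul, QuotientGroup.mk_mul,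
      QuotientGroup.mk_inv, LL_comm hκm (hk1 hthm), mul_inv_cancel_right]
  have q2 : (QuotientGroup.mk ⁅g * T, h⁆ : _ ⧸ LL (FreeGroup (Fin n)) k)
      = QuotientGroup.mk ⁅T, h⁆ * QuotientGroup.mk ⁅g, h⁆ := by
    have h1 : ⁅g * T, h⁆ = g * ⁅T, h⁆ * g⁻¹ * ⁅g, h⁆ := by
      simp only [commutatorElement_def]; group
    rw [h1, QuotientGroup.mk_mul, QuotientGroup.mk_mul, QuotientGroup.mk_mul,
      QuotientGroup.mk_inv, ← LL_comm hthm hg, mul_inv_cancel_right]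
  rw [QuotientGroup.mk_mul, QuotientGroup.mk_inv, q1, QuotientGroup.mk_mul, q2, mul_assoc,
    inv_mul_cancel_left, QuotientGroup.mk_mul]

end MP15511a
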