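import Pool.Agent.Lib.MP_15511a_al.Two.Moves3

/-!
Generators of the terms of the lower central series of the free metabelian group as modules.
-/

open scoped commutatorElement

namespace MP15511a

variable {n : ℕ}

/-- combinations of the vectors `u t`, `t ∈ T` -/
def Sp {ι : Type} (C : Set (Fin n)) (T : Finset ι) (u : ι → VV 1 n) (v : VV 1 n) : Prop :=
  ∃ g : ι → EE 1 n, (∀ t, g t ∈ ES C) ∧ v = ∑ t ∈ T, g t • u t

namespace Sp

variable {ι : Type} {C : Set (Fin n)} {T : Finset ι} {u : ι → VV 1 n}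

theorem zero : Sp C T u 0 := ⟨fun _ => 0, fun _ => Subring.zero_mem _, by simp⟩

theorem add {v w : VV 1 n} (hv : Sp C T u v) (hw : Sp C T u w) : Sp C T u (v + w) := by
  obtain ⟨g, h1, rfl⟩ := hv
  obtain ⟨g', h1', rfl⟩ := hw
  refine ⟨fun t => g t + g' t, fun t => Subring.add_mem _ (h1 t) (h1' t), ?_⟩
  rw [← Finset.sum_add_distrib]
  exact Finset.sum_congr rfl fun t _ => (add_smul _ _ _).symm

theorem smul {v : VV 1 n} {e : EE 1 n} (he : e ∈ ES C) (hv : Sp C T u v) : Sp C T u (e • v) := by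
  obtain ⟨g, h1, rfl⟩ := hv
  refine ⟨fun t => e * g t, fun t => Subring.mul_mem _ he (h1 t), ?_⟩
  rw [Finset.smul_sum]
  exact Finset.sum_congr rfl fun t _ => smul_smul _ _ _

theorem neg {v : VV 1 n} (hv : Sp C T u v) : Sp C T u (-v) := by
  have h := hv.smul (Subring.neg_mem _ (Subring.one_mem (ES C)))
  rwa [neg_smul, one_smul] at h

theorem mem (t : ι) (ht : t ∈ T) : Sp C T u (u t) := by
  classical
  refine ⟨fun t' => if t' = t then 1 else 0, ?_, ?_⟩
  · intro t'
    dsimp only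
    split_ifs
    · exact Subring.one_mem _
    · exact Subring.zero_mem _
  · rw [Finset.sum_eq_single t]
    · dsimp only
      rw [if_pos rfl, one_smul]
    · intro t' _ h
      dsimp only
      rw [if_neg h, zero_smul]
    · intro h
      exact absurd ht h

theorem sum {κ : Type} (S : Finset κ) (f : κ → VV 1 n) (h : ∀ i ∈ S, Sp C T u (f i)) :
    Sp C T u (∑ i ∈ S, f i) := by
  classical
  induction S using Finset.induction_on with
  | empty => rw [Finset.sum_empty]; exact zero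
  | insert a S ha ih =>
    rw [Finset.sum_insert ha]
    exact (h a (Finset.mem_insert_self _ _)).add
      (ih (fun i hi => h i (Finset.mem_insert_of_mem hi)))

end Sp

theorem cm_one (x : FreeAN 1 n) : cm x 1 = 0 := by
  apply vl_inj
  rw [vl_cm, vl_zero, commutatorElement_one_right]

theorem cm_one_left (x : FreeAN 1 n) : cm 1 x = 0 := by
  apply vl_inj
  rw [vl_cm, vl_zero, commutatorElement_one_left]

theorem cm_inv_right (x y : FreeAN 1 n) : cm x y⁻¹ = -(Te 1 n y⁻¹ • cm x y) := by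
  have h1 := cm_mul_right x y⁻¹ y
  rw [inv_mul_cancel, cm_one] at h1
  rw [eq_neg_iff_add_eq_zero]
  exact h1.symm

theorem cm_inv_left (x y : FreeAN 1 n) : cm x⁻¹ y = -(Te 1 n x⁻¹ • cm x y) := by
  have h1 := cm_mul x⁻¹ x y
  rw [inv_mul_cancel, cm_one_left] at h1
  rw [eq_neg_iff_add_eq_zero]
  exact h1.symm

/-- commutators of pairs of generators -/
def u2 (t : Fin n × Fin n) : VV 1 n := cm (gen 1 t.1) (gen 1 t.2)

/-- commutators of triples of generators -/
def u3 (t : Fin n × Fin n × Fin n) : VV 1 n :=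
  (1 - Te 1 n (gen 1 t.1)) • cm (gen 1 t.2.1) (gen 1 t.2.2)

theorem sp_cm (C : Finset (Fin n)) {a b : FreeAN 1 n} (ha : a ∈ HS (C : Set (Fin n)))
    (hb : b ∈ HS (C : Set (Fin n))) : Sp (C : Set (Fin n)) (C ×ˢ C) u2 (cm a b) := by
  have h1 : ∀ i ∈ C, ∀ b ∈ HS (C : Set (Fin n)),
      Sp (C : Set (Fin n)) (C ×ˢ C) u2 (cm (gen 1 i) b) := by
    intro i hi b hb
    induction hb using Subgroup.closure_induction with
    | mem x hx =>
      obtain ⟨j, hj, rfl⟩ := hx
      exact Sp.mem (i, j) (Finset.mem_product.2 ⟨hi, hj⟩)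
    | one => rw [cm_one]; exact Sp.zero
    | mul x y hx hy ihx ihy =>
      rw [cm_mul_right]
      exact ihx.add (ihy.smul (Te_mem_ES hx))
    | inv x hx ihx =>
      rw [cm_inv_right]
      exact (ihx.smul (Te_mem_ES (Subgroup.inv_mem _ hx))).neg
  induction ha using Subgroup.closure_induction with
  | mem x hx =>
    obtain ⟨i, hi, rfl⟩ := hx
    exact h1 i hi b hb
  | one => rw [cm_one_left]; exact Sp.zero
  | mul x y hx hy ihx ihy =>
    rw [cm_mul]
    exact ihx.add (ihy.smul (Te_mem_ES hx))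
  | inv x hx ihx =>
    rw [cm_inv_left]
    exact (ihx.smul (Te_mem_ES (Subgroup.inv_mem _ hx))).neg

theorem sp_step (C : Finset (Fin n)) {x : FreeAN 1 n} (hx : x ∈ HS (C : Set (Fin n))) :
    ∀ v, Sp (C : Set (Fin n)) (C ×ˢ C) u2 v →
      Sp (C : Set (Fin n)) (C ×ˢ C ×ˢ C) u3 ((1 - Te 1 n x) • v) := by
  induction hx using Subgroup.closure_induction with
  | mem x hx =>
    obtain ⟨i, hi, rfl⟩ := hx
    rintro _ ⟨g, hg, rfl⟩
    rw [Finset.smul_sum]
    apply Sp.sum
    intro t ht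
    have h1 : (1 - Te 1 n (gen 1 i)) • g t • u2 t = g t • u3 (i, t) := by
      rw [smul_smul, mul_comm, mul_smul]
      rfl
    rw [h1]
    exact (Sp.mem (i, t) (Finset.mem_product.2 ⟨hi, ht⟩)).smul (hg t)
  | one =>
    intro v _
    rw [map_one, sub_self, zero_smul]
    exact Sp.zero
  | mul x y hx hy ihx ihy =>
    intro v hv
    have h1 : (1 - Te 1 n (x * y)) • v
        = (1 - Te 1 n x) • v + Te 1 n x • ((1 - Te 1 n y) • v) := by
      rw [map_mul]
      module
    rw [h1]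
    exact (ihx v hv).add ((ihy v hv).smul (Te_mem_ES hx))
  | inv x hx ihx =>
    intro v hv
    have h1 : (1 - Te 1 n x⁻¹) • v = -(Te 1 n x⁻¹ • ((1 - Te 1 n x) • v)) := by
      have h2 : Te 1 n x⁻¹ * Te 1 n x = 1 := by rw [← map_mul, inv_mul_cancel, map_one]
      rw [smul_smul, mul_sub, mul_one, h2, ← neg_smul, neg_sub]
    rw [h1]
    exact ((ihx v hv).smul (Te_mem_ES (Subgroup.inv_mem _ hx))).neg

/-- the image of `γ_3(F_r)` -/
theorem sp_lcs {r : ℕ} (E : FreeGroup (Fin r) →* FreeAN 1 n) (C : Finset (Fin n))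
    (hE : ∀ g, E g ∈ HS (C : Set (Fin n))) {a : FreeGroup (Fin r)}
    (ha : a ∈ (⊤ : Subgroup (FreeGroup (Fin r))).lowerCentralSeries 2) :
    ∃ v, Sp (C : Set (Fin n)) (C ×ˢ C ×ˢ C) u3 v ∧ vl v = E a := by
  have h1 : ∀ a ∈ (⊤ : Subgroup (FreeGroup (Fin r))).lowerCentralSeries 1,
      ∃ v, Sp (C : Set (Fin n)) (C ×ˢ C) u2 v ∧ vl v = E a := by
    intro a ha
    rw [Subgroup.lowerCentralSeries_succ, Subgroup.commutator_def] at ha
    induction ha using Subgroup.closure_induction with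
    | mem x hx =>
      obtain ⟨g, _, h, _, rfl⟩ := hx
      exact ⟨cm (E g) (E h), sp_cm C (hE g) (hE h), by rw [vl_cm, map_commutatorElement]⟩
    | one => exact ⟨0, Sp.zero, by rw [vl_zero, map_one]⟩
    | mul x y _ _ ihx ihy =>
      obtain ⟨v, hv, hv'⟩ := ihx
      obtain ⟨w, hw, hw'⟩ := ihy
      exact ⟨v + w, hv.add hw, by rw [vl_add, hv', hw', map_mul]⟩
    | inv x _ ihx =>
      obtain ⟨v, hv, hv'⟩ := ihx
      exact ⟨-v, hv.neg, by rw [vl_neg, hv', map_inv]⟩
  rw [Subgroup.lowerCentralSeries_succ, Subgroup.commutator_def] at ha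
  induction ha using Subgroup.closure_induction with
  | mem x hx =>
    obtain ⟨g, hg, h, _, rfl⟩ := hx
    obtain ⟨v, hv, hv'⟩ := h1 g hg
    refine ⟨(1 - Te 1 n (E h)) • v, sp_step C (hE h) v hv, ?_⟩
    rw [map_commutatorElement, ← hv']
    exact vl_delta (E h) v
  | one => exact ⟨0, Sp.zero, by rw [vl_zero, map_one]⟩
  | mul x y _ _ ihx ihy =>
    obtain ⟨v, hv, hv'⟩ := ihx
    obtain ⟨w, hw, hw'⟩ := ihy
    exact ⟨v + w, hv.add hw, by rw [vl_add, hv', hw', map_mul]⟩
  | inv x _ ihx =>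
    obtain ⟨v, hv, hv'⟩ := ihx
    exact ⟨-v, hv.neg, by rw [vl_neg, hv', map_inv]⟩

end MP15511a
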