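import Pool.Agent.Lib.MP_15511a_al.Two.Transport
import Pool.Agent.Lib.MP_15511a_al.Two.ChainM

/-!
Unimodular elements of the coset of a generator modulo the third term of the lower central
series are stably equivalent, modulo the second derived subgroup, to the generator.
-/

open scoped commutatorElement

namespace MP15511a

theorem psi_mem_ES {m N : ℕ} (h : m ≤ N) {C : Set (Fin N)} (hC : ∀ g, emb 1 h g ∈ HS C)
    (x : MonoidAlgebra ℤ (Nil 1 m)) : Psi 1 h x ∈ ES C := by
  induction x using MonoidAlgebra.induction_on with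
  | of g =>
    obtain ⟨g, rfl⟩ := QuotientGroup.mk_surjective g
    rw [Psi_of]
    exact Te_mem_ES (hC g)
  | add a b ha hb => rw [map_add]; exact Subring.add_mem _ ha hb
  | smul k a ha => rw [map_zsmul]; exact Subring.zsmul_mem _ ha k

theorem umc_of_row {m N : ℕ} (h : m ≤ N) {C : Set (Fin N)} (hC : ∀ g, emb 1 h g ∈ HS C)
    (hC' : ∀ j : Fin N, j.val < m → j ∈ C) {w : FreeGroup (Fin m)} (hw : UnimodularRow 1 w) :
    UMC C (emb 1 h w) := by
  obtain ⟨f, hf, hw⟩ := foxCrossed_of_row hw
  set b : Fin N → EE 1 N := fun j => if hj : j.val < m then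
    Psi 1 h (f (FreeGroup.of ⟨j.val, hj⟩)) else 0 with hb
  have h1 : ∀ g, Dc b (emb 1 h g) = Psi 1 h (f g) := by
    apply free_crossed ((Te 1 N).comp (emb 1 h))
    · intro g k
      rw [map_mul, Dc_crossed]
      rfl
    · intro g k
      rw [MonoidHom.comp_apply, ← Psi_of, ← map_mul, ← map_add, hf]
    · intro j
      rw [emb_of, Dc_gen, hb]
      have h2 : (Fin.castLE h j).val < m := j.2
      exact dif_pos h2
  refine ⟨b, ?_, ?_, ?_⟩
  · intro k
    by_cases hk : k.val < m
    · have h2 : b k = Psi 1 h (f (FreeGroup.of ⟨k.val, hk⟩)) := dif_pos hk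
      rw [h2]
      exact psi_mem_ES h hC _
    · have h2 : b k = 0 := dif_neg hk
      rw [h2]
      exact Subring.zero_mem _
  · intro k hk
    exact dif_neg (fun hk' => hk (hC' k hk'))
  · rw [h1, hw, map_one]

theorem t_one {m N : ℕ} (h : m ≤ N) (hN : m + m ^ 3 + 2 ≤ N) (i : Fin m) (u : FreeGroup (Fin m))
    (hu : u ∈ gm (FreeGroup (Fin m)) 2) (hw : UnimodularRow 1 (u * FreeGroup.of i)) :
    ∃ Φ : FreeGroup (Fin N) ≃* FreeGroup (Fin N), ∃ b ∈ KK (FreeGroup (Fin N)) 1,
      Φ (fe h (u * FreeGroup.of i)) = b * FreeGroup.of (Fin.castLE h i) := by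
  classical
  set C : Finset (Fin N) := Finset.univ.image (Fin.castLE h) with hC
  have hCcard : C.card ≤ m := by
    refine Finset.card_image_le.trans ?_
    rw [Finset.card_univ, Fintype.card_fin]
  have hCmem : ∀ j : Fin m, Fin.castLE h j ∈ C := fun j =>
    Finset.mem_image_of_mem _ (Finset.mem_univ j)
  have hCmem' : ∀ j : Fin N, j.val < m → j ∈ C := fun j hj => hCmem ⟨j.val, hj⟩
  have hCnot : ∀ j : Fin N, m ≤ j.val → j ∉ C := by
    intro j hj hj'
    obtain ⟨k, _, rfl⟩ := Finset.mem_image.1 hj'
    have h1 : (Fin.castLE h k).val < m := k.2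
    omega
  have hE : ∀ g, emb 1 h g ∈ HS (C : Set (Fin N)) := by
    intro g
    induction g using FreeGroup.induction_on with
    | C1 => rw [map_one]; exact Subgroup.one_mem _
    | of j => rw [emb_of]; exact gen_mem_HS (hCmem j)
    | inv_of j hj => rw [map_inv]; exact Subgroup.inv_mem _ hj
    | mul a b ha hb => rw [map_mul]; exact Subgroup.mul_mem _ ha hb
  obtain ⟨v, ⟨g, hg, hv⟩, hvu⟩ := sp_lcs (emb 1 h) C hE hu
  set s : Fin N := ⟨m, by omega⟩ with hs
  set p : Fin N := ⟨m + 1, by omega⟩ with hp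
  have hsp : s ≠ p := by
    intro h1
    have h2 := congrArg Fin.val h1
    simp [hs, hp] at h2
  set L : List ((Fin N × Fin N × Fin N) × EE 1 N) :=
    (C ×ˢ C ×ˢ C).toList.map (fun t => (t, g t)) with hL
  have hsum : (L.map tm).sum = v := by
    rw [hv, hL, List.map_map, Finset.sum_map_toList]
    rfl
  set us : List (Fin N) := (List.finRange (m ^ 3)).map
    (fun l => (⟨m + 2 + l.val, by have := l.2; omega⟩ : Fin N)) with hus
  set i' := Fin.castLE h i with hi'
  have hi'C : i' ∈ (C : Set (Fin N)) := hCmem i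
  have e1 : emb 1 h (u * FreeGroup.of i) = vl v * gen 1 i' := by rw [map_mul, hvu, emb_of]
  have key : MEq (gen 1 i') (vl (L.map tm).sum * gen 1 i') := by
    apply chainM hsp (C : Set (Fin N)) L us (C : Set (Fin N)) (gen 1 i') (le_refl _)
    · exact hCnot s (le_refl _)
    · exact hCnot p (Nat.le_succ _)
    · exact gen_mem_HS hi'C
    · intro e he
      rw [hL, List.mem_map] at he
      obtain ⟨t, ht, rfl⟩ := he
      rw [Finset.mem_toList, Finset.mem_product, Finset.mem_product] at ht
      exact ⟨ht.1, ht.2.1, ht.2.2, hg t⟩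
    · rw [hus]
      apply List.Nodup.map _ (List.nodup_finRange _)
      intro a b hab
      have h1 := congrArg Fin.val hab
      simp only at h1
      exact Fin.ext (by omega)
    · intro x hx
      rw [hus, List.mem_map] at hx
      obtain ⟨l, _, rfl⟩ := hx
      refine ⟨hCnot _ ?_, ?_, ?_⟩
      · simp only
        omega
      · intro h1
        have h2 := congrArg Fin.val h1
        simp only [hs] at h2
        omega
      · intro h1
        have h2 := congrArg Fin.val h1
        simp only [hp] at h2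
        omega
    · rw [hus, hL, List.length_map, List.length_map, List.length_finRange, Finset.length_toList,
        Finset.card_product, Finset.card_product]
      calc C.card * (C.card * C.card) ≤ m * (m * m) :=
            Nat.mul_le_mul hCcard (Nat.mul_le_mul hCcard hCcard)
        _ = m ^ 3 := by ring
    · refine ⟨fun k => if k = i' then 1 else 0, ?_, ?_, ?_⟩
      · intro k
        dsimp only
        split_ifs
        · exact Subring.one_mem _
        · exact Subring.zero_mem _
      · intro k hk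
        dsimp only
        rw [if_neg]
        rintro rfl
        exact hk hi'C
      · rw [Dc_gen, if_pos rfl]
    · rw [hsum, ← e1]
      exact umc_of_row h hE hCmem' hw
  rw [hsum, ← e1, emb_mk] at key
  obtain ⟨φ, ⟨Φ, hΦ⟩, hφ⟩ := key
  have h2 : (QuotientGroup.mk (Φ (FreeGroup.of i')) : FreeAN 1 N)
      = QuotientGroup.mk (fe h (u * FreeGroup.of i)) := by
    rw [hΦ, ← hφ]
    rfl
  rw [QuotientGroup.eq] at h2
  have h3 := comm_lcs_map Φ.symm.toMonoidHom 1 1 h2
  set d : FreeGroup (Fin N) := (FreeGroup.of i')⁻¹ * Φ.symm (fe h (u * FreeGroup.of i)) with hd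
  have h4 : d ∈ KK (FreeGroup (Fin N)) 1 := by
    have h5 : Φ.symm.toMonoidHom ((Φ (FreeGroup.of i'))⁻¹ * fe h (u * FreeGroup.of i)) = d := by
      change Φ.symm _ = _
      rw [map_mul, map_inv, Φ.symm_apply_apply]
    rw [h5] at h3
    exact h3
  refine ⟨Φ.symm, FreeGroup.of i' * d * (FreeGroup.of i')⁻¹, ?_, ?_⟩
  · exact (inferInstance : (KK (FreeGroup (Fin N)) 1).Normal).conj_mem _ h4 _
  · rw [hd]
    group

end MP15511a
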