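import Pool.Agent.Lib.MP_15511a_al.Two.Polar
import Pool.Agent.Lib.MP_15511a_al.Stab.Conv

/-!
Transport of unimodularity and of primitivity along automorphisms and embeddings.
-/

open scoped commutatorElement

namespace MP15511a

/-- the ring homomorphism of group rings -/
noncomputable def push {G H : Type*} [Group G] [Group H] (φ : G →* H) :
    MonoidAlgebra ℤ G →+* MonoidAlgebra ℤ H :=
  (MonoidAlgebra.lift ℤ (MonoidAlgebra ℤ H) G ((MonoidAlgebra.of ℤ H).comp φ)).toRingHom

theorem push_of {G H : Type*} [Group G] [Group H] (φ : G →* H) (g : G) :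
    push φ (MonoidAlgebra.of ℤ G g) = MonoidAlgebra.of ℤ H (φ g) := by
  change MonoidAlgebra.lift ℤ (MonoidAlgebra ℤ H) G ((MonoidAlgebra.of ℤ H).comp φ) _ = _
  rw [MonoidAlgebra.lift_of]
  rfl

/-- crossed homomorphisms from the free group to the group ring of the nilpotent quotient -/
def FoxCrossed (c r : ℕ) (f : FreeGroup (Fin r) → MonoidAlgebra ℤ (Nil c r)) : Prop :=
  ∀ g h, f (g * h) = f g + MonoidAlgebra.of ℤ (Nil c r) (QuotientGroup.mk g) * f h

theorem foxCrossed_of_row {c r : ℕ} {w : FreeGroup (Fin r)} (h : UnimodularRow c w) :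
    ∃ f, FoxCrossed c r f ∧ f w = 1 := by
  obtain ⟨D, ⟨_, h2⟩, a, ha⟩ := h
  refine ⟨fun g => ∑ i, D i g * a i, ?_, ha⟩
  intro g k
  dsimp only
  rw [Finset.mul_sum, ← Finset.sum_add_distrib]
  refine Finset.sum_congr rfl fun j _ => ?_
  rw [h2]
  noncomm_ring

theorem row_of_foxCrossed {c r : ℕ} {w : FreeGroup (Fin r)}
    (f : FreeGroup (Fin r) → MonoidAlgebra ℤ (Nil c r)) (hf : FoxCrossed c r f) (hw : f w = 1) :
    UnimodularRow c w := by
  obtain ⟨D, hD⟩ := exists_fox c r
  refine ⟨D, hD, fun i => f (FreeGroup.of i), ?_⟩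
  rw [← hw]
  symm
  apply free_crossed ((MonoidAlgebra.of ℤ (Nil c r)).comp (QuotientGroup.mk' _)) f
    (fun g => ∑ i, D i g * f (FreeGroup.of i))
  · exact hf
  · intro g k
    rw [Finset.mul_sum, ← Finset.sum_add_distrib]
    refine Finset.sum_congr rfl fun j _ => ?_
    rw [hD.2]
    change _ = D j g * _ + MonoidAlgebra.of ℤ (Nil c r) (QuotientGroup.mk g) * _
    noncomm_ring
  · intro j
    rw [Finset.sum_eq_single j]
    · rw [hD.1, if_pos rfl, one_mul]
    · intro k _ hk
      rw [hD.1, if_neg hk, zero_mul]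
    · intro hk
      exact absurd (Finset.mem_univ _) hk

/-- automorphisms preserve unimodularity -/
theorem row_aut {c r : ℕ} {w : FreeGroup (Fin r)} (Φ : FreeGroup (Fin r) ≃* FreeGroup (Fin r))
    (h : UnimodularRow c w) : UnimodularRow c (Φ w) := by
  obtain ⟨f, hf, hw⟩ := foxCrossed_of_row h
  set φ : Nil c r →* Nil c r := QuotientGroup.map _ _ Φ.toMonoidHom
    (fun g hg => lcs_map Φ.toMonoidHom c hg) with hφ
  refine row_of_foxCrossed (fun g => push φ (f (Φ.symm g))) ?_ ?_
  · intro g k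
    dsimp only
    rw [map_mul, hf, map_add, map_mul, push_of]
    congr 3
    change QuotientGroup.mk (Φ (Φ.symm g)) = _
    rw [Φ.apply_symm_apply]
  · rw [Φ.symm_apply_apply, hw, map_one]

/-- passing to smaller class -/
theorem row_class {c r : ℕ} {w : FreeGroup (Fin r)} (h : UnimodularRow (c + 1) w) :
    UnimodularRow c w := by
  obtain ⟨f, hf, hw⟩ := foxCrossed_of_row h
  set φ : Nil (c + 1) r →* Nil c r := QuotientGroup.map _ _ (MonoidHom.id _)
    (fun g hg => Subgroup.lowerCentralSeries_antitone _ (Nat.le_succ c) hg) with hφ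
  refine row_of_foxCrossed (fun g => push φ (f g)) ?_ ?_
  · intro g k
    dsimp only
    rw [hf, map_add, map_mul, push_of]
    rfl
  · rw [hw, map_one]

/-- passing to larger rank -/
theorem row_fe {c r m : ℕ} (h : r ≤ m) {w : FreeGroup (Fin r)} (hw : UnimodularRow c w) :
    UnimodularRow c (fe h w) := by
  obtain ⟨f, hf, hw⟩ := foxCrossed_of_row hw
  set φ : Nil c r →* Nil c m := QuotientGroup.map _ _ (fe h)
    (fun g hg => by
      have h1 : fe h g ∈ ((⊤ : Subgroup (FreeGroup (Fin r))).lowerCentralSeries c).map (fe h) :=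
        ⟨g, hg, rfl⟩
      rw [Subgroup.map_lowerCentralSeries] at h1
      exact Subgroup.lowerCentralSeries_mono c le_top h1) with hφ
  obtain ⟨D, hD⟩ := exists_fox c m
  set b : Fin m → MonoidAlgebra ℤ (Nil c m) := fun j => if hj : j.val < r then
    push φ (f (FreeGroup.of ⟨j.val, hj⟩)) else 0 with hb
  have h1 : ∀ g, (∑ j, D j (fe h g) * b j) = push φ (f g) := by
    apply free_crossed ((MonoidAlgebra.of ℤ (Nil c m)).comp ((QuotientGroup.mk' _).comp (fe h)))
      (fun g => ∑ j, D j (fe h g) * b j) (fun g => push φ (f g))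
    · intro g k
      rw [Finset.mul_sum, ← Finset.sum_add_distrib]
      refine Finset.sum_congr rfl fun j _ => ?_
      rw [map_mul, hD.2]
      change _ = D j (fe h g) * _ + MonoidAlgebra.of ℤ (Nil c m) (QuotientGroup.mk (fe h g)) * _
      noncomm_ring
    · intro g k
      rw [hf, map_add, map_mul, push_of]
      rfl
    · intro j
      rw [Finset.sum_eq_single (Fin.castLE h j)]
      · rw [fe_of, hD.1, if_pos rfl, one_mul, hb]
        have h2 : (Fin.castLE h j).val < r := j.2
        exact dif_pos h2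
      · intro k _ hk
        rw [fe_of, hD.1, if_neg hk, zero_mul]
      · intro hk
        exact absurd (Finset.mem_univ _) hk
  refine row_of_foxCrossed (fun g => ∑ j, D j g * b j) ?_ ?_
  · intro g k
    dsimp only
    rw [Finset.mul_sum, ← Finset.sum_add_distrib]
    refine Finset.sum_congr rfl fun j _ => ?_
    rw [hD.2]
    noncomm_ring
  · rw [h1, hw, map_one]

theorem emb_fe (c : ℕ) {r m n : ℕ} (h : r ≤ m) (h' : m ≤ n) (w : FreeGroup (Fin r)) :
    emb c h' (fe h w) = emb c (h.trans h') w := by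
  have h1 : (emb c h').comp (fe h) = emb c (h.trans h') := by
    apply FreeGroup.ext_hom
    intro i
    rw [MonoidHom.comp_apply, fe_of, emb_of, emb_of]
    rfl
  exact DFunLike.congr_fun h1 w

theorem emb_mk {m n : ℕ} (c : ℕ) (h : m ≤ n) (w : FreeGroup (Fin m)) :
    emb c h w = QuotientGroup.mk (fe h w) := by
  have h1 : emb c h = (QuotientGroup.mk' _).comp (fe h) := by
    apply FreeGroup.ext_hom
    intro i
    rw [MonoidHom.comp_apply, fe_of, emb_of]
    rfl
  exact DFunLike.congr_fun h1 w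

theorem primitive_map {c n : ℕ} (Φ Ψ : FreeAN c n →* FreeAN c n) (h1 : ∀ g, Φ (Ψ g) = g)
    (h2 : ∀ g, Ψ (Φ g) = g) {u : FreeAN c n} (hu : Primitive u) : Primitive (Ψ u) := by
  obtain ⟨b, hb, i, rfl⟩ := hu
  refine ⟨fun j => Ψ (b j), ?_, i, rfl⟩
  intro K _ hK k
  obtain ⟨f, hf, hun⟩ := hb K hK k
  refine ⟨f.comp Φ, ?_, ?_⟩
  · intro j
    rw [MonoidHom.comp_apply, h1, hf]
  · intro f' hf'
    have h3 : f'.comp Ψ = f := hun _ (fun j => hf' j)
    rw [← h3]
    refine MonoidHom.ext fun g => ?_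
    rw [MonoidHom.comp_apply, MonoidHom.comp_apply, h2]

/-- automorphisms of `F_m` act on `F_n(AN_c)` -/
theorem primitive_aut {c m n : ℕ} (h : m ≤ n) (Φ : FreeGroup (Fin m) ≃* FreeGroup (Fin m))
    (w : FreeGroup (Fin m)) (hw : Primitive (emb c h (Φ w))) : Primitive (emb c h w) := by
  have key : ∀ Φ : FreeGroup (Fin m) ≃* FreeGroup (Fin m), ∃ F : FreeAN c n →* FreeAN c n,
      (∀ g, F (emb c h g) = emb c h (Φ g)) ∧ ∀ j : Fin n, ¬ j.val < m → F (gen c j) = gen c j := by
    intro Φ
    set F : FreeAN c n →* FreeAN c n := liftAN (inAN_free c n) (fun j => if hj : j.val < m then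
      emb c h (Φ (FreeGroup.of ⟨j.val, hj⟩)) else gen c j) with hF
    refine ⟨F, ?_, ?_⟩
    · have h1 : F.comp (emb c h) = (emb c h).comp Φ.toMonoidHom := by
        apply FreeGroup.ext_hom
        intro i
        rw [MonoidHom.comp_apply, emb_of, hF, liftAN_gen]
        have h2 : (Fin.castLE h i).val < m := i.2
        exact dif_pos h2
      exact fun g => DFunLike.congr_fun h1 g
    · intro j hj
      rw [hF, liftAN_gen, dif_neg hj]
  obtain ⟨F, hF1, hF2⟩ := key Φ
  obtain ⟨F', hF1', hF2'⟩ := key Φ.symm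
  have gm' : ∀ j : Fin n, ∀ hj : j.val < m, gen c j = emb c h (FreeGroup.of ⟨j.val, hj⟩) := by
    intro j hj
    rw [emb_of]
    rfl
  have h1 : ∀ g, F (F' g) = g := by
    have h2 : F.comp F' = MonoidHom.id _ := by
      apply hom_ext
      intro j
      rw [MonoidHom.comp_apply]
      by_cases hj : j.val < m
      · rw [gm' j hj, hF1', hF1, Φ.apply_symm_apply]
        rfl
      · rw [hF2' j hj, hF2 j hj]
        rfl
    exact fun g => DFunLike.congr_fun h2 g
  have h1' : ∀ g, F' (F g) = g := by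
    have h2 : F'.comp F = MonoidHom.id _ := by
      apply hom_ext
      intro j
      rw [MonoidHom.comp_apply]
      by_cases hj : j.val < m
      · rw [gm' j hj, hF1, hF1', Φ.symm_apply_apply]
        rfl
      · rw [hF2 j hj, hF2' j hj]
        rfl
    exact fun g => DFunLike.congr_fun h2 g
  have h3 := primitive_map F F' h1 h1' hw
  rwa [hF1', Φ.symm_apply_apply] at h3

/-- the first step: w can be mapped to `c x_t` with c in the commutator subgroup -/
theorem first_step {c r : ℕ} (w : FreeGroup (Fin r)) (hw : UnimodularRow c w) :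
    ∃ (Φ : FreeGroup (Fin (r + 1)) ≃* FreeGroup (Fin (r + 1))),
      ∃ u ∈ KK (FreeGroup (Fin (r + 1))) 0,
        Φ (fe (Nat.le_succ r) w) = u * FreeGroup.of (Fin.last r) := by
  obtain ⟨f, hf, hw⟩ := foxCrossed_of_row hw
  set ε : MonoidAlgebra ℤ (Nil c r) →+* ℤ :=
    (MonoidAlgebra.lift ℤ ℤ (Nil c r) 1).toRingHom with hε
  have hεo : ∀ g, ε (MonoidAlgebra.of ℤ (Nil c r) g) = 1 := by
    intro g
    change MonoidAlgebra.lift ℤ ℤ (Nil c r) 1 _ = 1
    rw [MonoidAlgebra.lift_of]
    rfl
  set χ : FreeGroup (Fin r) →* Multiplicative ℤ :=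
    { toFun := fun g => Multiplicative.ofAdd (ε (f g))
      map_one' := by
        have h1 := hf 1 1
        rw [mul_one] at h1
        have h2 : f 1 = 0 := by
          have h3 : MonoidAlgebra.of ℤ (Nil c r) (QuotientGroup.mk (1 : FreeGroup (Fin r))) = 1 :=
            map_one _
          rw [h3, one_mul] at h1
          exact add_eq_left.1 h1.symm
        rw [h2, map_zero]
        rfl
      map_mul' := by
        intro g h
        rw [hf, map_add, map_mul, hεo, one_mul]
        rfl } with hχ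
  have hχw : Multiplicative.toAdd (χ w) = 1 := by
    change ε (f w) = 1
    rw [hw, map_one]
  set t : Fin (r + 1) := Fin.last r with ht
  set F1 := FreeGroup (Fin (r + 1)) with hF1
  set a : Fin (r + 1) → F1 := fun j => if hj : j.val < r then
    (FreeGroup.of t) ^ (Multiplicative.toAdd (χ (FreeGroup.of ⟨j.val, hj⟩))) else 1 with ha
  have a1 : ∀ j ∈ ({t} : Set (Fin (r + 1))), a j = 1 := by
    intro j hj
    rw [Set.mem_singleton_iff.1 hj]
    exact dif_neg (by simp [ht])
  have a2 : ∀ j, a j ∈ FB ({t} : Set (Fin (r + 1))) := by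
    intro j
    by_cases hj : j.val < r
    · have h1 : a j = (FreeGroup.of t) ^ (Multiplicative.toAdd
        (χ (FreeGroup.of ⟨j.val, hj⟩))) := dif_pos hj
      rw [h1]
      exact Subgroup.zpow_mem _ (of_mem_FB (Set.mem_singleton t)) _
    · have h1 : a j = 1 := dif_neg hj
      rw [h1]
      exact Subgroup.one_mem _
  set Φ1 := mulAut a {t} a1 a2 with hΦ1
  -- modulo the commutator subgroup
  have key : ∀ g : FreeGroup (Fin r),
      (QuotientGroup.mk (Φ1 (fe (Nat.le_succ r) g)) : F1 ⧸ gm F1 1)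
      = QuotientGroup.mk (fe (Nat.le_succ r) g * (FreeGroup.of t) ^ (Multiplicative.toAdd (χ g))) := by
    have hab : ∀ y z : F1 ⧸ gm F1 1, y * z = z * y := by
      intro y z
      obtain ⟨y, rfl⟩ := QuotientGroup.mk_surjective y
      obtain ⟨z, rfl⟩ := QuotientGroup.mk_surjective z
      have h1 : ⁅(QuotientGroup.mk y : F1 ⧸ gm F1 1), (QuotientGroup.mk z : F1 ⧸ gm F1 1)⁆ = 1 :=
        (QuotientGroup.eq_one_iff _).2 (comm_gm (k := 0) (Subgroup.mem_top y) z)
      exact commutatorElement_eq_one_iff_mul_comm.1 h1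
    let ψ : FreeGroup (Fin r) →* F1 ⧸ gm F1 1 :=
      { toFun := fun g => QuotientGroup.mk (fe (Nat.le_succ r) g
          * (FreeGroup.of t) ^ (Multiplicative.toAdd (χ g)))
        map_one' := by
          rw [map_one, map_one, toAdd_one, zpow_zero, one_mul]
          rfl
        map_mul' := by
          intro g h
          rw [map_mul, map_mul, toAdd_mul, zpow_add, QuotientGroup.mk_mul, QuotientGroup.mk_mul,
            QuotientGroup.mk_mul, QuotientGroup.mk_mul, QuotientGroup.mk_mul]
          generalize (QuotientGroup.mk (fe (Nat.le_succ r) g) : F1 ⧸ gm F1 1) = p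
          generalize (QuotientGroup.mk (fe (Nat.le_succ r) h) : F1 ⧸ gm F1 1) = q
          generalize (QuotientGroup.mk (FreeGroup.of t ^ Multiplicative.toAdd (χ g)) :
            F1 ⧸ gm F1 1) = p'
          generalize (QuotientGroup.mk (FreeGroup.of t ^ Multiplicative.toAdd (χ h)) :
            F1 ⧸ gm F1 1) = q'
          rw [mul_assoc, ← mul_assoc q, hab q p', mul_assoc, mul_assoc] }
    have h1 : ((QuotientGroup.mk' (gm F1 1)).comp Φ1.toMonoidHom).comp (fe (Nat.le_succ r)) = ψ := by
      apply FreeGroup.ext_hom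
      intro i
      rw [MonoidHom.comp_apply, MonoidHom.comp_apply, fe_of]
      change (QuotientGroup.mk (Φ1 (FreeGroup.of (Fin.castLE (Nat.le_succ r) i))) : F1 ⧸ gm F1 1)
        = QuotientGroup.mk (fe (Nat.le_succ r) (FreeGroup.of i)
          * (FreeGroup.of t) ^ (Multiplicative.toAdd (χ (FreeGroup.of i))))
      rw [hΦ1, mulAut_of, fe_of]
      congr 2
      have h2 : (Fin.castLE (Nat.le_succ r) i).val < r := i.2
      exact dif_pos h2
    exact fun g => DFunLike.congr_fun h1 g
  set w1 : F1 := fe (Nat.le_succ r) w with hw1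
  have hw1t : w1 ∈ FB {j : Fin (r + 1) | j ≠ t} := by
    refine FB_mono ?_ (fe_mem (Nat.le_succ r) w)
    intro j hj h
    have h1 : j.val < r := hj
    rw [h, ht] at h1
    simp at h1
  have k1 := key w
  rw [← hw1, hχw, zpow_one, eq_comm, QuotientGroup.eq] at k1
  -- Φ1 w1 = w1 t c
  set c0 : F1 := (w1 * FreeGroup.of t)⁻¹ * Φ1 w1 with hc0
  have e1 : Φ1 w1 = w1 * FreeGroup.of t * c0 := by rw [hc0, mul_inv_cancel_left]
  set Φ2 := trAut t w1⁻¹ 1 (Subgroup.inv_mem _ hw1t) (Subgroup.one_mem _) with hΦ2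
  have f1 : Φ2 w1 = w1 := trHom_fix t w1⁻¹ 1 hw1t
  have f2 : Φ2 (FreeGroup.of t) = w1⁻¹ * FreeGroup.of t := by
    change trHom t w1⁻¹ 1 (FreeGroup.of t) = _
    rw [trHom_self, mul_one]
  have k2 : Φ2 c0 ∈ gm F1 1 := lcs_map Φ2.toMonoidHom 1 k1
  refine ⟨Φ1.trans Φ2, FreeGroup.of t * Φ2 c0 * (FreeGroup.of t)⁻¹, ?_, ?_⟩
  · exact (inferInstance : (gm F1 1).Normal).conj_mem _ k2 _
  · change Φ2 (Φ1 w1) = _
    rw [e1, map_mul, map_mul, f1, f2, inv_mul_cancel_right, mul_inv_cancel_left]

end MP15511a
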